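import Mathlib

/-!
# Facts about the standard Gaussian measure
-/

open MeasureTheory ProbabilityTheory Module
open scoped RealInnerProductSpace ENNReal

namespace Pool.Agent.Helper97.LB

section density

variable {V : Type*} [NormedAddCommGroup V] [InnerProductSpace ℝ V] [FiniteDimensional ℝ V]
  [MeasurableSpace V] [BorelSpace V]

/-- Gaussian density -/
noncomputable def gden (x : V) : ℝ :=
  (2 * Real.pi) ^ (-(finrank ℝ V : ℝ) / 2) * Real.exp (-‖x‖ ^ 2 / 2)

omit [FiniteDimensional ℝ V] [MeasurableSpace V] [BorelSpace V] in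
lemma gden_pos (x : V) : 0 < gden x := by
  unfold gden
  have := Real.pi_pos
  positivity

omit [FiniteDimensional ℝ V] in
lemma measurable_gden : Measurable (gden : V → ℝ) := by
  unfold gden
  fun_prop

lemma integrable_gden : Integrable (gden : V → ℝ) := by
  unfold gden
  apply Integrable.const_mul
  have h := GaussianFourier.integrable_cexp_neg_mul_sq_norm_add (V := V) (b := 1 / 2) (by norm_num) 0 0
  have h2 := h.re
  refine h2.congr (Filter.Eventually.of_forall fun x => ?_)
  simp only [zero_mul, add_zero]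
  have : Complex.exp (-(1 / 2) * (‖x‖ : ℂ) ^ 2) = ((Real.exp (-‖x‖ ^ 2 / 2) : ℝ) : ℂ) := by
    rw [Complex.ofReal_exp]
    congr 1
    push_cast
    ring
  rw [this, RCLike.re_to_complex, Complex.ofReal_re]

lemma charFun_gden (t : V) :
    charFun ((volume : Measure V).withDensity (fun x => ENNReal.ofReal (gden x))) t
      = Complex.exp (-‖t‖ ^ 2 / 2) := by
  rw [charFun_apply, integral_withDensity_eq_integral_toReal_smul
    (measurable_gden.ennreal_ofReal) (Filter.Eventually.of_forall fun _ => ENNReal.ofReal_lt_top)]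
  have h1 : ∀ x : V, (ENNReal.ofReal (gden x)).toReal • Complex.exp ((⟪x, t⟫ : ℝ) * Complex.I)
      = (((2 * Real.pi) ^ (-(finrank ℝ V : ℝ) / 2) : ℝ) : ℂ) *
        Complex.exp (-(1 / 2) * (‖x‖ : ℂ) ^ 2 + Complex.I * (⟪t, x⟫ : ℝ)) := by
    intro x
    rw [ENNReal.toReal_ofReal (gden_pos x).le, gden, Complex.real_smul, Complex.exp_add]
    push_cast
    rw [real_inner_comm]
    have : (-(‖x‖ : ℂ) ^ 2 / 2) = -(1 / 2) * (‖x‖ : ℂ) ^ 2 := by ring
    rw [this, mul_comm Complex.I]
    ring
  simp_rw [h1]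
  rw [integral_const_mul, GaussianFourier.integral_cexp_neg_mul_sq_norm_add (by norm_num)]
  have h2 : ((Real.pi : ℂ) / (1 / 2)) ^ ((finrank ℝ V : ℂ) / 2)
      = (((2 * Real.pi) ^ ((finrank ℝ V : ℝ) / 2) : ℝ) : ℂ) := by
    rw [Complex.ofReal_cpow (by positivity)]
    push_cast
    congr 1
    ring
  rw [h2, ← mul_assoc, ← Complex.ofReal_mul, ← Real.rpow_add (by positivity)]
  have h3 : -(finrank ℝ V : ℝ) / 2 + (finrank ℝ V : ℝ) / 2 = 0 := by ring
  rw [h3, Real.rpow_zero]
  simp only [Complex.ofReal_one, one_mul, Complex.I_sq]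
  congr 1
  ring

lemma stdGaussian_eq_withDensity :
    stdGaussian V = (volume : Measure V).withDensity (fun x => ENNReal.ofReal (gden x)) := by
  have : IsFiniteMeasure ((volume : Measure V).withDensity (fun x => ENNReal.ofReal (gden x))) :=
    isFiniteMeasure_withDensity_ofReal integrable_gden.2
  apply Measure.ext_of_charFun
  ext t
  rw [charFun_gden, charFun_stdGaussian]

/-- weight of the affine substitution `y ↦ a y + c` for the standard Gaussian measure -/
noncomputable def gwt (a : ℝ) (c : V) (y : V) : ℝ :=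
  a ^ (finrank ℝ V) * Real.exp (-‖a • y + c‖ ^ 2 / 2 + ‖y‖ ^ 2 / 2)

lemma lintegral_affine {a : ℝ} (ha : 0 < a) (c : V) {h : V → ℝ≥0∞} (hh : Measurable h) :
    ∫⁻ y, h y = ∫⁻ y, h (a • y + c) * ENNReal.ofReal (a ^ (finrank ℝ V)) := by
  have h1 : ∫⁻ y, h (a • y + c) = ∫⁻ y, h (y + c) ∂(Measure.map (fun y : V => a • y) volume) := by
    rw [lintegral_map (by fun_prop) (by fun_prop)]
  rw [lintegral_mul_const _ (by fun_prop), h1, Measure.map_addHaar_smul _ ha.ne',
    lintegral_smul_measure, lintegral_add_right_eq_self h c]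
  rw [abs_of_pos (by positivity), smul_eq_mul, mul_comm (ENNReal.ofReal _) (∫⁻ y, h y), mul_assoc,
    ← ENNReal.ofReal_mul (by positivity), inv_mul_cancel₀ (by positivity)]
  simp

lemma lintegral_stdGaussian_affine {a : ℝ} (ha : 0 < a) (c : V) {F : V → ℝ≥0∞}
    (hF : Measurable F) :
    ∫⁻ y, F y ∂(stdGaussian V)
      = ∫⁻ y, F (a • y + c) * ENNReal.ofReal (gwt a c y) ∂(stdGaussian V) := by
  have hw : Measurable (gwt a c : V → ℝ) := by
    unfold gwt
    fun_prop
  rw [stdGaussian_eq_withDensity, lintegral_withDensity_eq_lintegral_mul _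
    measurable_gden.ennreal_ofReal hF, lintegral_withDensity_eq_lintegral_mul _
    measurable_gden.ennreal_ofReal (by fun_prop)]
  simp only [Pi.mul_apply]
  rw [lintegral_affine ha c (by
    have := (measurable_gden (V := V)).ennreal_ofReal
    fun_prop)]
  apply lintegral_congr
  intro y
  have h1 : gden (a • y + c) * a ^ (finrank ℝ V) = gden y * gwt a c y := by
    unfold gden gwt
    have : Real.exp (-‖a • y + c‖ ^ 2 / 2)
        = Real.exp (-‖y‖ ^ 2 / 2) * Real.exp (-‖a • y + c‖ ^ 2 / 2 + ‖y‖ ^ 2 / 2) := by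
      rw [← Real.exp_add]
      congr 1
      ring
    rw [this]
    ring
  rw [mul_comm (ENNReal.ofReal (gden (a • y + c))), mul_assoc, ← ENNReal.ofReal_mul (gden_pos _).le,
    h1, ENNReal.ofReal_mul (gden_pos _).le]
  ring

end density

section reveal

variable {X Y : Type*} [NormedAddCommGroup X] [InnerProductSpace ℝ X] [FiniteDimensional ℝ X]
  [MeasurableSpace X] [BorelSpace X] [NormedAddCommGroup Y] [InnerProductSpace ℝ Y]
  [FiniteDimensional ℝ Y] [MeasurableSpace Y] [BorelSpace Y]

/-- Resampling a co-isometric image of a standard Gaussian vector. -/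
lemma map_reveal {J : Y →L[ℝ] X} {Jt : X →L[ℝ] Y} (hadj : ∀ y x, ⟪J y, x⟫ = ⟪y, Jt x⟫)
    (hid : ∀ y, Jt (J y) = y) :
    ((stdGaussian Y).prod (stdGaussian X)).map (fun p => J p.1 + (p.2 - J (Jt p.2)))
      = stdGaussian X := by
  have hJ : Measurable (fun p : Y × X => J p.1 + (p.2 - J (Jt p.2))) := by fun_prop
  have : IsFiniteMeasure (((stdGaussian Y).prod (stdGaussian X)).map
      (fun p => J p.1 + (p.2 - J (Jt p.2)))) := by infer_instance
  apply Measure.ext_of_charFun
  ext t
  rw [charFun_apply, integral_map hJ.aemeasurable (by fun_prop)]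
  have h1 : ∀ p : Y × X, Complex.exp ((⟪J p.1 + (p.2 - J (Jt p.2)), t⟫ : ℝ) * Complex.I)
      = Complex.exp ((⟪p.1, Jt t⟫ : ℝ) * Complex.I) *
        Complex.exp ((⟪p.2, t - J (Jt t)⟫ : ℝ) * Complex.I) := by
    intro p
    have h2 : ⟪p.2, J (Jt t)⟫ = ⟪Jt p.2, Jt t⟫ := by
      rw [real_inner_comm, hadj, real_inner_comm]
    have h3 : ⟪J p.1 + (p.2 - J (Jt p.2)), t⟫ = ⟪p.1, Jt t⟫ + ⟪p.2, t - J (Jt t)⟫ := by
      rw [inner_add_left, inner_sub_left, inner_sub_right, hadj, hadj, h2]
    rw [← Complex.exp_add, h3]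
    push_cast
    ring_nf
  simp_rw [h1]
  rw [integral_prod_mul (fun y : Y => Complex.exp ((⟪y, Jt t⟫ : ℝ) * Complex.I))
    (fun x : X => Complex.exp ((⟪x, t - J (Jt t)⟫ : ℝ) * Complex.I)), ← charFun_apply,
    ← charFun_apply, charFun_stdGaussian, charFun_stdGaussian, charFun_stdGaussian,
    ← Complex.exp_add]
  congr 1
  have h3 : ‖Jt t‖ ^ 2 + ‖t - J (Jt t)‖ ^ 2 = ‖t‖ ^ 2 := by
    have e1 : ⟪J (Jt t), t⟫ = ⟪Jt t, Jt t⟫ := hadj _ _
    have e2 : ⟪t, J (Jt t)⟫ = ⟪Jt t, Jt t⟫ := by rw [real_inner_comm, e1]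
    have e3 : ⟪J (Jt t), J (Jt t)⟫ = ⟪Jt t, Jt t⟫ := by rw [hadj, hid]
    rw [← real_inner_self_eq_norm_sq, ← real_inner_self_eq_norm_sq, ← real_inner_self_eq_norm_sq,
      inner_sub_left, inner_sub_right, inner_sub_right, e1, e2, e3]
    ring
  have h4 : ((‖Jt t‖ : ℂ) ^ 2 + (‖t - J (Jt t)‖ : ℂ) ^ 2) = (‖t‖ : ℂ) ^ 2 := by
    exact_mod_cast h3
  rw [← h4]
  ring

lemma lintegral_reveal {J : Y →L[ℝ] X} {Jt : X →L[ℝ] Y} (hadj : ∀ y x, ⟪J y, x⟫ = ⟪y, Jt x⟫)
    (hid : ∀ y, Jt (J y) = y) {F : X → ℝ≥0∞} (hF : Measurable F) :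
    ∫⁻ y, ∫⁻ x, F (J y + (x - J (Jt x))) ∂(stdGaussian X) ∂(stdGaussian Y)
      = ∫⁻ x, F x ∂(stdGaussian X) := by
  have hJ : Measurable (fun p : Y × X => J p.1 + (p.2 - J (Jt p.2))) := by fun_prop
  conv_rhs => rw [← map_reveal hadj hid]
  rw [lintegral_map hF hJ, lintegral_prod (fun p : Y × X => F (J p.1 + (p.2 - J (Jt p.2))))
    (hF.comp hJ).aemeasurable]

end reveal

section mat

variable {D : Type*} [Fintype D] {F : Type*} [NormedAddCommGroup F] [InnerProductSpace ℝ F]

/-- Matrices with rows indexed by `D` and rows in the inner product space `F`. -/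
abbrev Mat (D : Type*) (F : Type*) : Type _ := PiLp 2 (fun _ : D => F)

/-- the matrix-vector product -/
noncomputable def app (M : Mat D F) (b : F) : EuclideanSpace ℝ D :=
  WithLp.toLp 2 (fun i => ⟪M i, b⟫)

/-- the rank one matrix `y fᵀ` -/
noncomputable def outer (y : EuclideanSpace ℝ D) (f : F) : Mat D F :=
  WithLp.toLp 2 (fun i => y i • f)

omit [Fintype D] in
@[simp] lemma app_apply (M : Mat D F) (b : F) (i : D) : app M b i = ⟪M i, b⟫ := rfl
omit [Fintype D] in
@[simp] lemma outer_apply (y : EuclideanSpace ℝ D) (f : F) (i : D) : outer y f i = y i • f := rfl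

omit [Fintype D] in
lemma app_add_left (M M' : Mat D F) (b : F) : app (M + M') b = app M b + app M' b := by
  ext i; simp [inner_add_left]
omit [Fintype D] in
lemma app_sub_left (M M' : Mat D F) (b : F) : app (M - M') b = app M b - app M' b := by
  ext i; simp [inner_sub_left]
omit [Fintype D] in
lemma app_smul_left (c : ℝ) (M : Mat D F) (b : F) : app (c • M) b = c • app M b := by
  ext i; simp [real_inner_smul_left]
omit [Fintype D] in
lemma app_add_right (M : Mat D F) (b b' : F) : app M (b + b') = app M b + app M b' := by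
  ext i; simp [inner_add_right]
omit [Fintype D] in
lemma app_smul_right (c : ℝ) (M : Mat D F) (b : F) : app M (c • b) = c • app M b := by
  ext i; simp [real_inner_smul_right]
omit [Fintype D] in
@[simp] lemma app_zero_right (M : Mat D F) : app M 0 = 0 := by
  ext i; simp
omit [Fintype D] in
@[simp] lemma app_zero_left (b : F) : app (0 : Mat D F) b = 0 := by
  ext i; simp
omit [Fintype D] in
lemma app_outer (y : EuclideanSpace ℝ D) (f b : F) : app (outer y f) b = ⟪f, b⟫ • y := by
  ext i; simp [real_inner_smul_left, mul_comm]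
omit [Fintype D] in
@[simp] lemma outer_zero_right (y : EuclideanSpace ℝ D) : outer y (0 : F) = 0 := by
  ext i; simp
omit [Fintype D] in
@[simp] lemma outer_zero_left (f : F) : outer (0 : EuclideanSpace ℝ D) f = 0 := by
  ext i; simp
omit [Fintype D] in
lemma outer_add_left (y y' : EuclideanSpace ℝ D) (f : F) :
    outer (y + y') f = outer y f + outer y' f := by
  ext i; simp [add_smul]
omit [Fintype D] in
lemma outer_sub_left (y y' : EuclideanSpace ℝ D) (f : F) :
    outer (y - y') f = outer y f - outer y' f := by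
  ext i; simp [sub_smul]
omit [Fintype D] in
lemma outer_smul_left (c : ℝ) (y : EuclideanSpace ℝ D) (f : F) :
    outer (c • y) f = c • outer y f := by
  ext i; simp [mul_smul]

omit [Fintype D] in
lemma app_sum_right {κ : Type*} (s : Finset κ) (M : Mat D F) (b : κ → F) :
    app M (∑ i ∈ s, b i) = ∑ i ∈ s, app M (b i) := by
  classical
  induction s using Finset.induction_on with
  | empty => simp
  | insert a s ha ih => rw [Finset.sum_insert ha, Finset.sum_insert ha, app_add_right, ih]

omit [Fintype D] in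
lemma app_sum_left {κ : Type*} (s : Finset κ) (M : κ → Mat D F) (b : F) :
    app (∑ i ∈ s, M i) b = ∑ i ∈ s, app (M i) b := by
  classical
  induction s using Finset.induction_on with
  | empty => simp
  | insert a s ha ih => rw [Finset.sum_insert ha, Finset.sum_insert ha, app_add_left, ih]

omit [Fintype D] in
lemma continuous_app : Continuous (fun p : Mat D F × F => app p.1 p.2) := by
  unfold app
  apply (PiLp.continuous_toLp 2 _).comp
  apply continuous_pi
  intro i
  have h : Continuous (fun p : Mat D F × F => p.1 i) := by fun_prop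
  exact h.inner continuous_snd

omit [Fintype D] in
lemma continuous_outer : Continuous (fun p : EuclideanSpace ℝ D × F => (outer p.1 p.2 : Mat D F)) := by
  unfold outer
  apply (PiLp.continuous_toLp 2 _).comp
  apply continuous_pi
  intro i
  have h : Continuous (fun p : EuclideanSpace ℝ D × F => p.1 i) := by fun_prop
  exact h.smul continuous_snd

lemma inner_outer (y : EuclideanSpace ℝ D) (f : F) (M : Mat D F) :
    ⟪outer y f, M⟫ = ⟪y, app M f⟫ := by
  rw [PiLp.inner_apply, PiLp.inner_apply]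
  apply Finset.sum_congr rfl
  intro i _
  simp only [outer_apply, app_apply, real_inner_smul_left]
  rw [real_inner_comm]
  simp [mul_comm]

/-- `outer · f` as a continuous linear map -/
noncomputable def outerL (f : F) : EuclideanSpace ℝ D →L[ℝ] Mat D F :=
  { toFun := fun y => outer y f
    map_add' := fun y y' => outer_add_left y y' f
    map_smul' := fun c y => outer_smul_left c y f
    cont := continuous_outer.comp (continuous_id.prodMk continuous_const) }

/-- `app · f` as a continuous linear map -/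
noncomputable def appL (f : F) : Mat D F →L[ℝ] EuclideanSpace ℝ D :=
  { toFun := fun M => app M f
    map_add' := fun M M' => app_add_left M M' f
    map_smul' := fun c M => app_smul_left c M f
    cont := continuous_app.comp (continuous_id.prodMk continuous_const) }

variable [FiniteDimensional ℝ F] [MeasurableSpace F] [BorelSpace F]

/-- Resampling the value of a Gaussian matrix at a unit vector (or at `0`). -/
lemma lintegral_reveal_mat {f : F} (hf : ‖f‖ = 1 ∨ f = 0) {Φ : Mat D F → ℝ≥0∞}
    (hΦ : Measurable Φ) :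
    ∫⁻ y, ∫⁻ M, Φ (M + outer (y - app M f) f) ∂(stdGaussian (Mat D F))
        ∂(stdGaussian (EuclideanSpace ℝ D))
      = ∫⁻ M, Φ M ∂(stdGaussian (Mat D F)) := by
  rcases hf with hf | hf
  · have hadj : ∀ y (M : Mat D F), ⟪outerL (D := D) f y, M⟫ = ⟪y, appL f M⟫ :=
      fun y M => inner_outer y f M
    have hid : ∀ y : EuclideanSpace ℝ D, appL f (outerL (D := D) f y) = y := by
      intro y
      show app (outer y f) f = y
      rw [app_outer, real_inner_self_eq_norm_sq, hf]
      simp
    have := lintegral_reveal hadj hid hΦ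
    rw [← this]
    apply lintegral_congr
    intro y
    apply lintegral_congr
    intro M
    congr 1
    show M + outer (y - app M f) f = outer y f + (M - outer (app M f) f)
    rw [outer_sub_left]
    abel
  · subst hf
    simp

/-- Resampling with an affine substitution. -/
lemma lintegral_step_mat {f : F} (hf : ‖f‖ = 1 ∨ f = 0) {a : ℝ} (ha : 0 < a)
    (c : EuclideanSpace ℝ D) {Φ : Mat D F → ℝ≥0∞} (hΦ : Measurable Φ) :
    ∫⁻ y, (∫⁻ M, Φ (M + outer (a • y + c - app M f) f) ∂(stdGaussian (Mat D F))) *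
        ENNReal.ofReal (gwt a c y) ∂(stdGaussian (EuclideanSpace ℝ D))
      = ∫⁻ M, Φ M ∂(stdGaussian (Mat D F)) := by
  have hm : Measurable (fun y : EuclideanSpace ℝ D =>
      ∫⁻ M, Φ (M + outer (y - app M f) f) ∂(stdGaussian (Mat D F))) := by
    apply Measurable.lintegral_prod_right' (f := fun p : EuclideanSpace ℝ D × Mat D F =>
      Φ (p.2 + outer (p.1 - app p.2 f) f))
    apply hΦ.comp
    have h1 : Measurable (fun p : EuclideanSpace ℝ D × Mat D F => (p.2, f)) := by fun_prop
    have h2 : Measurable (fun p : EuclideanSpace ℝ D × Mat D F => app p.2 f) :=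
      (continuous_app (D := D) (F := F)).measurable.comp h1
    have h3 : Measurable (fun p : EuclideanSpace ℝ D × Mat D F => (p.1 - app p.2 f, f)) := by
      fun_prop
    have h4 : Measurable (fun p : EuclideanSpace ℝ D × Mat D F => outer (p.1 - app p.2 f) f) :=
      (continuous_outer (D := D) (F := F)).measurable.comp h3
    fun_prop
  rw [← lintegral_reveal_mat hf hΦ, lintegral_stdGaussian_affine ha c hm]

end mat

section moments

variable {V : Type*} [NormedAddCommGroup V] [InnerProductSpace ℝ V] [FiniteDimensional ℝ V]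
  [MeasurableSpace V] [BorelSpace V]

lemma lintegral_inner_sq (f : V) :
    ∫⁻ x, ENNReal.ofReal (⟪f, x⟫ ^ 2) ∂(stdGaussian V) = ENNReal.ofReal (‖f‖ ^ 2) := by
  have h1 := variance_dual_stdGaussian (E := V) (innerSL ℝ f)
  have hint : Integrable (fun x : V => ⟪f, x⟫ ^ 2) (stdGaussian V) := by
    have h := (IsGaussian.memLp_two_id (μ := stdGaussian V))
    have h2 : MemLp (fun x : V => ⟪f, x⟫) 2 (stdGaussian V) :=
      ((innerSL ℝ f).comp_memLp' h)
    exact h2.integrable_sq
  rw [← ofReal_integral_eq_lintegral_ofReal hint (Filter.Eventually.of_forall fun x => sq_nonneg _)]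
  congr 1
  rw [variance_of_integral_eq_zero] at h1
  · rw [innerSL_apply_norm] at h1
    rw [← h1]
    rfl
  · exact (innerSL ℝ f).continuous.aemeasurable
  · have := integral_strongDual_stdGaussian (E := V) (innerSL ℝ f)
    exact this

lemma lintegral_norm_sq :
    ∫⁻ x : V, ENNReal.ofReal (‖x‖ ^ 2) ∂(stdGaussian V) = finrank ℝ V := by
  have b := stdOrthonormalBasis ℝ V
  have h1 : ∀ x : V, ENNReal.ofReal (‖x‖ ^ 2)
      = ∑ i, ENNReal.ofReal (⟪stdOrthonormalBasis ℝ V i, x⟫ ^ 2) := by
    intro x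
    rw [← ENNReal.ofReal_sum_of_nonneg (fun i _ => sq_nonneg _)]
    congr 1
    exact ((stdOrthonormalBasis ℝ V).sum_sq_inner_right x).symm
  simp_rw [h1]
  rw [lintegral_finsetSum _ (fun i _ => by fun_prop)]
  simp_rw [lintegral_inner_sq]
  simp

lemma lintegral_exp_neg_norm_sq :
    ∫⁻ x : V, ENNReal.ofReal (Real.exp (-‖x‖ ^ 2)) ∂(stdGaussian V)
      = ENNReal.ofReal ((1 / 3) ^ ((finrank ℝ V : ℝ) / 2)) := by
  rw [stdGaussian_eq_withDensity, lintegral_withDensity_eq_lintegral_mul _
    measurable_gden.ennreal_ofReal (by fun_prop)]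
  simp only [Pi.mul_apply]
  have h1 : ∀ x : V, ENNReal.ofReal (gden x) * ENNReal.ofReal (Real.exp (-‖x‖ ^ 2))
      = ENNReal.ofReal ((2 * Real.pi) ^ (-(finrank ℝ V : ℝ) / 2) *
          Real.exp (-(3 / 2) * ‖x‖ ^ 2)) := by
    intro x
    rw [← ENNReal.ofReal_mul (gden_pos x).le, gden, mul_assoc, ← Real.exp_add]
    congr 3
    ring
  simp_rw [h1]
  have hint : Integrable (fun x : V => (2 * Real.pi) ^ (-(finrank ℝ V : ℝ) / 2) *
          Real.exp (-(3 / 2) * ‖x‖ ^ 2)) := by
    apply Integrable.const_mul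
    have h := GaussianFourier.integrable_cexp_neg_mul_sq_norm_add (V := V) (b := 3 / 2)
      (by norm_num) 0 0
    have h2 := h.re
    refine h2.congr (Filter.Eventually.of_forall fun x => ?_)
    simp only [zero_mul, add_zero]
    have : Complex.exp (-(3 / 2) * (‖x‖ : ℂ) ^ 2) = ((Real.exp (-(3 / 2) * ‖x‖ ^ 2) : ℝ) : ℂ) := by
      rw [Complex.ofReal_exp]
      congr 1
      push_cast
      ring
    rw [this, RCLike.re_to_complex, Complex.ofReal_re]
  rw [← ofReal_integral_eq_lintegral_ofReal hint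
    (Filter.Eventually.of_forall fun x => by have := Real.pi_pos; positivity)]
  congr 1
  rw [integral_const_mul, GaussianFourier.integral_rexp_neg_mul_sq_norm (by norm_num)]
  have hpi := Real.pi_pos
  rw [neg_div, Real.rpow_neg (by positivity), ← Real.inv_rpow (by positivity),
    ← Real.mul_rpow (by positivity) (by positivity)]
  congr 1
  field_simp

lemma measure_norm_sq_le :
    stdGaussian V {x | ‖x‖ ^ 2 ≤ 3 / 8 * (finrank ℝ V : ℝ)}
      ≤ ENNReal.ofReal (Real.exp (-(finrank ℝ V : ℝ) / 6)) := by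
  set d : ℝ := (finrank ℝ V : ℝ) with hd
  have h1 : ENNReal.ofReal (Real.exp (-(3 / 8 * d))) *
      stdGaussian V {x | ENNReal.ofReal (Real.exp (-(3 / 8 * d)))
        ≤ ENNReal.ofReal (Real.exp (-‖x‖ ^ 2))}
      ≤ ∫⁻ x : V, ENNReal.ofReal (Real.exp (-‖x‖ ^ 2)) ∂(stdGaussian V) :=
    mul_meas_ge_le_lintegral (by fun_prop) _
  rw [lintegral_exp_neg_norm_sq] at h1
  have hset : {x : V | ‖x‖ ^ 2 ≤ 3 / 8 * d} = {x : V | ENNReal.ofReal (Real.exp (-(3 / 8 * d)))
        ≤ ENNReal.ofReal (Real.exp (-‖x‖ ^ 2))} := by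
    ext x
    simp only [Set.mem_ofPred_eq]
    rw [ENNReal.ofReal_le_ofReal_iff (Real.exp_pos _).le, Real.exp_le_exp]
    constructor <;> intro h <;> linarith
  rw [hset]
  have hpos : ENNReal.ofReal (Real.exp (-(3 / 8 * d))) ≠ 0 := by
    simp [Real.exp_pos]
  rw [mul_comm] at h1
  rw [← ENNReal.le_div_iff_mul_le (Or.inl hpos) (Or.inl ENNReal.ofReal_ne_top),
    ← ENNReal.ofReal_div_of_pos (Real.exp_pos _)] at h1
  refine h1.trans (ENNReal.ofReal_le_ofReal ?_)
  rw [div_le_iff₀ (Real.exp_pos _), ← Real.exp_add]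
  have h3 : ((1 : ℝ) / 3) ^ (d / 2) = Real.exp (-(Real.log 3) * (d / 2)) := by
    rw [Real.rpow_def_of_pos (by norm_num)]
    congr 1
    rw [one_div, Real.log_inv]
  rw [h3, Real.exp_le_exp]
  have hlog : (13 : ℝ) / 12 ≤ Real.log 3 := by
    rw [Real.le_log_iff_exp_le (by norm_num)]
    have he := Real.exp_one_lt_d9
    have h12 : Real.exp (1 / 12) ≤ 1 / (1 - 1 / 12) := Real.exp_bound_div_one_sub_of_interval
      (by norm_num) (by norm_num)
    have : Real.exp (13 / 12) = Real.exp 1 * Real.exp (1 / 12) := by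
      rw [← Real.exp_add]; norm_num
    rw [this]
    have hp := Real.exp_pos (1 / 12)
    nlinarith
  have hd0 : 0 ≤ d := Nat.cast_nonneg _
  nlinarith

end moments

end Pool.Agent.Helper97.LB
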