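import Mathlib
import Pool.Agent.Helper97.LB.Gauss

/-!
# Sequential Gram-Schmidt with zero vectors allowed
-/

open Finset
open scoped RealInnerProductSpace

namespace Pool.Agent.Helper97.LB

variable {V X : Type*} [NormedAddCommGroup V] [InnerProductSpace ℝ V]
  [NormedAddCommGroup X] [InnerProductSpace ℝ X]

/-- linear combination with the coefficients of `u` -/
def comb (n : ℕ) (f : ℕ → V) (u : V) (y : ℕ → X) : X := ∑ i ∈ range n, ⟪f i, u⟫ • y i

/-- residual -/
def res (n : ℕ) (f : ℕ → V) (u : V) : V := u - comb n f u f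

/-- normalization -/
noncomputable def nrm (x : V) : V := ‖x‖⁻¹ • x

/-- orthogonal, each of norm one or zero -/
def ON (n : ℕ) (f : ℕ → V) : Prop :=
  (∀ i < n, ‖f i‖ = 1 ∨ f i = 0) ∧ ∀ i < n, ∀ j < n, i ≠ j → ⟪f i, f j⟫ = 0

lemma comb_succ (n : ℕ) (f : ℕ → V) (u : V) (y : ℕ → X) :
    comb (n + 1) f u y = comb n f u y + ⟪f n, u⟫ • y n := by
  unfold comb; rw [sum_range_succ]

lemma comb_congr {n : ℕ} {f f' : ℕ → V} {u u' : V} {y y' : ℕ → X} (hf : ∀ i < n, f i = f' i)
    (hu : u = u') (hy : ∀ i < n, y i = y' i) : comb n f u y = comb n f' u' y' := by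
  unfold comb
  apply Finset.sum_congr rfl
  intro i hi
  rw [mem_range] at hi
  rw [hf i hi, hy i hi, hu]

lemma res_congr {n : ℕ} {f f' : ℕ → V} {u u' : V} (hf : ∀ i < n, f i = f' i)
    (hu : u = u') : res n f u = res n f' u' := by
  unfold res
  rw [comb_congr hf hu hf, hu]

lemma comb_zero_vec (n : ℕ) (f : ℕ → V) (y : ℕ → X) : comb n f 0 y = 0 := by
  simp [comb]

lemma res_zero_vec (n : ℕ) (f : ℕ → V) : res n f 0 = 0 := by
  simp [res, comb_zero_vec]

lemma nrm_zero : nrm (0 : V) = 0 := by simp [nrm]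

lemma norm_nrm (x : V) (hx : x ≠ 0) : ‖nrm x‖ = 1 := by
  rw [nrm, norm_smul, norm_inv, norm_norm, inv_mul_cancel₀ (norm_ne_zero_iff.2 hx)]

lemma nrm_eq_zero {x : V} : nrm x = 0 ↔ x = 0 := by
  constructor
  · intro h
    by_contra hx
    have := norm_nrm x hx
    rw [h, norm_zero] at this
    exact zero_ne_one this
  · rintro rfl; exact nrm_zero

lemma norm_smul_nrm (x : V) : ‖x‖ • nrm x = x := by
  by_cases hx : x = 0
  · subst hx; simp
  · rw [nrm, smul_smul, mul_inv_cancel₀ (norm_ne_zero_iff.2 hx), one_smul]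

lemma ON.mono {n m : ℕ} {f : ℕ → V} (h : ON n f) (hm : m ≤ n) : ON m f :=
  ⟨fun i hi => h.1 i (by omega), fun i hi j hj => h.2 i (by omega) j (by omega)⟩

lemma ON.congr {n : ℕ} {f f' : ℕ → V} (h : ON n f) (hf : ∀ i < n, f i = f' i) : ON n f' :=
  ⟨fun i hi => by rw [← hf i hi]; exact h.1 i hi,
    fun i hi j hj hij => by rw [← hf i hi, ← hf j hj]; exact h.2 i hi j hj hij⟩

lemma ON.inner_self {n : ℕ} {f : ℕ → V} (h : ON n f) {i : ℕ} (hi : i < n) (u : V) :
    ⟪f i, u⟫ * ⟪f i, f i⟫ = ⟪f i, u⟫ := by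
  rcases h.1 i hi with h1 | h1
  · rw [real_inner_self_eq_norm_sq, h1]; ring
  · simp [h1]

lemma ON.inner_comb {n : ℕ} {f : ℕ → V} (h : ON n f) {i : ℕ} (hi : i < n) (u : V) :
    ⟪f i, comb n f u f⟫ = ⟪f i, u⟫ := by
  unfold comb
  rw [inner_sum, Finset.sum_eq_single i]
  · rw [real_inner_smul_right]
    exact h.inner_self hi u
  · intro j hj hji
    rw [mem_range] at hj
    rw [real_inner_smul_right, h.2 i hi j hj (Ne.symm hji), mul_zero]
  · intro hn
    exact absurd (mem_range.2 hi) hn

lemma ON.inner_res {n : ℕ} {f : ℕ → V} (h : ON n f) {i : ℕ} (hi : i < n) (u : V) :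
    ⟪f i, res n f u⟫ = 0 := by
  rw [res, inner_sub_right, h.inner_comb hi, sub_self]

lemma ON.succ {n : ℕ} {f : ℕ → V} (h : ON n f) {u : V} (hn : f n = nrm (res n f u)) :
    ON (n + 1) f := by
  have key : ∀ i < n, ⟪f i, f n⟫ = 0 := by
    intro i hi
    rw [hn, nrm, real_inner_smul_right, h.inner_res hi, mul_zero]
  refine ⟨fun i hi => ?_, fun i hi j hj hij => ?_⟩
  · rcases Nat.lt_succ_iff_lt_or_eq.1 hi with hi | hi
    · exact h.1 i hi
    · subst hi
      by_cases hr : res i f u = 0
      · right; rw [hn, hr, nrm_zero]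
      · left; rw [hn]; exact norm_nrm _ hr
  · rcases Nat.lt_succ_iff_lt_or_eq.1 hi with hi | hi
    · rcases Nat.lt_succ_iff_lt_or_eq.1 hj with hj | hj
      · exact h.2 i hi j hj hij
      · subst hj; exact key i hi
    · subst hi
      rcases Nat.lt_succ_iff_lt_or_eq.1 hj with hj | hj
      · rw [real_inner_comm]; exact key j hj
      · exact absurd hj.symm hij

lemma ON.inner_comb_res {n : ℕ} {f : ℕ → V} (h : ON n f) (u u' : V) :
    ⟪comb n f u' f, res n f u⟫ = 0 := by
  unfold comb
  rw [sum_inner]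
  apply Finset.sum_eq_zero
  intro i hi
  rw [mem_range] at hi
  rw [real_inner_smul_left, h.inner_res hi, mul_zero]

lemma ON.inner_self_res {n : ℕ} {f : ℕ → V} (h : ON n f) (u : V) :
    ⟪u, res n f u⟫ = ‖res n f u‖ ^ 2 := by
  have : u = comb n f u f + res n f u := by rw [res]; abel
  conv_lhs => rw [this]
  rw [inner_add_left]
  have e : ⟪comb n f u f, res n f (comb n f u f + res n f u)⟫ = 0 := h.inner_comb_res _ _
  rw [e, zero_add]
  have e2 : comb n f u f + res n f u = u := this.symm
  rw [e2, real_inner_self_eq_norm_sq]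

lemma ON.inner_nrm_res {n : ℕ} {f : ℕ → V} (h : ON n f) (u : V) :
    ⟪nrm (res n f u), u⟫ = ‖res n f u‖ := by
  rw [nrm, real_inner_smul_left, real_inner_comm, h.inner_self_res]
  by_cases hr : ‖res n f u‖ = 0
  · rw [hr]; simp
  · field_simp

lemma ON.expand {n : ℕ} {f : ℕ → V} (h : ON n f) {u : V} (hn : f n = nrm (res n f u)) :
    comb (n + 1) f u f = u := by
  rw [comb_succ, hn, h.inner_nrm_res, norm_smul_nrm, res]
  abel

lemma ON.norm_sq_comb {n : ℕ} {f : ℕ → V} (h : ON n f) (u : V) :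
    ‖comb n f u f‖ ^ 2 = ∑ i ∈ range n, ⟪f i, u⟫ ^ 2 := by
  rw [← real_inner_self_eq_norm_sq]
  conv_lhs => rw [comb, sum_inner]
  apply Finset.sum_congr rfl
  intro i hi
  rw [mem_range] at hi
  have : ∑ i ∈ range n, ⟪f i, u⟫ • f i = comb n f u f := rfl
  rw [this, real_inner_smul_left, h.inner_comb hi, sq]

lemma ON.norm_sq_res {n : ℕ} {f : ℕ → V} (h : ON n f) (u : V) :
    ‖res n f u‖ ^ 2 = ‖u‖ ^ 2 - ∑ i ∈ range n, ⟪f i, u⟫ ^ 2 := by
  have e1 : u = comb n f u f + res n f u := by rw [res]; abel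
  have e2 : ‖u‖ ^ 2 = ‖comb n f u f‖ ^ 2 + ‖res n f u‖ ^ 2 := by
    conv_lhs => rw [e1]
    rw [norm_add_sq_real, h.inner_comb_res]
    ring
  rw [e2, h.norm_sq_comb]
  ring

/-- the combination of a family which is the image of `f` at the nonzero members -/
lemma comb_map {n : ℕ} {f : ℕ → V} {u : V} {y : ℕ → X} (A : V →ₗ[ℝ] X)
    (hA : ∀ i < n, f i ≠ 0 → A (f i) = y i) : comb n f u y = A (comb n f u f) := by
  unfold comb
  rw [map_sum]
  apply Finset.sum_congr rfl
  intro i hi
  rw [mem_range] at hi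
  rw [map_smul]
  by_cases h0 : f i = 0
  · simp [h0]
  · rw [hA i hi h0]

lemma comb_linear {n : ℕ} {f : ℕ → V} {u : V} {Y : Type*} [NormedAddCommGroup Y]
    [InnerProductSpace ℝ Y] {y : ℕ → X} (A : X →ₗ[ℝ] Y) :
    A (comb n f u y) = comb n f u (fun i => A (y i)) := by
  unfold comb
  rw [map_sum]
  apply Finset.sum_congr rfl
  intro i _
  rw [map_smul]

lemma comb_add {n : ℕ} {f : ℕ → V} {u : V} {y z : ℕ → X} :
    comb n f u (fun i => y i + z i) = comb n f u y + comb n f u z := by
  unfold comb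
  rw [← Finset.sum_add_distrib]
  apply Finset.sum_congr rfl
  intro i _
  rw [smul_add]

lemma comb_smul {n : ℕ} {f : ℕ → V} {u : V} {y : ℕ → X} (c : ℝ) :
    comb n f u (fun i => c • y i) = c • comb n f u y := by
  unfold comb
  rw [Finset.smul_sum]
  apply Finset.sum_congr rfl
  intro i _
  rw [smul_comm]

lemma norm_comb_sq_le (n : ℕ) (f : ℕ → V) (u : V) (y : ℕ → X) :
    ‖comb n f u y‖ ^ 2 ≤ (∑ i ∈ range n, ⟪f i, u⟫ ^ 2) * ∑ i ∈ range n, ‖y i‖ ^ 2 := by
  have h1 : ‖comb n f u y‖ ≤ ∑ i ∈ range n, |⟪f i, u⟫| * ‖y i‖ := by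
    unfold comb
    refine (norm_sum_le _ _).trans (le_of_eq ?_)
    apply Finset.sum_congr rfl
    intro i _
    rw [norm_smul, Real.norm_eq_abs]
  have h2 := Finset.sum_mul_sq_le_sq_mul_sq (range n) (fun i => |⟪f i, u⟫|) (fun i => ‖y i‖)
  simp only [sq_abs] at h2
  exact (pow_le_pow_left₀ (norm_nonneg _) h1 2).trans h2

section mix

variable {D : Type*} [Fintype D]

/-- resample the values of `M` at the `f i` to be the `y i` -/
noncomputable def mix (n : ℕ) (f : ℕ → V) (y : ℕ → EuclideanSpace ℝ D) (M : Mat D V) : Mat D V :=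
  M + ∑ i ∈ range n, outer (y i - app M (f i)) (f i)

omit [Fintype D] in
lemma mix_zero (f : ℕ → V) (y : ℕ → EuclideanSpace ℝ D) (M : Mat D V) : mix 0 f y M = M := by
  simp [mix]

omit [Fintype D] in
lemma mix_congr {n : ℕ} {f f' : ℕ → V} {y y' : ℕ → EuclideanSpace ℝ D} {M : Mat D V}
    (hf : ∀ i < n, f i = f' i) (hy : ∀ i < n, y i = y' i) : mix n f y M = mix n f' y' M := by
  unfold mix
  congr 1
  apply Finset.sum_congr rfl
  intro i hi
  rw [mem_range] at hi
  rw [hf i hi, hy i hi]

omit [Fintype D] in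
lemma app_mix {n : ℕ} {f : ℕ → V} (h : ON n f) (y : ℕ → EuclideanSpace ℝ D) (M : Mat D V) {i : ℕ}
    (hi : i < n) (h0 : f i ≠ 0) : app (mix n f y M) (f i) = y i := by
  unfold mix
  rw [app_add_left, app_sum_left, Finset.sum_eq_single i]
  · rw [app_outer]
    rcases h.1 i hi with h1 | h1
    · rw [real_inner_self_eq_norm_sq, h1]
      simp
    · exact absurd h1 h0
  · intro j hj hji
    rw [mem_range] at hj
    rw [app_outer, h.2 j hj i hi hji, zero_smul]
  · intro hn
    exact absurd (mem_range.2 hi) hn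

omit [Fintype D] in
lemma mix_succ {n : ℕ} {f : ℕ → V} (h : ON (n + 1) f) (y : ℕ → EuclideanSpace ℝ D) (M : Mat D V) :
    mix (n + 1) f y M = mix n f y (M + outer (y n - app M (f n)) (f n)) := by
  unfold mix
  rw [sum_range_succ]
  have e : ∀ i ∈ range n, outer (y i - app (M + outer (y n - app M (f n)) (f n)) (f i)) (f i)
      = outer (y i - app M (f i)) (f i) := by
    intro i hi
    rw [mem_range] at hi
    rw [app_add_left, app_outer, h.2 n (by omega) i (by omega) (by omega), zero_smul, add_zero]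
  rw [Finset.sum_congr rfl e]
  abel

end mix

section cov

/-- course-of-values recursion: the first `k` values -/
def covAux {T : Type*} [Zero T] (F : ℕ → (ℕ → T) → T) : ℕ → ℕ → T
  | 0 => fun _ => 0
  | k + 1 => Function.update (covAux F k) k (F k (covAux F k))

/-- course-of-values recursion -/
def cov {T : Type*} [Zero T] (F : ℕ → (ℕ → T) → T) (k : ℕ) : T := covAux F (k + 1) k

lemma covAux_eq {T : Type*} [Zero T] (F : ℕ → (ℕ → T) → T) {k i : ℕ} (hi : i < k) :
    covAux F k i = cov F i := by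
  induction k with
  | zero => omega
  | succ k ih =>
    by_cases h : i = k
    · subst h; rfl
    · rw [covAux, Function.update_of_ne h]
      exact ih (by omega)

lemma cov_eq {T : Type*} [Zero T] {F : ℕ → (ℕ → T) → T}
    (hF : ∀ k g g', (∀ i < k, g i = g' i) → F k g = F k g') (k : ℕ) :
    cov F k = F k (cov F) := by
  have : cov F k = F k (covAux F k) := by
    rw [cov, covAux, Function.update_self]
  rw [this]
  exact hF k _ _ fun i hi => covAux_eq F hi

lemma cov_congr {T : Type*} [Zero T] {F F' : ℕ → (ℕ → T) → T}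
    (hF : ∀ k g g', (∀ i < k, g i = g' i) → F k g = F k g')
    (hF' : ∀ k g g', (∀ i < k, g i = g' i) → F' k g = F' k g')
    {n : ℕ} (h : ∀ k < n, ∀ g, F k g = F' k g) : ∀ k < n, cov F k = cov F' k := by
  intro k
  induction k using Nat.strong_induction_on with
  | _ k ih =>
    intro hk
    rw [cov_eq hF, cov_eq hF', h k hk]
    exact hF' k _ _ fun i hi => ih i hi (by omega)

lemma measurable_cov {T Ω : Type*} [Zero T] [MeasurableSpace T] [MeasurableSpace Ω]
    {F : Ω → ℕ → (ℕ → T) → T} (h : ∀ k, Measurable (fun q : Ω × (ℕ → T) => F q.1 k q.2)) (k : ℕ) :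
    Measurable (fun ω => cov (F ω) k) := by
  have h1 : ∀ k, Measurable (fun ω => covAux (F ω) k) := by
    intro k
    induction k with
    | zero => exact measurable_const
    | succ k ih =>
      exact measurable_update'.comp (ih.prodMk ((h k).comp (measurable_id.prodMk ih)))
  exact (measurable_pi_apply k).comp (h1 (k + 1))

end cov

/-- sequential Gram-Schmidt -/
noncomputable def gs (w : ℕ → V) : ℕ → V := cov (T := V) (fun k g => nrm (res k g (w k)))

lemma gs_eq (w : ℕ → V) (k : ℕ) : gs w k = nrm (res k (gs w) (w k)) := by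
  apply cov_eq
  intro k g g' h
  rw [res_congr h rfl]

lemma gs_ON (w : ℕ → V) (n : ℕ) : ON n (gs w) := by
  induction n with
  | zero => exact ⟨fun i hi => absurd hi (Nat.not_lt_zero _), fun i hi => absurd hi (Nat.not_lt_zero _)⟩
  | succ n ih => exact ih.succ (gs_eq w n)

lemma gs_congr {w w' : ℕ → V} {n : ℕ} (h : ∀ i < n, w i = w' i) : ∀ i < n, gs w i = gs w' i := by
  apply cov_congr
  · intro k g g' h
    rw [res_congr h rfl]
  · intro k g g' h
    rw [res_congr h rfl]
  · intro k hk g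
    rw [h k hk]

section measurability

variable [MeasurableSpace V] [BorelSpace V] [SecondCountableTopology V]
  [MeasurableSpace X] [BorelSpace X] [SecondCountableTopology X]
  {Ω : Type*} [MeasurableSpace Ω]

lemma measurable_comb {n : ℕ} {f : Ω → ℕ → V} {u : Ω → V} {y : Ω → ℕ → X} (hf : Measurable f)
    (hu : Measurable u) (hy : Measurable y) : Measurable (fun ω => comb n (f ω) (u ω) (y ω)) := by
  unfold comb
  apply Finset.measurable_sum
  intro i _
  exact (((measurable_pi_apply i).comp hf).inner hu).smul ((measurable_pi_apply i).comp hy)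

lemma measurable_res {n : ℕ} {f : Ω → ℕ → V} {u : Ω → V} (hf : Measurable f)
    (hu : Measurable u) : Measurable (fun ω => res n (f ω) (u ω)) :=
  hu.sub (measurable_comb hf hu hf)

lemma measurable_nrm {u : Ω → V} (hu : Measurable u) : Measurable (fun ω => nrm (u ω)) := by
  unfold nrm
  exact (hu.norm.inv).smul hu

lemma measurable_gs {w : Ω → ℕ → V} (hw : Measurable w) : Measurable (fun ω => gs (w ω)) := by
  apply measurable_pi_lambda
  intro k
  apply measurable_cov (F := fun ω k g => nrm (res k g (w ω k)))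
  intro k
  apply measurable_nrm
  exact measurable_res measurable_snd ((measurable_pi_apply k).comp (hw.comp measurable_fst))

omit [SecondCountableTopology V] in
lemma measurable_app {D : Type*} [Fintype D] [FiniteDimensional ℝ V] {M : Ω → Mat D V} {b : Ω → V} (hM : Measurable M)
    (hb : Measurable b) : Measurable (fun ω => app (M ω) (b ω)) :=
  (continuous_app (D := D) (F := V)).measurable.comp (hM.prodMk hb)

omit [SecondCountableTopology V] in
lemma measurable_outer {D : Type*} [Fintype D] [FiniteDimensional ℝ V] {y : Ω → EuclideanSpace ℝ D} {b : Ω → V}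
    (hy : Measurable y) (hb : Measurable b) : Measurable (fun ω => outer (y ω) (b ω)) :=
  (continuous_outer (D := D) (F := V)).measurable.comp (hy.prodMk hb)

omit [SecondCountableTopology V] in
lemma measurable_mix {D : Type*} [Fintype D] [FiniteDimensional ℝ V] {n : ℕ} {f : Ω → ℕ → V}
    {y : Ω → ℕ → EuclideanSpace ℝ D} {M : Ω → Mat D V} (hf : Measurable f) (hy : Measurable y)
    (hM : Measurable M) : Measurable (fun ω => mix n (f ω) (y ω) (M ω)) := by
  unfold mix
  apply hM.add
  apply Finset.measurable_sum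
  intro i _
  have h1 : Measurable (fun ω => f ω i) := (measurable_pi_apply i).comp hf
  exact measurable_outer (((measurable_pi_apply i).comp hy).sub (measurable_app hM h1)) h1

end measurability

end Pool.Agent.Helper97.LB
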