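import Mathlib

/-!
# Random signed cycles with one weak link
-/

open Finset
open scoped RealInnerProductSpace

namespace Pool.Agent.Helper97.LB

variable {p : ℕ}

/-- the plaintext space -/
abbrev Pl (p : ℕ) : Type := EuclideanSpace ℝ (ZMod p)

/-- the parameters of a signed cycle: signs, step and position of the weak link -/
abbrev Par (p : ℕ) : Type := (ZMod p → ℤˣ) × (ZMod p)ˣ × ZMod p

/-- sign as a real number -/
def sg (s : ZMod p → ℤˣ) (i : ZMod p) : ℝ := ((s i : ℤ) : ℝ)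

lemma sg_mul_self (s : ZMod p → ℤˣ) (i : ZMod p) : sg s i * sg s i = 1 := by
  unfold sg
  rcases Int.units_eq_one_or (s i) with h | h <;> simp [h]

lemma sg_sq (s : ZMod p → ℤˣ) (i : ZMod p) : sg s i ^ 2 = 1 := by
  rw [sq, sg_mul_self]

/-- the weight of the link leaving `i` -/
def lw (η : ℝ) (j i : ZMod p) : ℝ := if i = j then η else 1

/-- the weight of the path of length `k` starting at `i` -/
def pw (η : ℝ) (c j : ZMod p) (k : ℕ) (i : ZMod p) : ℝ :=
  ∏ t ∈ range k, lw η j (i + t * c)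

lemma lw_nonneg {η : ℝ} (h0 : 0 ≤ η) (j i : ZMod p) : 0 ≤ lw η j i := by
  unfold lw; split_ifs <;> linarith
lemma lw_le_one {η : ℝ} (h1 : η ≤ 1) (j i : ZMod p) : lw η j i ≤ 1 := by
  unfold lw; split_ifs <;> linarith
lemma pw_nonneg {η : ℝ} (h0 : 0 ≤ η) (c j : ZMod p) (k : ℕ) (i : ZMod p) : 0 ≤ pw η c j k i :=
  Finset.prod_nonneg fun _ _ => lw_nonneg h0 _ _
lemma pw_le_one {η : ℝ} (h0 : 0 ≤ η) (h1 : η ≤ 1) (c j : ZMod p) (k : ℕ) (i : ZMod p) :
    pw η c j k i ≤ 1 :=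
  Finset.prod_le_one (fun _ _ => lw_nonneg h0 _ _) (fun _ _ => lw_le_one h1 _ _)
lemma pw_eq_one {η : ℝ} {c j : ZMod p} {k : ℕ} {i : ZMod p} (h : ∀ t < k, i + t * c ≠ j) :
    pw η c j k i = 1 := by
  unfold pw
  apply Finset.prod_eq_one
  intro t ht
  rw [mem_range] at ht
  simp [lw, h t ht]

/-- The signed cycle with one link of weight `η`, as a linear map. -/
def cyc (η : ℝ) (w : Par p) : Pl p →ₗ[ℝ] Pl p where
  toFun σ := WithLp.toLp 2 fun x =>
    lw η w.2.2 (x - w.2.1) * (sg w.1 x * sg w.1 (x - w.2.1)) * σ (x - w.2.1)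
  map_add' σ τ := by ext x; simp [mul_add]
  map_smul' r σ := by ext x; simp; ring

lemma cyc_apply (η : ℝ) (w : Par p) (σ : Pl p) (x : ZMod p) :
    cyc η w σ x = lw η w.2.2 (x - w.2.1) * (sg w.1 x * sg w.1 (x - w.2.1)) * σ (x - w.2.1) := rfl

lemma cyc_pow_apply (η : ℝ) (w : Par p) (k : ℕ) (σ : Pl p) (x : ZMod p) :
    (cyc η w ^ k) σ x = pw η w.2.1 w.2.2 k (x - k * w.2.1) *
      (sg w.1 x * sg w.1 (x - k * w.2.1)) * σ (x - k * w.2.1) := by
  induction k generalizing x with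
  | zero =>
    simp [pw, sg_mul_self]
  | succ k ih =>
    rw [pow_succ', Module.End.mul_apply, cyc_apply, ih]
    have e1 : x - (w.2.1 : ZMod p) - k * w.2.1 = x - ((k + 1 : ℕ) : ZMod p) * w.2.1 := by
      push_cast; ring
    rw [e1]
    have e2 : pw η w.2.1 w.2.2 (k + 1) (x - ((k + 1 : ℕ) : ZMod p) * w.2.1)
        = pw η w.2.1 w.2.2 k (x - ((k + 1 : ℕ) : ZMod p) * w.2.1) * lw η w.2.2 (x - w.2.1) := by
      unfold pw
      rw [prod_range_succ]
      congr 2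
      push_cast
      ring
    rw [e2]
    have h := sg_mul_self w.1 (x - w.2.1)
    linear_combination (lw η w.2.2 (x - w.2.1) * pw η w.2.1 w.2.2 k (x - ((k + 1 : ℕ) : ZMod p) * w.2.1)
      * sg w.1 x * sg w.1 (x - ((k + 1 : ℕ) : ZMod p) * w.2.1)
      * σ (x - ((k + 1 : ℕ) : ZMod p) * w.2.1)) * h

variable [NeZero p]

lemma norm_cyc_pow_le {η : ℝ} (h0 : 0 ≤ η) (h1 : η ≤ 1) (w : Par p) (k : ℕ) (σ : Pl p) :
    ‖(cyc η w ^ k) σ‖ ≤ ‖σ‖ := by
  have h : ‖(cyc η w ^ k) σ‖ ^ 2 ≤ ‖σ‖ ^ 2 := by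
    rw [EuclideanSpace.norm_sq_eq, EuclideanSpace.norm_sq_eq]
    have e : ∑ i, ‖σ i‖ ^ 2 = ∑ i, ‖σ (i - k * w.2.1)‖ ^ 2 :=
      (Equiv.sum_comp (Equiv.subRight ((k : ZMod p) * w.2.1)) (fun i => ‖σ i‖ ^ 2)).symm
    rw [e]
    apply Finset.sum_le_sum
    intro x _
    rw [cyc_pow_apply]
    have h3 : ‖pw η w.2.1 w.2.2 k (x - k * w.2.1) *
      (sg w.1 x * sg w.1 (x - k * w.2.1)) * σ (x - k * w.2.1)‖ ^ 2
        = pw η w.2.1 w.2.2 k (x - k * w.2.1) ^ 2 * ‖σ (x - k * w.2.1)‖ ^ 2 := by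
      rw [Real.norm_eq_abs, Real.norm_eq_abs, sq_abs, sq_abs]
      have a1 := sg_sq w.1 x
      have a2 := sg_sq w.1 (x - k * w.2.1)
      calc _ = pw η w.2.1 w.2.2 k (x - k * w.2.1) ^ 2 * (sg w.1 x ^ 2) *
            (sg w.1 (x - k * w.2.1) ^ 2) * σ (x - k * w.2.1) ^ 2 := by ring
        _ = _ := by rw [a1, a2]; ring
    rw [h3]
    have a3 := pw_nonneg h0 (w.2.1 : ZMod p) w.2.2 k (x - k * w.2.1)
    have a4 := pw_le_one h0 h1 (w.2.1 : ZMod p) w.2.2 k (x - k * w.2.1)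
    have : pw η w.2.1 w.2.2 k (x - k * w.2.1) ^ 2 ≤ 1 := by nlinarith
    nlinarith [sq_nonneg ‖σ (x - k * w.2.1)‖]
  exact le_of_sq_le_sq h (norm_nonneg _)

/-- inner products of images under powers of the signed cycle -/
lemma inner_cyc_pow (η : ℝ) (w : Par p) (a h : ℕ) (σ τ : Pl p) :
    ⟪(cyc η w ^ a) σ, (cyc η w ^ (a + h)) τ⟫ =
      ∑ i, (pw η w.2.1 w.2.2 a (i + h * w.2.1) * pw η w.2.1 w.2.2 (a + h) i *
        (σ (i + h * w.2.1) * τ i)) * (sg w.1 (i + h * w.2.1) * sg w.1 i) := by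
  rw [PiLp.inner_apply]
  rw [← Equiv.sum_comp (Equiv.addRight (((a + h : ℕ) : ZMod p) * w.2.1))]
  apply Finset.sum_congr rfl
  intro i _
  simp only [Equiv.coe_addRight]
  rw [cyc_pow_apply, cyc_pow_apply]
  have e1 : i + ((a + h : ℕ) : ZMod p) * w.2.1 - (a : ZMod p) * w.2.1 = i + h * w.2.1 := by
    push_cast; ring
  have e2 : i + ((a + h : ℕ) : ZMod p) * w.2.1 - ((a + h : ℕ) : ZMod p) * w.2.1 = i := by ring
  rw [e1, e2]
  simp only [RCLike.inner_apply, conj_trivial]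
  have hs := sg_mul_self w.1 (i + ((a + h : ℕ) : ZMod p) * w.2.1)
  linear_combination (pw η w.2.1 w.2.2 a (i + h * w.2.1) * pw η w.2.1 w.2.2 (a + h) i *
        (σ (i + h * w.2.1) * τ i) * (sg w.1 (i + h * w.2.1) * sg w.1 i)) * hs

omit [NeZero p] in
/-- flipping the sign at `x` -/
lemma sg_flip (s : ZMod p → ℤˣ) (x i : ZMod p) :
    sg (s * Pi.mulSingle x (-1)) i = if i = x then - sg s i else sg s i := by
  unfold sg
  by_cases h : i = x
  · subst h; simp
  · simp [h]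

lemma sum_sign_eq_zero (x : ZMod p) (F : (ZMod p → ℤˣ) → ℝ)
    (hF : ∀ s, F (s * Pi.mulSingle x (-1)) = - F s) : ∑ s, F s = 0 := by
  have h := Equiv.sum_comp (Equiv.mulRight (Pi.mulSingle x (-1) : ZMod p → ℤˣ)) F
  simp only [Equiv.coe_mulRight, hF, Finset.sum_neg_distrib] at h
  linarith

lemma sum_sign_sq (d : ZMod p) (hd : d ≠ 0) (h2d : 2 * d ≠ 0) (a : ZMod p → ℝ) :
    ∑ s : ZMod p → ℤˣ, (∑ i, a i * (sg s (i + d) * sg s i)) ^ 2
      = Fintype.card (ZMod p → ℤˣ) * ∑ i, a i ^ 2 := by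
  have h1 : ∀ s : ZMod p → ℤˣ, (∑ i, a i * (sg s (i + d) * sg s i)) ^ 2
      = ∑ i, ∑ i', a i * a i' * (sg s (i + d) * sg s i * sg s (i' + d) * sg s i') := by
    intro s
    rw [sq, Finset.sum_mul_sum]
    apply Finset.sum_congr rfl; intro i _
    apply Finset.sum_congr rfl; intro i' _
    ring
  simp_rw [h1]
  rw [Finset.sum_comm, Finset.mul_sum]
  apply Finset.sum_congr rfl
  intro i _
  rw [Finset.sum_comm]
  rw [Finset.sum_eq_single i]
  · have h2 : ∀ s : ZMod p → ℤˣ, a i * a i * (sg s (i + d) * sg s i * sg s (i + d) * sg s i)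
        = a i ^ 2 := by
      intro s
      have h3 := sg_mul_self s i
      have h4 := sg_mul_self s (i + d)
      calc _ = a i ^ 2 * (sg s i * sg s i) * (sg s (i + d) * sg s (i + d)) := by ring
        _ = _ := by rw [h3, h4]; ring
    simp_rw [h2]
    simp
  · intro i' _ hne
    rw [← Finset.mul_sum]
    have hd1 : i + d ≠ i := by simpa using hd
    have hd2 : i' + d ≠ i' := by simpa using hd
    have hz : ∑ s : ZMod p → ℤˣ, (sg s (i + d) * sg s i * sg s (i' + d) * sg s i') = 0 := by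
      by_cases hc : i' + d = i
      · -- the index `i + d` appears once
        apply sum_sign_eq_zero (i + d)
        intro s
        have e2 : i ≠ i + d := hd1.symm
        have e3 : i' + d ≠ i + d := by simpa using hne
        have e4 : i' ≠ i + d := by
          intro h
          rw [h] at hc
          apply h2d
          have : i + d + d = i := hc
          linear_combination this
        rw [sg_flip, sg_flip, sg_flip, sg_flip]
        simp only [if_true, e2, e3, e4, if_false]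
        ring
      · apply sum_sign_eq_zero i
        intro s
        rw [sg_flip, sg_flip, sg_flip, sg_flip]
        simp only [hd1, hc, hne, if_true, if_false]
        ring
    rw [hz, mul_zero]
  · simp
section moments

variable [Fact p.Prime]

/-- second moment, different powers -/
lemma moment_ne {η : ℝ} (h0 : 0 ≤ η) (h1 : η ≤ 1) (hp2 : p ≠ 2) (a h : ℕ) (hh : 0 < h) (hhp : h < p)
    (σ τ : Pl p) :
    ∑ w : Par p, ⟪(cyc η w ^ a) σ, (cyc η w ^ (a + h)) τ⟫ ^ 2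
      ≤ Fintype.card (ZMod p → ℤˣ) * p * (‖σ‖ ^ 2 * ‖τ‖ ^ 2) := by
  rw [Fintype.sum_prod_type_right]
  have hcp : Nat.Prime p := Fact.out
  have hh0 : (h : ZMod p) ≠ 0 := by
    intro h'
    rw [ZMod.natCast_eq_zero_iff] at h'
    exact absurd (Nat.le_of_dvd hh h') (by omega)
  have h20 : (2 : ZMod p) ≠ 0 := by
    have : ((2 : ℕ) : ZMod p) ≠ 0 := by
      intro h'
      rw [ZMod.natCast_eq_zero_iff] at h'
      have := Nat.le_of_dvd (by norm_num) h'
      have := hcp.two_le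
      omega
    simpa using this
  have key : ∀ cj : (ZMod p)ˣ × ZMod p,
      ∑ s : ZMod p → ℤˣ, ⟪(cyc η (s, cj) ^ a) σ, (cyc η (s, cj) ^ (a + h)) τ⟫ ^ 2
        ≤ Fintype.card (ZMod p → ℤˣ) * ∑ i, σ (i + h * cj.1) ^ 2 * τ i ^ 2 := by
    intro cj
    simp_rw [inner_cyc_pow]
    rw [sum_sign_sq ((h : ZMod p) * (cj.1 : ZMod p)) (mul_ne_zero hh0 cj.1.ne_zero)
      (mul_ne_zero h20 (mul_ne_zero hh0 cj.1.ne_zero))]
    apply mul_le_mul_of_nonneg_left _ (Nat.cast_nonneg _)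
    apply Finset.sum_le_sum
    intro i _
    have a1 := pw_nonneg h0 (cj.1 : ZMod p) cj.2 a (i + (h : ZMod p) * (cj.1 : ZMod p))
    have a2 := pw_le_one h0 h1 (cj.1 : ZMod p) cj.2 a (i + (h : ZMod p) * (cj.1 : ZMod p))
    have a3 := pw_nonneg h0 (cj.1 : ZMod p) cj.2 (a + h) i
    have a4 := pw_le_one h0 h1 (cj.1 : ZMod p) cj.2 (a + h) i
    have a5 : (pw η (cj.1 : ZMod p) cj.2 a (i + (h : ZMod p) * (cj.1 : ZMod p)) * pw η (cj.1 : ZMod p) cj.2 (a + h) i) ^ 2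
        ≤ 1 := by
      have : pw η (cj.1 : ZMod p) cj.2 a (i + (h : ZMod p) * (cj.1 : ZMod p)) * pw η (cj.1 : ZMod p) cj.2 (a + h) i ≤ 1 :=
        mul_le_one₀ a2 a3 a4
      have h0' := mul_nonneg a1 a3
      nlinarith
    rw [mul_pow, mul_pow (σ _)]
    have : 0 ≤ σ (i + (h : ZMod p) * (cj.1 : ZMod p)) ^ 2 * τ i ^ 2 := by positivity
    nlinarith
  refine (Finset.sum_le_sum fun cj _ => key cj).trans ?_
  rw [← Finset.mul_sum, mul_assoc]
  apply mul_le_mul_of_nonneg_left _ (Nat.cast_nonneg _)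
  rw [Fintype.sum_prod_type_right]
  simp only [Finset.sum_const, Finset.card_univ, ZMod.card, nsmul_eq_mul]
  apply mul_le_mul_of_nonneg_left _ (Nat.cast_nonneg _)
  rw [Finset.sum_comm]
  have h3 : ∀ i : ZMod p, ∑ c : (ZMod p)ˣ, σ (i + h * c) ^ 2 * τ i ^ 2 ≤ ‖σ‖ ^ 2 * τ i ^ 2 := by
    intro i
    rw [← Finset.sum_mul]
    apply mul_le_mul_of_nonneg_right _ (sq_nonneg _)
    rw [EuclideanSpace.norm_sq_eq]
    have hinj : Function.Injective (fun c : (ZMod p)ˣ => i + h * (c : ZMod p)) := by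
      intro c c' hcc
      simp only [add_right_inj] at hcc
      exact Units.ext (mul_left_cancel₀ hh0 hcc)
    calc ∑ c : (ZMod p)ˣ, σ (i + h * c) ^ 2
        = ∑ x ∈ (Finset.univ : Finset (ZMod p)ˣ).map ⟨_, hinj⟩, σ x ^ 2 := by
          rw [Finset.sum_map]; rfl
      _ ≤ ∑ x, σ x ^ 2 :=
          Finset.sum_le_univ_sum_of_nonneg (fun _ => sq_nonneg _)
      _ = ∑ x, ‖σ x‖ ^ 2 := by simp
  refine (Finset.sum_le_sum fun i _ => h3 i).trans ?_
  rw [← Finset.mul_sum, EuclideanSpace.norm_sq_eq τ]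
  simp

/-- second moment, equal powers -/
lemma moment_eq {η : ℝ} (h0 : 0 ≤ η) (h1 : η ≤ 1) (a : ℕ) (σ τ : Pl p) :
    ∑ w : Par p, (⟪(cyc η w ^ a) σ, (cyc η w ^ a) τ⟫ - ⟪σ, τ⟫) ^ 2
      ≤ Fintype.card (ZMod p → ℤˣ) * (Fintype.card (ZMod p)ˣ) * a ^ 2 * (‖σ‖ ^ 2 * ‖τ‖ ^ 2) := by
  have key : ∀ w : Par p, (⟪(cyc η w ^ a) σ, (cyc η w ^ a) τ⟫ - ⟪σ, τ⟫) ^ 2
      ≤ a * ∑ t ∈ range a, (σ (w.2.2 - t * w.2.1) * τ (w.2.2 - t * w.2.1)) ^ 2 := by
    intro w
    have e1 : ⟪(cyc η w ^ a) σ, (cyc η w ^ a) τ⟫ - ⟪σ, τ⟫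
        = ∑ i, (pw η w.2.1 w.2.2 a i ^ 2 - 1) * (σ i * τ i) := by
      have := inner_cyc_pow η w a 0 σ τ
      rw [add_zero] at this
      rw [this, PiLp.inner_apply, ← Finset.sum_sub_distrib]
      apply Finset.sum_congr rfl
      intro i _
      simp only [Nat.cast_zero, zero_mul, add_zero, RCLike.inner_apply, conj_trivial]
      have hs := sg_mul_self w.1 i
      rw [hs]
      ring
    have e2 : |⟪(cyc η w ^ a) σ, (cyc η w ^ a) τ⟫ - ⟪σ, τ⟫|
        ≤ ∑ t ∈ range a, |σ (w.2.2 - t * w.2.1) * τ (w.2.2 - t * w.2.1)| := by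
      rw [e1]
      have h3 : ∀ i : ZMod p, |(pw η w.2.1 w.2.2 a i ^ 2 - 1) * (σ i * τ i)|
          ≤ ∑ t ∈ range a, if i + t * w.2.1 = w.2.2 then |σ i * τ i| else 0 := by
        intro i
        rw [abs_mul]
        by_cases hit : ∀ t < a, i + (t : ZMod p) * w.2.1 ≠ w.2.2
        · rw [pw_eq_one hit]
          simp only [one_pow, sub_self, abs_zero, zero_mul]
          apply Finset.sum_nonneg
          intro t _
          split_ifs
          · exact abs_nonneg _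
          · exact le_rfl
        · push Not at hit
          obtain ⟨t, ht, hit⟩ := hit
          have a3 := pw_nonneg h0 (w.2.1 : ZMod p) w.2.2 a i
          have a4 := pw_le_one h0 h1 (w.2.1 : ZMod p) w.2.2 a i
          have a5 : |pw η w.2.1 w.2.2 a i ^ 2 - 1| ≤ 1 := by
            rw [abs_le]
            constructor <;> nlinarith
          have a6 : |σ i * τ i| ≤ ∑ t ∈ range a, if i + t * w.2.1 = w.2.2 then |σ i * τ i| else 0 := by
            have := Finset.single_le_sum (f := fun t : ℕ => if i + (t : ZMod p) * w.2.1 = w.2.2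
              then |σ i * τ i| else 0) (s := range a) (fun t _ => by
                dsimp only
                split_ifs
                · exact abs_nonneg _
                · exact le_rfl) (mem_range.2 ht)
            simpa [hit] using this
          calc _ ≤ 1 * |σ i * τ i| := mul_le_mul_of_nonneg_right a5 (abs_nonneg _)
            _ ≤ _ := by rw [one_mul]; exact a6
      refine (Finset.abs_sum_le_sum_abs _ _).trans ((Finset.sum_le_sum fun i _ => h3 i).trans ?_)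
      rw [Finset.sum_comm]
      apply Finset.sum_le_sum
      intro t _
      have h4 : ∀ i : ZMod p, (i + (t : ZMod p) * w.2.1 = w.2.2) ↔ (i = w.2.2 - t * w.2.1) := by
        intro i
        constructor
        · intro h; rw [← h]; ring
        · intro h; rw [h]; ring
      simp_rw [h4]
      simp
    have e3 := sq_le_sq' (by linarith [neg_abs_le (⟪(cyc η w ^ a) σ, (cyc η w ^ a) τ⟫ - ⟪σ, τ⟫)])
      ((le_abs_self _).trans e2)
    refine e3.trans ?_
    have e4 := sq_sum_le_card_mul_sum_sq (s := range a)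
      (f := fun t : ℕ => |σ (w.2.2 - t * w.2.1) * τ (w.2.2 - t * w.2.1)|)
    rw [card_range] at e4
    refine e4.trans (le_of_eq ?_)
    congr 1
    apply Finset.sum_congr rfl
    intro t _
    rw [sq_abs]
  refine (Finset.sum_le_sum fun w _ => key w).trans ?_
  rw [← Finset.mul_sum, Fintype.sum_prod_type]
  simp only [Finset.sum_const, Finset.card_univ, nsmul_eq_mul]
  rw [Fintype.sum_prod_type]
  have h5 : ∀ c : (ZMod p)ˣ, ∑ j : ZMod p, ∑ t ∈ range a,
      (σ (j - (t : ZMod p) * c) * τ (j - t * c)) ^ 2 ≤ a * (‖σ‖ ^ 2 * ‖τ‖ ^ 2) := by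
    intro c
    rw [Finset.sum_comm]
    have h6 : ∀ t ∈ range a, ∑ j : ZMod p, (σ (j - (t : ZMod p) * c) * τ (j - t * c)) ^ 2
        ≤ ‖σ‖ ^ 2 * ‖τ‖ ^ 2 := by
      intro t _
      have e9 := Equiv.sum_comp (Equiv.subRight ((t : ZMod p) * c)) (fun i => (σ i * τ i) ^ 2)
      simp only [Equiv.subRight_apply] at e9
      rw [e9]
      rw [EuclideanSpace.norm_sq_eq σ, EuclideanSpace.norm_sq_eq τ, Finset.sum_mul]
      apply Finset.sum_le_sum
      intro i _
      rw [mul_pow]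
      have : ‖τ i‖ ^ 2 ≤ ∑ i, ‖τ i‖ ^ 2 :=
        Finset.single_le_sum (f := fun i => ‖τ i‖ ^ 2) (fun _ _ => sq_nonneg _) (Finset.mem_univ i)
      have e7 : τ i ^ 2 = ‖τ i‖ ^ 2 := by simp
      have e8 : σ i ^ 2 = ‖σ i‖ ^ 2 := by simp
      rw [e7, e8]
      exact mul_le_mul_of_nonneg_left this (sq_nonneg _)
    refine (Finset.sum_le_sum h6).trans ?_
    simp
  have h7 : ∑ c : (ZMod p)ˣ, ∑ j : ZMod p, ∑ t ∈ range a,
      (σ (j - (t : ZMod p) * c) * τ (j - t * c)) ^ 2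
      ≤ (Fintype.card (ZMod p)ˣ) * (a * (‖σ‖ ^ 2 * ‖τ‖ ^ 2)) := by
    refine (Finset.sum_le_sum fun c _ => h5 c).trans ?_
    simp
  calc (a : ℝ) * (Fintype.card (ZMod p → ℤˣ) * ∑ c : (ZMod p)ˣ, ∑ j : ZMod p, ∑ t ∈ range a,
      (σ (j - (t : ZMod p) * c) * τ (j - t * c)) ^ 2)
      ≤ (a : ℝ) * (Fintype.card (ZMod p → ℤˣ) * ((Fintype.card (ZMod p)ˣ) * (a * (‖σ‖ ^ 2 * ‖τ‖ ^ 2)))) := by
        gcongr
    _ = _ := by ring

end moments

end Pool.Agent.Helper97.LB
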