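import Mathlib
import Pool.Agent.Helper97.LB.Cycle

/-!
# The formal orbit space and its realization
-/

open Finset
open scoped RealInnerProductSpace

namespace Pool.Agent.Helper97.LB

/-- formal orbits with `L` slots -/
abbrev Hat (L p : ℕ) : Type := PiLp 2 (fun _ : Fin L => Pl p)

variable {p L : ℕ}

/-- realization of a formal orbit -/
def proj (η : ℝ) (w : Par p) : Hat L p →ₗ[ℝ] Pl p where
  toFun x := ∑ s : Fin L, (cyc η w ^ (s : ℕ)) (x s)
  map_add' x y := by
    rw [← Finset.sum_add_distrib]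
    exact Finset.sum_congr rfl fun s _ => map_add _ _ _
  map_smul' r x := by
    rw [RingHom.id_apply, Finset.smul_sum]
    exact Finset.sum_congr rfl fun s _ => (cyc η w ^ (s : ℕ)).map_smul r (x s)

lemma proj_apply (η : ℝ) (w : Par p) (x : Hat L p) :
    proj η w x = ∑ s : Fin L, (cyc η w ^ (s : ℕ)) (x s) := rfl

/-- the slot zero -/
def iota (x : Pl p) : Hat (L + 1) p := WithLp.toLp 2 (Fin.cons x 0)

/-- the shift -/
def shift (x : Hat (L + 1) p) : Hat (L + 1) p :=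
  WithLp.toLp 2 (Fin.cons 0 (fun i : Fin L => x i.castSucc))

@[simp] lemma iota_zero (x : Pl p) : (iota x : Hat (L + 1) p) 0 = x := rfl
@[simp] lemma iota_succ (x : Pl p) (i : Fin L) : (iota x : Hat (L + 1) p) i.succ = 0 := rfl
@[simp] lemma shift_zero (x : Hat (L + 1) p) : shift x 0 = 0 := rfl
@[simp] lemma shift_succ (x : Hat (L + 1) p) (i : Fin L) : shift x i.succ = x i.castSucc := rfl

lemma proj_iota (η : ℝ) (w : Par p) (x : Pl p) : proj η w (iota x : Hat (L + 1) p) = x := by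
  rw [proj_apply, Fin.sum_univ_succ]
  simp

lemma proj_shift (η : ℝ) (w : Par p) (x : Hat (L + 1) p) (hx : x (Fin.last L) = 0) :
    proj η w (shift x) = cyc η w (proj η w x) := by
  rw [proj_apply, proj_apply, Fin.sum_univ_succ, Fin.sum_univ_castSucc, hx]
  simp only [shift_zero, map_zero, zero_add, shift_succ, add_zero, map_sum, Fin.val_succ,
    Fin.val_castSucc]
  apply Finset.sum_congr rfl
  intro i _
  rw [pow_succ', Module.End.mul_apply]

lemma norm_shift_le [NeZero p] (x : Hat (L + 1) p) : ‖shift x‖ ≤ ‖x‖ := by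
  have h : ‖shift x‖ ^ 2 ≤ ‖x‖ ^ 2 := by
    rw [PiLp.norm_sq_eq_of_L2, PiLp.norm_sq_eq_of_L2, Fin.sum_univ_succ, Fin.sum_univ_castSucc,
      shift_zero, norm_zero]
    simp only [shift_succ]
    have := sq_nonneg ‖x (Fin.last L)‖
    linarith
  exact le_of_sq_le_sq h (norm_nonneg _)

lemma norm_iota [NeZero p] (x : Pl p) : ‖(iota x : Hat (L + 1) p)‖ = ‖x‖ := by
  have h : ‖(iota x : Hat (L + 1) p)‖ ^ 2 = ‖x‖ ^ 2 := by
    rw [PiLp.norm_sq_eq_of_L2, Fin.sum_univ_succ, iota_zero]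
    simp only [iota_succ, norm_zero]
    simp
  exact (sq_eq_sq₀ (norm_nonneg _) (norm_nonneg _)).1 h

lemma norm_proj_sq_le [NeZero p] {η : ℝ} (h0 : 0 ≤ η) (h1 : η ≤ 1) (w : Par p) (x : Hat L p) :
    ‖proj η w x‖ ^ 2 ≤ L * ‖x‖ ^ 2 := by
  have e1 : ‖proj η w x‖ ≤ ∑ s : Fin L, ‖x s‖ := by
    rw [proj_apply]
    exact (norm_sum_le _ _).trans (Finset.sum_le_sum fun s _ => norm_cyc_pow_le h0 h1 w s (x s))
  have e2 : (∑ s : Fin L, ‖x s‖) ^ 2 ≤ L * ∑ s : Fin L, ‖x s‖ ^ 2 := by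
    have := sq_sum_le_card_mul_sum_sq (s := (Finset.univ : Finset (Fin L))) (f := fun s => ‖x s‖)
    simpa using this
  rw [PiLp.norm_sq_eq_of_L2 (fun _ : Fin L => Pl p) x]
  exact (pow_le_pow_left₀ (norm_nonneg _) e1 2).trans e2

lemma card_par [Fact p.Prime] :
    (Fintype.card (Par p) : ℝ) = Fintype.card (ZMod p → ℤˣ) * (p - 1) * p := by
  have hp : Nat.Prime p := Fact.out
  rw [Fintype.card_prod, Fintype.card_prod, ZMod.card, ZMod.card_units_eq_totient,
    Nat.totient_prime hp]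
  push_cast [hp.one_le]
  ring

/-- The realizations of two formal orbits have nearly the formal inner product, for most
signed cycles. -/
lemma gram_moment [Fact p.Prime] {η : ℝ} (h0 : 0 ≤ η) (h1 : η ≤ 1) (hp2 : p ≠ 2) (hL : L ≤ p)
    (x y : Hat L p) :
    ∑ w : Par p, (⟪proj η w x, proj η w y⟫ - ⟪x, y⟫) ^ 2
      ≤ Fintype.card (Par p) * ((L : ℝ) ^ 4 / (p - 1)) * (‖x‖ ^ 2 * ‖y‖ ^ 2) := by
  have hp : Nat.Prime p := Fact.out
  have hp1 : (0 : ℝ) < (p : ℝ) - 1 := by
    have := hp.one_lt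
    have : (1 : ℝ) < p := by exact_mod_cast this
    linarith
  have hp0 : (0 : ℝ) < p := by linarith
  set C : ℝ := ((Fintype.card (ZMod p → ℤˣ) : ℕ) : ℝ) with hC
  have hC0 : 0 ≤ C := Nat.cast_nonneg _
  let T : Par p → Fin L → Fin L → ℝ := fun w a b =>
    ⟪(cyc η w ^ (a : ℕ)) (x a), (cyc η w ^ (b : ℕ)) (y b)⟫ - (if a = b then ⟪x a, y b⟫ else 0)
  have e1 : ∀ w, ⟪proj η w x, proj η w y⟫ - ⟪x, y⟫ = ∑ a, ∑ b, T w a b := by
    intro w
    simp only [T, Finset.sum_sub_distrib]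
    congr 1
    · rw [proj_apply, proj_apply, sum_inner]
      apply Finset.sum_congr rfl
      intro a _
      rw [inner_sum]
    · rw [PiLp.inner_apply]
      apply Finset.sum_congr rfl
      intro a _
      simp
  have e2 : ∀ w, (⟪proj η w x, proj η w y⟫ - ⟪x, y⟫) ^ 2 ≤ L ^ 2 * ∑ a, ∑ b, T w a b ^ 2 := by
    intro w
    rw [e1]
    have s1 := sq_sum_le_card_mul_sum_sq (s := (Finset.univ : Finset (Fin L)))
      (f := fun a => ∑ b, T w a b)
    have s2 : ∀ a, (∑ b, T w a b) ^ 2 ≤ L * ∑ b, T w a b ^ 2 := by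
      intro a
      have := sq_sum_le_card_mul_sum_sq (s := (Finset.univ : Finset (Fin L)))
        (f := fun b => T w a b)
      simpa using this
    simp only [Finset.card_univ, Fintype.card_fin] at s1
    refine s1.trans ?_
    rw [sq (L : ℝ), mul_assoc]
    apply mul_le_mul_of_nonneg_left _ (Nat.cast_nonneg _)
    rw [Finset.mul_sum]
    exact Finset.sum_le_sum fun a _ => s2 a
  have e3 : ∀ a b, ∑ w : Par p, T w a b ^ 2 ≤ C * p * L ^ 2 * (‖x a‖ ^ 2 * ‖y b‖ ^ 2) := by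
    intro a b
    have hL1 : (1 : ℝ) ≤ (L : ℝ) ^ 2 := by
      have : 1 ≤ L := by have := a.2; omega
      have : (1 : ℝ) ≤ L := by exact_mod_cast this
      nlinarith
    have hn : 0 ≤ C * p * (‖x a‖ ^ 2 * ‖y b‖ ^ 2) := by positivity
    rcases lt_trichotomy a b with hab | hab | hab
    · have hne : a ≠ b := hab.ne
      simp only [T, hne, if_false, sub_zero]
      have h := moment_ne h0 h1 hp2 (a : ℕ) ((b : ℕ) - a) (by have : (a : ℕ) < b := hab; omega)
        (by have := b.2; omega) (x a) (y b)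
      have e : (a : ℕ) + ((b : ℕ) - a) = b := by have : (a : ℕ) < b := hab; omega
      rw [e] at h
      refine h.trans ?_
      nlinarith
    · subst hab
      simp only [T, if_true]
      have h := moment_eq h0 h1 (a : ℕ) (x a) (y a)
      refine h.trans ?_
      have e4 : (Fintype.card (ZMod p)ˣ : ℝ) ≤ p := by
        rw [ZMod.card_units_eq_totient]
        exact_mod_cast Nat.totient_le p
      have e5 : ((a : ℕ) : ℝ) ^ 2 ≤ (L : ℝ) ^ 2 := by
        have : ((a : ℕ) : ℝ) ≤ L := by exact_mod_cast a.2.le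
        exact pow_le_pow_left₀ (Nat.cast_nonneg _) this 2
      gcongr
    · have hne : a ≠ b := hab.ne'
      simp only [T, hne, if_false, sub_zero]
      have h := moment_ne h0 h1 hp2 (b : ℕ) ((a : ℕ) - b) (by have : (b : ℕ) < a := hab; omega)
        (by have := a.2; omega) (y b) (x a)
      have e : (b : ℕ) + ((a : ℕ) - b) = a := by have : (b : ℕ) < a := hab; omega
      rw [e] at h
      have e6 : ∀ w : Par p, ⟪(cyc η w ^ (a : ℕ)) (x a), (cyc η w ^ (b : ℕ)) (y b)⟫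
          = ⟪(cyc η w ^ (b : ℕ)) (y b), (cyc η w ^ (a : ℕ)) (x a)⟫ := fun w => real_inner_comm _ _
      simp_rw [e6]
      refine h.trans ?_
      rw [mul_comm (‖y b‖ ^ 2)]
      nlinarith
  calc ∑ w : Par p, (⟪proj η w x, proj η w y⟫ - ⟪x, y⟫) ^ 2
      ≤ ∑ w : Par p, (L : ℝ) ^ 2 * ∑ a, ∑ b, T w a b ^ 2 := Finset.sum_le_sum fun w _ => e2 w
    _ = (L : ℝ) ^ 2 * ∑ a, ∑ b, ∑ w : Par p, T w a b ^ 2 := by
        rw [← Finset.mul_sum, Finset.sum_comm]
        congr 1
        apply Finset.sum_congr rfl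
        intro a _
        rw [Finset.sum_comm]
    _ ≤ (L : ℝ) ^ 2 * ∑ a, ∑ b, C * p * L ^ 2 * (‖x a‖ ^ 2 * ‖y b‖ ^ 2) := by
        gcongr with a _ b _
        exact e3 a b
    _ = (C * p * (L : ℝ) ^ 4) * (‖x‖ ^ 2 * ‖y‖ ^ 2) := by
        rw [PiLp.norm_sq_eq_of_L2 (fun _ : Fin L => Pl p) x, PiLp.norm_sq_eq_of_L2 (fun _ : Fin L => Pl p) y, Finset.sum_mul_sum]
        simp_rw [← Finset.mul_sum]
        ring
    _ = _ := by
        rw [card_par]
        field_simp
        rw [hC]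
        ring

end Pool.Agent.Helper97.LB
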