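import Mathlib
import Pool.Agent.Helper97.LB.GS
import Pool.Agent.Helper97.LB.Hat

/-!
# The ideal process
-/

set_option linter.unusedSectionVars false

open Finset
open scoped RealInnerProductSpace

namespace Pool.Agent.Helper97.LB

/-- the label space -/
abbrev Lb (N : ℕ) : Type := EuclideanSpace ℝ (Fin N)

/-- answers -/
abbrev Ans (N p : ℕ) : Type := Lb N × Pl p

/-- innovations of one round -/
abbrev Inn (N p : ℕ) : Type := Pl p × Lb N × Pl p

/-- state of the ideal process -/
structure St (N p L : ℕ) where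
  /-- the answers -/
  hist : ℕ → Ans N p
  /-- orthonormal label directions -/
  f : ℕ → Lb N
  /-- masks -/
  y : ℕ → Pl p
  /-- compensators -/
  D : ℕ → Hat (L + 1) p
  /-- orthonormal orbit directions -/
  e : ℕ → Hat (L + 1) p
  /-- labels -/
  lam : ℕ → Lb N
  /-- raw Gaussian labels -/
  raw : ℕ → Lb N

variable {N p L : ℕ} [NeZero p]

/-- the initial state -/
def St.init : St N p L := ⟨0, 0, 0, 0, 0, 0, 0⟩

section next

variable (S : ℕ → (ℕ → Ans N p) → Ans N p) (τ : ℝ) (k : ℕ) (s : St N p L) (x : Inn N p)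

/-- updated label directions, first half -/
noncomputable def nf1 : ℕ → Lb N :=
  Function.update s.f (2 * k) (nrm (res (2 * k) s.f (S k s.hist).1))

/-- updated masks, first half -/
noncomputable def ny1 : ℕ → Pl p := Function.update s.y (2 * k) x.1

/-- updated compensators, first half -/
noncomputable def nD1 : ℕ → Hat (L + 1) p := Function.update s.D (2 * k) 0

/-- the query, as a formal orbit -/
noncomputable def nb : Hat (L + 1) p :=
  iota ((S k s.hist).2 + τ • comb (2 * k + 1) (nf1 S k s) (S k s.hist).1 (ny1 k s x))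
    + comb (2 * k + 1) (nf1 S k s) (S k s.hist).1 (nD1 k s)

/-- updated orbit directions -/
noncomputable def ne : ℕ → Hat (L + 1) p :=
  Function.update s.e k (nrm (res k s.e (nb S τ k s x)))

/-- the new label -/
noncomputable def nl : Lb N := ‖ne S τ k s x k‖ • x.2.1

/-- the new residual label -/
noncomputable def ng : Lb N := res (2 * k + 1) (nf1 S k s) (nl S τ k s x)

/-- updated labels -/
noncomputable def nlam : ℕ → Lb N := Function.update s.lam k (nl S τ k s x)

/-- updated raw labels -/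
noncomputable def nraw : ℕ → Lb N := Function.update s.raw k x.2.1

/-- updated label directions -/
noncomputable def nf : ℕ → Lb N :=
  Function.update (nf1 S k s) (2 * k + 1) (nrm (ng S τ k s x))

/-- updated masks -/
noncomputable def ny : ℕ → Pl p := Function.update (ny1 k s x) (2 * k + 1) x.2.2

/-- updated compensators -/
noncomputable def nD : ℕ → Hat (L + 1) p :=
  Function.update (nD1 k s) (2 * k + 1) (‖ng S τ k s x‖⁻¹ • (shift (ne S τ k s x k)
    - comb (2 * k + 1) (nf1 S k s) (nl S τ k s x) (nD1 k s)))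

/-- the plaintext coordinates of the orbit directions -/
noncomputable def zt (τ : ℝ) (f : ℕ → Lb N) (y : ℕ → Pl p) (lam : ℕ → Lb N) (i : ℕ) : Pl p :=
  -(τ • comb (2 * i + 2) f (lam i) y)

/-- updated answers -/
noncomputable def nh : ℕ → Ans N p :=
  Function.update s.hist k
    (comb (k + 1) (ne S τ k s x) (nb S τ k s x) (nlam S τ k s x),
      comb (k + 1) (ne S τ k s x) (nb S τ k s x)
        (zt τ (nf S τ k s x) (ny k s x) (nlam S τ k s x)))

/-- one round -/
noncomputable def next : St N p L :=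
  ⟨nh S τ k s x, nf S τ k s x, ny k s x, nD S τ k s x, ne S τ k s x, nlam S τ k s x, nraw k s x⟩

end next

/-- the space of the first `k` innovations -/
def Path (N p : ℕ) : ℕ → Type
  | 0 => Unit
  | k + 1 => Path N p k × Inn N p

/-- measurable structure -/
instance instMeasPath (N p : ℕ) : (k : ℕ) → MeasurableSpace (Path N p k)
  | 0 => inferInstanceAs (MeasurableSpace Unit)
  | k + 1 => @Prod.instMeasurableSpace _ _ (instMeasPath N p k) inferInstance

/-- the state after `k` rounds -/
noncomputable def st (L : ℕ) (S : ℕ → (ℕ → Ans N p) → Ans N p) (τ : ℝ) :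
    (k : ℕ) → Path N p k → St N p L
  | 0 => fun _ => St.init
  | k + 1 => fun q => next S τ k (st L S τ k q.1) q.2

/-- only slots up to `k` are used -/
def Sl (k : ℕ) (x : Hat (L + 1) p) : Prop := ∀ t : Fin (L + 1), k < (t : ℕ) → x t = 0

lemma Sl.zero {k : ℕ} : Sl k (0 : Hat (L + 1) p) := fun _ _ => rfl
lemma Sl.add {k : ℕ} {x y : Hat (L + 1) p} (hx : Sl k x) (hy : Sl k y) : Sl k (x + y) :=
  fun t ht => by
    have : (x + y) t = x t + y t := rfl
    rw [this, hx t ht, hy t ht, add_zero]
lemma Sl.sub {k : ℕ} {x y : Hat (L + 1) p} (hx : Sl k x) (hy : Sl k y) : Sl k (x - y) :=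
  fun t ht => by
    have : (x - y) t = x t - y t := rfl
    rw [this, hx t ht, hy t ht, sub_zero]
lemma Sl.smul {k : ℕ} {x : Hat (L + 1) p} (hx : Sl k x) (c : ℝ) : Sl k (c • x) :=
  fun t ht => by
    have : (c • x) t = c • x t := rfl
    rw [this, hx t ht, smul_zero]
lemma Sl.mono {k m : ℕ} {x : Hat (L + 1) p} (hx : Sl k x) (h : k ≤ m) : Sl m x :=
  fun t ht => hx t (by omega)
lemma Sl.iota (x : Pl p) : Sl 0 (iota x : Hat (L + 1) p) := by
  intro t ht
  obtain ⟨i, rfl⟩ := Fin.exists_succ_eq.2 (show t ≠ 0 by rintro rfl; simp at ht)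
  rfl
lemma Sl.shift {k : ℕ} {x : Hat (L + 1) p} (hx : Sl k x) : Sl (k + 1) (shift x) := by
  intro t ht
  obtain ⟨i, rfl⟩ := Fin.exists_succ_eq.2 (show t ≠ 0 by rintro rfl; simp at ht)
  rw [shift_succ]
  apply hx
  simpa using ht
lemma Sl.comb {V : Type*} [NormedAddCommGroup V] [InnerProductSpace ℝ V] {k n : ℕ} {f : ℕ → V}
    {u : V} {y : ℕ → Hat (L + 1) p} (h : ∀ i < n, Sl k (y i)) : Sl k (comb n f u y) := by
  induction n with
  | zero =>
    have : Pool.Agent.Helper97.LB.comb 0 f u y = 0 := by simp [Pool.Agent.Helper97.LB.comb]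
    rw [this]; exact Sl.zero
  | succ n ih =>
    rw [comb_succ]
    exact Sl.add (ih fun i hi => h i (by omega)) (Sl.smul (h n (by omega)) _)

/-- invariants of the ideal process -/
structure Inv (k : ℕ) (s : St N p L) : Prop where
  onf : ON (2 * k) s.f
  one : ON k s.e
  lam : ∀ i < k, s.lam i = ‖s.e i‖ • s.raw i
  f_odd : ∀ i < k, s.f (2 * i + 1) = nrm (res (2 * i + 1) s.f (s.lam i))
  D_even : ∀ i < k, s.D (2 * i) = 0
  D_odd : ∀ i < k, s.D (2 * i + 1) = ‖res (2 * i + 1) s.f (s.lam i)‖⁻¹ •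
    (shift (s.e i) - comb (2 * i + 1) s.f (s.lam i) s.D)
  slot_e : ∀ i < k, Sl i (s.e i)
  slot_D : ∀ i < 2 * k, Sl k (s.D i)

section stability

variable {S : ℕ → (ℕ → Ans N p) → Ans N p} {τ : ℝ} {k : ℕ} {s : St N p L} {x : Inn N p} {i : ℕ}

lemma nf1_lt (h : i < 2 * k) : nf1 S k s i = s.f i := by
  rw [nf1, Function.update_of_ne (by omega)]
lemma nf1_eq : nf1 S k s (2 * k) = nrm (res (2 * k) s.f (S k s.hist).1) := by
  rw [nf1, Function.update_self]
lemma nf_nf1 (h : i < 2 * k + 1) : nf S τ k s x i = nf1 S k s i := by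
  rw [nf, Function.update_of_ne (by omega)]
lemma nf_lt (h : i < 2 * k) : nf S τ k s x i = s.f i := by
  rw [nf_nf1 (by omega), nf1_lt h]
lemma nf_eq : nf S τ k s x (2 * k + 1) = nrm (ng S τ k s x) := by
  rw [nf, Function.update_self]
lemma ny1_lt (h : i < 2 * k) : ny1 k s x i = s.y i := by
  rw [ny1, Function.update_of_ne (by omega)]
lemma ny1_eq : ny1 k s x (2 * k) = x.1 := by
  rw [ny1, Function.update_self]
lemma ny_ny1 (h : i < 2 * k + 1) : ny k s x i = ny1 k s x i := by
  rw [ny, Function.update_of_ne (by omega)]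
lemma ny_lt (h : i < 2 * k) : ny k s x i = s.y i := by
  rw [ny_ny1 (by omega), ny1_lt h]
lemma ny_eq : ny k s x (2 * k + 1) = x.2.2 := by
  rw [ny, Function.update_self]
lemma nD1_lt (h : i < 2 * k) : nD1 k s i = s.D i := by
  rw [nD1, Function.update_of_ne (by omega)]
lemma nD1_eq : nD1 k s (2 * k) = 0 := by
  rw [nD1, Function.update_self]
lemma nD_nD1 (h : i < 2 * k + 1) : nD S τ k s x i = nD1 k s i := by
  rw [nD, Function.update_of_ne (by omega)]
lemma nD_lt (h : i < 2 * k) : nD S τ k s x i = s.D i := by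
  rw [nD_nD1 (by omega), nD1_lt h]
lemma nD_eq : nD S τ k s x (2 * k + 1) = (‖ng S τ k s x‖⁻¹ • (shift (ne S τ k s x k)
    - comb (2 * k + 1) (nf1 S k s) (nl S τ k s x) (nD1 k s))) := by
  rw [nD, Function.update_self]
lemma ne_lt (h : i < k) : ne S τ k s x i = s.e i := by
  rw [ne, Function.update_of_ne (by omega)]
lemma ne_eq : ne S τ k s x k = nrm (res k s.e (nb S τ k s x)) := by
  rw [ne, Function.update_self]
lemma nlam_lt (h : i < k) : nlam S τ k s x i = s.lam i := by
  rw [nlam, Function.update_of_ne (by omega)]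
lemma nlam_eq : nlam S τ k s x k = nl S τ k s x := by
  rw [nlam, Function.update_self]
lemma nraw_lt (h : i < k) : nraw k s x i = s.raw i := by
  rw [nraw, Function.update_of_ne (by omega)]
lemma nraw_eq : nraw k s x k = x.2.1 := by
  rw [nraw, Function.update_self]
lemma nh_lt (h : i < k) : nh S τ k s x i = s.hist i := by
  rw [nh, Function.update_of_ne (by omega)]

lemma Inv.init : Inv 0 (St.init : St N p L) := by
  refine ⟨⟨?_, ?_⟩, ⟨?_, ?_⟩, ?_, ?_, ?_, ?_, ?_, ?_⟩ <;>
  · intro i hi
    omega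

lemma Inv.onf1 (h : Inv k s) : ON (2 * k + 1) (nf1 S k s) := by
  apply ON.succ (u := (S k s.hist).1) (h.onf.congr fun i hi => (nf1_lt hi).symm)
  rw [nf1_eq]
  congr 1
  exact res_congr (fun i hi => (nf1_lt hi).symm) rfl

lemma Inv.onf2 (h : Inv k s) : ON (2 * k + 2) (nf S τ k s x) := by
  apply ON.succ (u := nl S τ k s x) (h.onf1.congr fun i hi => (nf_nf1 hi).symm)
  rw [nf_eq]
  congr 1
  exact res_congr (fun i hi => (nf_nf1 hi).symm) rfl

lemma Inv.one1 (h : Inv k s) : ON (k + 1) (ne S τ k s x) := by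
  apply ON.succ (u := nb S τ k s x) (h.one.congr fun i hi => (ne_lt hi).symm)
  rw [ne_eq]
  congr 1
  exact res_congr (fun i hi => (ne_lt hi).symm) rfl

lemma Inv.next (h : Inv k s) : Inv (k + 1) (next S τ k s x) := by
  have hb : Sl k (nb S τ k s x) := by
    apply Sl.add ((Sl.iota _).mono (Nat.zero_le _))
    apply Sl.comb
    intro i hi
    rcases Nat.lt_succ_iff_lt_or_eq.1 hi with hi | hi
    · rw [nD1_lt hi]; exact h.slot_D i hi
    · rw [hi, nD1_eq]; exact Sl.zero
  have he : Sl k (ne S τ k s x k) := by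
    rw [ne_eq]
    apply Sl.smul
    apply Sl.sub hb
    apply Sl.comb
    intro i hi
    exact (h.slot_e i hi).mono hi.le
  refine ⟨?_, ?_, ?_, ?_, ?_, ?_, ?_, ?_⟩
  · exact h.onf2
  · exact h.one1
  · intro i hi
    show nlam S τ k s x i = ‖ne S τ k s x i‖ • nraw k s x i
    rcases Nat.lt_succ_iff_lt_or_eq.1 hi with hi | hi
    · rw [nlam_lt hi, ne_lt hi, nraw_lt hi]; exact h.lam i hi
    · subst hi; rw [nlam_eq, nraw_eq]; rfl
  · intro i hi
    show nf S τ k s x (2 * i + 1) = nrm (res (2 * i + 1) (nf S τ k s x) (nlam S τ k s x i))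
    rcases Nat.lt_succ_iff_lt_or_eq.1 hi with hi | hi
    · rw [nf_lt (by omega), h.f_odd i hi]
      congr 1
      exact res_congr (fun j hj => (nf_lt (by omega)).symm) (nlam_lt hi).symm
    · subst hi
      rw [nf_eq, nlam_eq]
      congr 1
      exact res_congr (fun j hj => (nf_nf1 (by omega)).symm) rfl
  · intro i hi
    show nD S τ k s x (2 * i) = 0
    rcases Nat.lt_succ_iff_lt_or_eq.1 hi with hi | hi
    · rw [nD_lt (by omega), h.D_even i hi]
    · subst hi; rw [nD_nD1 (by omega), nD1_eq]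
  · intro i hi
    show nD S τ k s x (2 * i + 1) = ‖res (2 * i + 1) (nf S τ k s x) (nlam S τ k s x i)‖⁻¹ •
      (shift (ne S τ k s x i) - comb (2 * i + 1) (nf S τ k s x) (nlam S τ k s x i)
        (nD S τ k s x))
    rcases Nat.lt_succ_iff_lt_or_eq.1 hi with hi | hi
    · rw [nD_lt (by omega), h.D_odd i hi, ne_lt hi]
      have e1 : res (2 * i + 1) s.f (s.lam i)
          = res (2 * i + 1) (nf S τ k s x) (nlam S τ k s x i) :=
        res_congr (fun j hj => (nf_lt (by omega)).symm) (nlam_lt hi).symm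
      have e2 : comb (2 * i + 1) s.f (s.lam i) s.D
          = comb (2 * i + 1) (nf S τ k s x) (nlam S τ k s x i) (nD S τ k s x) :=
        comb_congr (fun j hj => (nf_lt (by omega)).symm) (nlam_lt hi).symm
          (fun j hj => (nD_lt (by omega)).symm)
      rw [e1, e2]
    · subst hi
      rw [nD_eq, nlam_eq]
      have e1 : ng S τ i s x = res (2 * i + 1) (nf S τ i s x) (nl S τ i s x) :=
        res_congr (fun j hj => (nf_nf1 (by omega)).symm) rfl
      have e2 : comb (2 * i + 1) (nf1 S i s) (nl S τ i s x) (nD1 i s)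
          = comb (2 * i + 1) (nf S τ i s x) (nl S τ i s x) (nD S τ i s x) :=
        comb_congr (fun j hj => (nf_nf1 (by omega)).symm) rfl
          (fun j hj => (nD_nD1 (by omega)).symm)
      rw [e1, e2]
  · intro i hi
    show Sl i (ne S τ k s x i)
    rcases Nat.lt_succ_iff_lt_or_eq.1 hi with hi | hi
    · rw [ne_lt hi]; exact h.slot_e i hi
    · subst hi; exact he
  · intro i hi
    show Sl (k + 1) (nD S τ k s x i)
    rcases Nat.lt_or_ge i (2 * k) with h1 | h1
    · rw [nD_lt h1]; exact (h.slot_D i h1).mono (Nat.le_succ _)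
    · rcases Nat.eq_or_lt_of_le h1 with h2 | h2
      · rw [← h2, nD_nD1 (by omega), nD1_eq]; exact Sl.zero
      · have : i = 2 * k + 1 := by omega
        rw [this, nD_eq]
        apply Sl.smul
        apply Sl.sub he.shift
        apply Sl.comb
        intro j hj
        rcases Nat.lt_succ_iff_lt_or_eq.1 hj with hj | hj
        · rw [nD1_lt hj]; exact (h.slot_D j hj).mono (Nat.le_succ _)
        · rw [hj, nD1_eq]; exact Sl.zero

lemma inv_st (S : ℕ → (ℕ → Ans N p) → Ans N p) (τ : ℝ) (k : ℕ) (q : Path N p k) :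
    Inv k (st L S τ k q) := by
  induction k with
  | zero => exact Inv.init
  | succ k ih => exact (ih q.1).next

end stability

end Pool.Agent.Helper97.LB
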