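import Mathlib
import Pool.Agent.Helper97.LB.Process

/-!
# Measurability of the ideal process
-/

set_option linter.unusedSectionVars false

open Finset MeasureTheory ProbabilityTheory
open scoped RealInnerProductSpace

namespace Pool.Agent.Helper97.LB

variable {N p L : ℕ} [NeZero p]

/-- measurable family of states -/
structure MeasSt {Ω : Type*} [MeasurableSpace Ω] (s : Ω → St N p L) : Prop where
  hist : Measurable (fun ω => (s ω).hist)
  f : Measurable (fun ω => (s ω).f)
  y : Measurable (fun ω => (s ω).y)
  D : Measurable (fun ω => (s ω).D)
  e : Measurable (fun ω => (s ω).e)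
  lam : Measurable (fun ω => (s ω).lam)
  raw : Measurable (fun ω => (s ω).raw)

lemma continuous_iota : Continuous (iota : Pl p → Hat (L + 1) p) := by
  unfold iota
  apply (PiLp.continuous_toLp 2 _).comp
  apply continuous_pi
  intro i
  refine Fin.cases ?_ (fun j => ?_) i
  · exact continuous_id
  · simpa using continuous_const

lemma continuous_shift : Continuous (shift : Hat (L + 1) p → Hat (L + 1) p) := by
  unfold shift
  apply (PiLp.continuous_toLp 2 _).comp
  apply continuous_pi
  intro i
  refine Fin.cases ?_ (fun j => ?_) i
  · simpa using continuous_const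
  · simp only [Fin.cons_succ]
    exact PiLp.continuous_apply 2 _ _

lemma Measurable.upd {Ω V : Type*} [MeasurableSpace Ω] [MeasurableSpace V] {f : Ω → ℕ → V}
    {g : Ω → V} (hf : Measurable f) (hg : Measurable g) (k : ℕ) :
    Measurable (fun ω => Function.update (f ω) k (g ω)) :=
  measurable_update'.comp (hf.prodMk hg)

section next

variable {Ω : Type*} [MeasurableSpace Ω] {S : ℕ → (ℕ → Ans N p) → Ans N p}
  (hS : ∀ k, Measurable (S k)) (τ : ℝ) (k : ℕ) {s : Ω → St N p L} (hs : MeasSt s)
  {x : Ω → Inn N p} (hx : Measurable x)

include hs hS in
lemma measurable_nf1 : Measurable (fun ω => nf1 S k (s ω)) := by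
  unfold nf1
  exact Measurable.upd hs.f (measurable_nrm (measurable_res hs.f
    (measurable_fst.comp ((hS k).comp hs.hist)))) _

include hs hx in
lemma measurable_ny1 : Measurable (fun ω => ny1 k (s ω) (x ω)) := by
  unfold ny1
  exact Measurable.upd hs.y (measurable_fst.comp hx) _

include hs in
lemma measurable_nD1 : Measurable (fun ω => nD1 k (s ω)) := by
  unfold nD1
  exact Measurable.upd hs.D measurable_const _

include hs hS hx in
lemma measurable_nb : Measurable (fun ω => nb S τ k (s ω) (x ω)) := by
  unfold nb
  have h0 : Measurable (fun ω => S k (s ω).hist) := (hS k).comp hs.hist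
  have h1 : Measurable (fun ω => (S k (s ω).hist).1) := measurable_fst.comp h0
  have h2 : Measurable (fun ω => (S k (s ω).hist).2) := measurable_snd.comp h0
  have hf := measurable_nf1 hS k hs
  apply Measurable.add
  · apply (continuous_iota (p := p) (L := L)).measurable.comp
    apply h2.add
    exact (measurable_comb hf h1 (measurable_ny1 k hs hx)).const_smul τ
  · exact measurable_comb hf h1 (measurable_nD1 k hs)

include hs hS hx in
lemma measurable_ne : Measurable (fun ω => ne S τ k (s ω) (x ω)) := by
  unfold ne
  exact Measurable.upd hs.e (measurable_nrm (measurable_res hs.e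
    (measurable_nb hS τ k hs hx))) _

include hs hS hx in
lemma measurable_nl : Measurable (fun ω => nl S τ k (s ω) (x ω)) := by
  unfold nl
  exact ((measurable_pi_apply k).comp (measurable_ne hS τ k hs hx)).norm.smul
    (measurable_fst.comp (measurable_snd.comp hx))

include hs hS hx in
lemma measurable_ng : Measurable (fun ω => ng S τ k (s ω) (x ω)) := by
  unfold ng
  exact measurable_res (measurable_nf1 hS k hs) (measurable_nl hS τ k hs hx)

include hs hS hx in
lemma measurable_nlam : Measurable (fun ω => nlam S τ k (s ω) (x ω)) := by
  unfold nlam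
  exact Measurable.upd hs.lam (measurable_nl hS τ k hs hx) _

include hs hx in
lemma measurable_nraw : Measurable (fun ω => nraw k (s ω) (x ω)) := by
  unfold nraw
  exact Measurable.upd hs.raw (measurable_fst.comp (measurable_snd.comp hx)) _

include hs hS hx in
lemma measurable_nf : Measurable (fun ω => nf S τ k (s ω) (x ω)) := by
  unfold nf
  exact Measurable.upd (measurable_nf1 hS k hs) (measurable_nrm (measurable_ng hS τ k hs hx)) _

include hs hx in
lemma measurable_ny : Measurable (fun ω => ny k (s ω) (x ω)) := by
  unfold ny
  exact Measurable.upd (measurable_ny1 k hs hx) (measurable_snd.comp (measurable_snd.comp hx)) _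

include hs hS hx in
lemma measurable_nD : Measurable (fun ω => nD S τ k (s ω) (x ω)) := by
  unfold nD
  apply Measurable.upd (measurable_nD1 k hs)
  apply (measurable_ng hS τ k hs hx).norm.inv.smul
  apply Measurable.sub
  · exact (continuous_shift (p := p) (L := L)).measurable.comp
      ((measurable_pi_apply k).comp (measurable_ne hS τ k hs hx))
  · exact measurable_comb (measurable_nf1 hS k hs) (measurable_nl hS τ k hs hx)
      (measurable_nD1 k hs)

include hs hS hx in
lemma measurable_nh : Measurable (fun ω => nh S τ k (s ω) (x ω)) := by
  unfold nh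
  apply Measurable.upd hs.hist
  have h1 := measurable_ne hS τ k hs hx
  have h2 := measurable_nb hS τ k hs hx
  have h3 := measurable_nlam hS τ k hs hx
  apply Measurable.prodMk
  · exact measurable_comb h1 h2 h3
  · apply measurable_comb h1 h2
    apply measurable_pi_lambda
    intro i
    unfold zt
    exact ((measurable_comb (measurable_nf hS τ k hs hx) ((measurable_pi_apply i).comp h3)
      (measurable_ny k hs hx)).const_smul τ).neg

include hs hS hx in
lemma MeasSt.next : MeasSt (fun ω => next S τ k (s ω) (x ω)) :=
  ⟨measurable_nh hS τ k hs hx, measurable_nf hS τ k hs hx, measurable_ny k hs hx,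
    measurable_nD hS τ k hs hx, measurable_ne hS τ k hs hx, measurable_nlam hS τ k hs hx,
    measurable_nraw k hs hx⟩

end next

lemma measSt_st {S : ℕ → (ℕ → Ans N p) → Ans N p} (hS : ∀ k, Measurable (S k)) (τ : ℝ) (k : ℕ) :
    MeasSt (st L S τ k) := by
  induction k with
  | zero => exact ⟨measurable_const, measurable_const, measurable_const, measurable_const,
      measurable_const, measurable_const, measurable_const⟩
  | succ k ih =>
    have h1 : MeasSt (fun q : Path N p (k + 1) => st L S τ k q.1) :=
      ⟨ih.hist.comp measurable_fst, ih.f.comp measurable_fst, ih.y.comp measurable_fst,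
        ih.D.comp measurable_fst, ih.e.comp measurable_fst, ih.lam.comp measurable_fst,
        ih.raw.comp measurable_fst⟩
    exact MeasSt.next hS τ k h1 measurable_snd

/-- law of the innovations of one round -/
noncomputable def innLaw (N p : ℕ) [NeZero p] : Measure (Inn N p) :=
  (stdGaussian (Pl p)).prod ((stdGaussian (Lb N)).prod (stdGaussian (Pl p)))

instance (N p : ℕ) [NeZero p] : IsProbabilityMeasure (innLaw N p) := by
  unfold innLaw; infer_instance

/-- law of the first `k` innovations -/
noncomputable def pathLaw (N p : ℕ) [NeZero p] : (k : ℕ) → Measure (Path N p k)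
  | 0 => @Measure.dirac Unit _ ()
  | k + 1 => (pathLaw N p k).prod (innLaw N p)

instance instProbPathLaw (N p : ℕ) [NeZero p] : (k : ℕ) → IsProbabilityMeasure (pathLaw N p k)
  | 0 => inferInstanceAs (IsProbabilityMeasure (Measure.dirac ()))
  | k + 1 => by
    have := instProbPathLaw N p k
    exact inferInstanceAs (IsProbabilityMeasure ((pathLaw N p k).prod (innLaw N p)))

end Pool.Agent.Helper97.LB
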