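import Mathlib
import Pool.Agent.Helper97.LB.GS

/-!
# Whitened labels and their affine coefficients
-/

set_option linter.unusedSectionVars false

open Finset MeasureTheory ProbabilityTheory
open scoped RealInnerProductSpace

namespace Pool.Agent.Helper97.LB

variable {V X : Type*} [NormedAddCommGroup V] [InnerProductSpace ℝ V]
  [NormedAddCommGroup X] [InnerProductSpace ℝ X]

/-- the norm of the `k`-th Gram-Schmidt residual -/
noncomputable def rn (w : ℕ → V) (k : ℕ) : ℝ := ‖res k (gs w) (w k)‖

/-- scale of the whitened label -/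
noncomputable def acoef (w : ℕ → V) (k : ℕ) : ℝ := if rn w k = 0 then 1 else (rn w k)⁻¹

/-- whitened labels -/
noncomputable def lamp (w : ℕ → V) (raw : ℕ → X) : ℕ → X :=
  cov (T := X) (fun k g => if rn w k = 0 then raw k
    else (rn w k)⁻¹ • (raw k - comb k (gs w) (w k) g))

/-- shift of the whitened label -/
noncomputable def ccoef (w : ℕ → V) (raw : ℕ → X) (k : ℕ) : X :=
  if rn w k = 0 then 0 else -((rn w k)⁻¹ • comb k (gs w) (w k) (lamp w raw))

lemma acoef_pos (w : ℕ → V) (k : ℕ) : 0 < acoef w k := by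
  unfold acoef
  split_ifs with h
  · norm_num
  · exact inv_pos.2 (lt_of_le_of_ne (norm_nonneg _) (Ne.symm h))

lemma lamp_eq (w : ℕ → V) (raw : ℕ → X) (k : ℕ) :
    lamp w raw k = if rn w k = 0 then raw k
      else (rn w k)⁻¹ • (raw k - comb k (gs w) (w k) (lamp w raw)) := by
  unfold lamp
  rw [cov_eq]
  intro k g g' h
  rw [comb_congr (fun _ _ => rfl) rfl h]

lemma lamp_affine (w : ℕ → V) (raw : ℕ → X) (k : ℕ) :
    lamp w raw k = acoef w k • raw k + ccoef w raw k := by
  rw [lamp_eq, acoef, ccoef]
  split_ifs with h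
  · simp
  · rw [smul_sub]; abel

lemma rn_congr {w w' : ℕ → V} {k : ℕ} (h : ∀ i ≤ k, w i = w' i) : rn w k = rn w' k := by
  unfold rn
  rw [res_congr (gs_congr fun i hi => h i (le_of_lt hi)) (h k le_rfl)]

lemma acoef_congr {w w' : ℕ → V} {k : ℕ} (h : ∀ i ≤ k, w i = w' i) :
    acoef w k = acoef w' k := by
  unfold acoef
  rw [rn_congr h]

lemma lamp_congr {w w' : ℕ → V} {raw raw' : ℕ → X} {n : ℕ} (h : ∀ i < n, w i = w' i)
    (hr : ∀ i < n, raw i = raw' i) : ∀ i < n, lamp w raw i = lamp w' raw' i := by
  apply cov_congr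
  · intro k g g' h
    rw [comb_congr (fun _ _ => rfl) rfl h]
  · intro k g g' h
    rw [comb_congr (fun _ _ => rfl) rfl h]
  · intro k hk g
    rw [rn_congr (fun i hi => h i (by omega)), hr k hk,
      comb_congr (gs_congr fun i hi => h i (by omega)) (h k hk) (fun _ _ => rfl)]

lemma ccoef_congr {w w' : ℕ → V} {raw raw' : ℕ → X} {k : ℕ} (h : ∀ i ≤ k, w i = w' i)
    (hr : ∀ i < k, raw i = raw' i) : ccoef w raw k = ccoef w' raw' k := by
  unfold ccoef
  rw [rn_congr h, comb_congr (gs_congr fun i hi => h i (le_of_lt hi)) (h k le_rfl)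
    (lamp_congr (fun i hi => h i (le_of_lt hi)) hr)]

/-- A matrix with the whitened values reproduces the raw values. -/
lemma app_eq_raw {D : Type*} [Fintype D] {w : ℕ → V} {raw : ℕ → EuclideanSpace ℝ D} {n : ℕ}
    {G : Mat D V} (hG : ∀ i < n, gs w i ≠ 0 → app G (gs w i) = lamp w raw i) {k : ℕ}
    (hk : k < n) (h : rn w k ≠ 0) : app G (w k) = raw k := by
  have h1 : app G (comb (k + 1) (gs w) (w k) (gs w)) = comb (k + 1) (gs w) (w k) (lamp w raw) := by
    unfold comb
    rw [app_sum_right]
    apply Finset.sum_congr rfl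
    intro i hi
    rw [mem_range] at hi
    rw [app_smul_right]
    by_cases h0 : gs w i = 0
    · simp [h0]
    · rw [hG i (by omega) h0]
  rw [(gs_ON w k).expand (gs_eq w k)] at h1
  rw [h1, comb_succ, lamp_eq w raw k, if_neg h]
  have h2 : ⟪gs w k, w k⟫ = rn w k := by
    rw [gs_eq]
    exact (gs_ON w k).inner_nrm_res _
  rw [h2, smul_smul, mul_inv_cancel₀ h, one_smul]
  abel

section measurability

variable [MeasurableSpace V] [BorelSpace V] [SecondCountableTopology V]
  [MeasurableSpace X] [BorelSpace X] [SecondCountableTopology X]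
  {Ω : Type*} [MeasurableSpace Ω]

lemma measurable_rn {w : Ω → ℕ → V} (hw : Measurable w) (k : ℕ) :
    Measurable (fun ω => rn (w ω) k) := by
  unfold rn
  exact (measurable_res (measurable_gs hw) ((measurable_pi_apply k).comp hw)).norm

lemma measurable_acoef {w : Ω → ℕ → V} (hw : Measurable w) (k : ℕ) :
    Measurable (fun ω => acoef (w ω) k) := by
  unfold acoef
  have h := measurable_rn hw k
  exact Measurable.ite (h (measurableSet_singleton 0)) measurable_const h.inv

lemma measurable_lamp {w : Ω → ℕ → V} {raw : Ω → ℕ → X} (hw : Measurable w)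
    (hr : Measurable raw) : Measurable (fun ω => lamp (w ω) (raw ω)) := by
  apply measurable_pi_lambda
  intro k
  apply measurable_cov (F := fun ω k g => if rn (w ω) k = 0 then raw ω k
    else (rn (w ω) k)⁻¹ • (raw ω k - comb k (gs (w ω)) (w ω k) g))
  intro k
  have h := measurable_rn (hw.comp (measurable_fst (β := ℕ → X))) k
  have h2 : Measurable (fun q : Ω × (ℕ → X) => raw q.1 k) :=
    (measurable_pi_apply k).comp (hr.comp measurable_fst)
  refine Measurable.ite (h (measurableSet_singleton 0)) h2 ?_
  refine h.inv.smul (h2.sub ?_)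
  exact measurable_comb ((measurable_gs hw).comp measurable_fst)
    ((measurable_pi_apply k).comp (hw.comp measurable_fst)) measurable_snd

lemma measurable_ccoef {w : Ω → ℕ → V} {raw : Ω → ℕ → X} (hw : Measurable w)
    (hr : Measurable raw) (k : ℕ) : Measurable (fun ω => ccoef (w ω) (raw ω) k) := by
  unfold ccoef
  have h := measurable_rn hw k
  refine Measurable.ite (h (measurableSet_singleton 0)) measurable_const ?_
  exact (h.inv.smul (measurable_comb (measurable_gs hw) ((measurable_pi_apply k).comp hw)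
    (measurable_lamp hw hr))).neg

end measurability

end Pool.Agent.Helper97.LB
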