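import Mathlib
import Pool.Agent.Helper97.LB.ProcMeas
import Pool.Agent.Helper97.LB.Weights

/-!
# The distribution identity
-/

set_option linter.unusedSectionVars false

open Finset MeasureTheory ProbabilityTheory
open scoped RealInnerProductSpace ENNReal

namespace Pool.Agent.Helper97.LB

variable {N p L : ℕ} [NeZero p]

/-- Gaussian label matrices -/
abbrev GM (N p : ℕ) : Type := Mat (Fin N) (Pl p)

/-- Gaussian mask matrices -/
abbrev RM (N p : ℕ) : Type := Mat (ZMod p) (Lb N)

/-- iterated integral over the two Gaussian matrices -/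
noncomputable def JJ (Ψ : GM N p × RM N p → ℝ≥0∞) : ℝ≥0∞ :=
  ∫⁻ G, ∫⁻ R, Ψ (G, R) ∂(stdGaussian (RM N p)) ∂(stdGaussian (GM N p))

lemma measurable_JJ {Ω : Type*} [MeasurableSpace Ω] {Ψ : Ω → GM N p × RM N p → ℝ≥0∞}
    (h : Measurable (fun q : Ω × (GM N p × RM N p) => Ψ q.1 q.2)) :
    Measurable (fun ω => JJ (Ψ ω)) := by
  unfold JJ
  apply Measurable.lintegral_prod_right' (f := fun q : Ω × GM N p =>
    ∫⁻ R, Ψ q.1 (q.2, R) ∂(stdGaussian (RM N p)))
  apply Measurable.lintegral_prod_right' (f := fun q : (Ω × GM N p) × RM N p =>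
    Ψ q.1.1 (q.1.2, q.2))
  have h2 : Measurable (fun q : (Ω × GM N p) × RM N p => (q.1.1, (q.1.2, q.2))) :=
    (measurable_fst.comp measurable_fst).prodMk
      ((measurable_snd.comp measurable_fst).prodMk measurable_snd)
  exact h.comp h2

lemma JJ_swap {Ψ : GM N p × RM N p → ℝ≥0∞} (h : Measurable Ψ) :
    JJ Ψ = ∫⁻ R, ∫⁻ G, Ψ (G, R) ∂(stdGaussian (GM N p)) ∂(stdGaussian (RM N p)) := by
  unfold JJ
  exact lintegral_lintegral_swap h.aemeasurable

lemma JJ_stepG {f : Pl p} (hf : ‖f‖ = 1 ∨ f = 0) {a : ℝ} (ha : 0 < a) (c : Lb N)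
    {Ψ : GM N p × RM N p → ℝ≥0∞} (hΨ : Measurable Ψ) :
    ∫⁻ y, JJ (fun q => Ψ (q.1 + outer (a • y + c - app q.1 f) f, q.2))
        * ENNReal.ofReal (gwt a c y) ∂(stdGaussian (Lb N)) = JJ Ψ := by
  have h1 : Measurable (fun G : GM N p => ∫⁻ R, Ψ (G, R) ∂(stdGaussian (RM N p))) :=
    Measurable.lintegral_prod_right' hΨ
  exact lintegral_step_mat hf ha c h1

lemma JJ_stepR {f : Lb N} (hf : ‖f‖ = 1 ∨ f = 0) (c : Pl p)
    {Ψ : GM N p × RM N p → ℝ≥0∞} (hΨ : Measurable Ψ) :
    ∫⁻ y, JJ (fun q => Ψ (q.1, q.2 + outer (y + c - app q.2 f) f))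
        * ENNReal.ofReal (gwt 1 c y) ∂(stdGaussian (Pl p)) = JJ Ψ := by
  have h1 : Measurable (fun R : RM N p => ∫⁻ G, Ψ (G, R) ∂(stdGaussian (GM N p))) :=
    Measurable.lintegral_prod_left' hΨ
  have h2 := lintegral_step_mat hf one_pos c h1
  rw [JJ_swap hΨ, ← h2]
  apply lintegral_congr
  intro y
  rw [JJ_swap]
  · simp only [one_smul]
  · have h3 : Measurable (fun q : GM N p × RM N p => q.2 + outer (y + c - app q.2 f) f) := by
      apply measurable_snd.add
      exact measurable_outer (measurable_const.sub (measurable_app measurable_snd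
        measurable_const)) measurable_const
    exact hΨ.comp (measurable_fst.prodMk h3)

lemma JJ_stepR0 {f : Lb N} (hf : ‖f‖ = 1 ∨ f = 0)
    {Ψ : GM N p × RM N p → ℝ≥0∞} (hΨ : Measurable Ψ) :
    ∫⁻ y, JJ (fun q => Ψ (q.1, q.2 + outer (y - app q.2 f) f)) ∂(stdGaussian (Pl p))
      = JJ Ψ := by
  rw [← JJ_stepR hf 0 hΨ]
  apply lintegral_congr
  intro y
  have : gwt 1 0 y = 1 := by
    unfold gwt
    simp [neg_div]
  rw [this]
  simp

section weights

variable (η : ℝ) (w : Par p) (τ : ℝ)

/-- realized orbit directions -/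
noncomputable def wv (e : ℕ → Hat (L + 1) p) : ℕ → Pl p := fun i => proj η w (e i)

/-- values of the masks -/
noncomputable def yv (s : St N p L) : ℕ → Pl p := fun i => s.y i + τ⁻¹ • proj η w (s.D i)

/-- the conditioned label matrix -/
noncomputable def mixG (k : ℕ) (s : St N p L) (M : GM N p) : GM N p :=
  mix k (gs (wv η w s.e)) (lamp (wv η w s.e) s.raw) M

/-- the conditioned mask matrix -/
noncomputable def mixR (k : ℕ) (s : St N p L) (M : RM N p) : RM N p :=
  mix (2 * k) s.f (yv η w τ s) M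

/-- label weight -/
noncomputable def wtG (k : ℕ) (s : St N p L) : ℝ≥0∞ :=
  ∏ i ∈ range k, ENNReal.ofReal (gwt (acoef (wv η w s.e) i) (ccoef (wv η w s.e) s.raw i) (s.raw i))

/-- mask weight -/
noncomputable def wtR (k : ℕ) (s : St N p L) : ℝ≥0∞ :=
  ∏ i ∈ range k, ENNReal.ofReal (gwt 1 (τ⁻¹ • proj η w (s.D (2 * i + 1))) (s.y (2 * i + 1)))

lemma continuous_proj : Continuous (proj η w : Hat L p → Pl p) := by
  have h : ∀ s : Fin L, Continuous (fun x : Hat L p => (cyc η w ^ (s : ℕ)) (x s)) := by
    intro s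
    have h1 : Continuous ((cyc η w ^ (s : ℕ) : Pl p →ₗ[ℝ] Pl p) : Pl p → Pl p) :=
      LinearMap.continuous_of_finiteDimensional _
    exact h1.comp (PiLp.continuous_apply 2 _ s)
  have h2 : (proj η w : Hat L p → Pl p)
      = fun x => ∑ s : Fin L, (cyc η w ^ (s : ℕ)) (x s) := rfl
  rw [h2]
  exact continuous_finsetSum _ fun s _ => h s

lemma measurable_csp {Ω : Type*} [MeasurableSpace Ω] (c : ℝ) {g : Ω → ℕ → Hat L p}
    (hg : Measurable g) (i : ℕ) : Measurable (fun ω => c • proj η w (g ω i)) := by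
  have h1 : Measurable (fun ω => proj η w (g ω i)) :=
    (continuous_proj η w).measurable.comp ((measurable_pi_apply i).comp hg)
  exact h1.const_smul c

section meas

variable {Ω : Type*} [MeasurableSpace Ω] {s : Ω → St N p L} (hs : MeasSt s)

include hs in
lemma measurable_wv : Measurable (fun ω => wv η w (s ω).e) := by
  apply measurable_pi_lambda
  intro i
  exact (continuous_proj η w).measurable.comp ((measurable_pi_apply i).comp hs.e)

include hs in
lemma measurable_yv : Measurable (fun ω => yv η w τ (s ω)) := by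
  apply measurable_pi_lambda
  intro i
  exact ((measurable_pi_apply i).comp hs.y).add (measurable_csp η w _ hs.D i)

lemma measurable_gwt {V : Type*} [NormedAddCommGroup V] [InnerProductSpace ℝ V]
    [FiniteDimensional ℝ V] [MeasurableSpace V] [BorelSpace V] {a : Ω → ℝ} {c y : Ω → V}
    (ha : Measurable a) (hc : Measurable c) (hy : Measurable y) :
    Measurable (fun ω => gwt (a ω) (c ω) (y ω)) := by
  unfold gwt
  fun_prop

include hs in
lemma measurable_wtG (k : ℕ) : Measurable (fun ω => wtG η w k (s ω)) := by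
  unfold wtG
  apply Finset.measurable_prod
  intro i _
  apply Measurable.ennreal_ofReal
  exact measurable_gwt (measurable_acoef (measurable_wv η w hs) i)
    (measurable_ccoef (measurable_wv η w hs) hs.raw i) ((measurable_pi_apply i).comp hs.raw)

include hs in
lemma measurable_wtR (k : ℕ) : Measurable (fun ω => wtR η w τ k (s ω)) := by
  unfold wtR
  apply Finset.measurable_prod
  intro i _
  apply Measurable.ennreal_ofReal
  exact measurable_gwt measurable_const (measurable_csp η w _ hs.D (2 * i + 1))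
    ((measurable_pi_apply (2 * i + 1)).comp hs.y)

include hs in
lemma measurable_mixG (k : ℕ) :
    Measurable (fun q : Ω × GM N p => mixG η w k (s q.1) q.2) := by
  unfold mixG
  have h1 : Measurable (fun q : Ω × GM N p => wv η w (s q.1).e) :=
    (measurable_wv η w hs).comp measurable_fst
  exact measurable_mix (measurable_gs h1) (measurable_lamp h1 (hs.raw.comp measurable_fst))
    measurable_snd

include hs in
lemma measurable_mixR (k : ℕ) :
    Measurable (fun q : Ω × RM N p => mixR η w τ k (s q.1) q.2) := by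
  unfold mixR
  exact measurable_mix (hs.f.comp measurable_fst) ((measurable_yv η w τ hs).comp measurable_fst)
    measurable_snd

include hs in
lemma measurable_core (k : ℕ) {Φ : GM N p × RM N p → ℝ≥0∞} (hΦ : Measurable Φ) :
    Measurable (fun ω => JJ (fun q => Φ (mixG η w k (s ω) q.1, mixR η w τ k (s ω) q.2))
      * wtG η w k (s ω) * wtR η w τ k (s ω)) := by
  have h1 : Measurable (fun q : Ω × (GM N p × RM N p) => (q.1, q.2.1)) :=
    measurable_fst.prodMk (measurable_fst.comp measurable_snd)
  have h2 : Measurable (fun q : Ω × (GM N p × RM N p) => (q.1, q.2.2)) :=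
    measurable_fst.prodMk (measurable_snd.comp measurable_snd)
  have h3 := (measurable_mixG η w hs k).comp h1
  have h4 := (measurable_mixR η w τ hs k).comp h2
  have h5 := hΦ.comp (h3.prodMk h4)
  have h6 := measurable_JJ (Ψ := fun ω q => Φ (mixG η w k (s ω) q.1, mixR η w τ k (s ω) q.2)) h5
  have h7 := measurable_wtG η w hs k
  have h8 := measurable_wtR η w τ hs k
  have h9 := (h6.mul h7).mul h8
  exact h9

end meas

end weights

end Pool.Agent.Helper97.LB
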