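import Mathlib
import Pool.Agent.Helper97.LB.Ident

/-!
# The distribution identity: induction
-/

set_option linter.unusedSectionVars false

open Finset MeasureTheory ProbabilityTheory
open scoped RealInnerProductSpace ENNReal

namespace Pool.Agent.Helper97.LB

variable {N p L : ℕ} [NeZero p] (η : ℝ) (w : Par p) (τ : ℝ)

section step

variable {S : ℕ → (ℕ → Ans N p) → Ans N p} {k : ℕ} {s : St N p L}

lemma ne_dep (r : Pl p) (l : Lb N) (z : Pl p) :
    ne S τ k s (r, l, z) = ne S τ k s (r, 0, 0) := rfl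

lemma ng_dep (r : Pl p) (l : Lb N) (z : Pl p) :
    ng S τ k s (r, l, z) = ng S τ k s (r, l, 0) := rfl

lemma nD_dep (r : Pl p) (l : Lb N) (z : Pl p) :
    nD S τ k s (r, l, z) = nD S τ k s (r, l, 0) := rfl

lemma wtG_next (x : Inn N p) :
    wtG η w (k + 1) (next S τ k s x) = wtG η w k s *
      ENNReal.ofReal (gwt (acoef (wv η w (ne S τ k s x)) k)
        (ccoef (wv η w (ne S τ k s x)) s.raw k) x.2.1) := by
  unfold wtG
  rw [prod_range_succ]
  have he : ∀ i < k, wv η w (next S τ k s x).e i = wv η w s.e i := by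
    intro i hi
    show proj η w (ne S τ k s x i) = proj η w (s.e i)
    rw [ne_lt hi]
  have hr : ∀ i < k, (next S τ k s x).raw i = s.raw i := fun i hi => nraw_lt hi
  congr 1
  · apply Finset.prod_congr rfl
    intro i hi
    rw [mem_range] at hi
    rw [acoef_congr (fun j hj => he j (by omega)),
      ccoef_congr (fun j hj => he j (by omega)) (fun j hj => hr j (by omega)), hr i hi]
  · have h1 : (next S τ k s x).raw k = x.2.1 := nraw_eq
    rw [h1]
    have h2 : ccoef (wv η w (next S τ k s x).e) (next S τ k s x).raw k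
        = ccoef (wv η w (ne S τ k s x)) s.raw k :=
      ccoef_congr (fun j hj => rfl) (fun j hj => hr j hj)
    rw [h2]
    rfl

lemma wtR_next (x : Inn N p) :
    wtR η w τ (k + 1) (next S τ k s x) = wtR η w τ k s *
      ENNReal.ofReal (gwt 1 (τ⁻¹ • proj η w (nD S τ k s x (2 * k + 1))) x.2.2) := by
  unfold wtR
  rw [prod_range_succ]
  congr 1
  · apply Finset.prod_congr rfl
    intro i hi
    rw [mem_range] at hi
    have h1 : (next S τ k s x).D (2 * i + 1) = s.D (2 * i + 1) := nD_lt (by omega)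
    have h2 : (next S τ k s x).y (2 * i + 1) = s.y (2 * i + 1) := ny_lt (by omega)
    rw [h1, h2]
  · have h1 : (next S τ k s x).y (2 * k + 1) = x.2.2 := ny_eq
    rw [h1]
    rfl

lemma mixG_next (x : Inn N p) (G : GM N p) :
    mixG η w (k + 1) (next S τ k s x) G = mixG η w k s
      (G + outer (acoef (wv η w (ne S τ k s x)) k • x.2.1
        + ccoef (wv η w (ne S τ k s x)) s.raw k - app G (gs (wv η w (ne S τ k s x)) k))
          (gs (wv η w (ne S τ k s x)) k)) := by
  unfold mixG
  have he : ∀ i < k, wv η w (next S τ k s x).e i = wv η w s.e i := by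
    intro i hi
    show proj η w (ne S τ k s x i) = proj η w (s.e i)
    rw [ne_lt hi]
  have hr : ∀ i < k, (next S τ k s x).raw i = s.raw i := fun i hi => nraw_lt hi
  rw [mix_succ (gs_ON _ _), mix_congr (gs_congr he) (lamp_congr he hr)]
  have h1 : lamp (wv η w (next S τ k s x).e) (next S τ k s x).raw k
      = acoef (wv η w (ne S τ k s x)) k • x.2.1 + ccoef (wv η w (ne S τ k s x)) s.raw k := by
    rw [lamp_affine]
    have h1 : (next S τ k s x).raw k = x.2.1 := nraw_eq
    rw [h1]
    have h2 : ccoef (wv η w (next S τ k s x).e) (next S τ k s x).raw k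
        = ccoef (wv η w (ne S τ k s x)) s.raw k :=
      ccoef_congr (fun j hj => rfl) (fun j hj => hr j hj)
    rw [h2]
    rfl
  rw [h1]
  rfl

lemma mixR_next (h : Inv k s) (x : Inn N p) (R : RM N p) :
    mixR η w τ (k + 1) (next S τ k s x) R = mixR η w τ k s
      ((R + outer (x.2.2 + τ⁻¹ • proj η w (nD S τ k s x (2 * k + 1))
          - app R (nrm (ng S τ k s x))) (nrm (ng S τ k s x)))
        + outer (x.1 - app (R + outer (x.2.2 + τ⁻¹ • proj η w (nD S τ k s x (2 * k + 1))
          - app R (nrm (ng S τ k s x))) (nrm (ng S τ k s x)))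
            (nf1 S k s (2 * k))) (nf1 S k s (2 * k))) := by
  unfold mixR
  have e1 : 2 * (k + 1) = (2 * k + 1) + 1 := by ring
  have hon : ON (2 * k + 2) (next S τ k s x).f := h.onf2
  rw [e1, mix_succ hon, mix_succ (hon.mono (by omega))]
  have h1 : (next S τ k s x).f (2 * k + 1) = nrm (ng S τ k s x) := nf_eq
  have h2 : (next S τ k s x).f (2 * k) = nf1 S k s (2 * k) := nf_nf1 (by omega)
  have h3 : yv η w τ (next S τ k s x) (2 * k + 1)
      = x.2.2 + τ⁻¹ • proj η w (nD S τ k s x (2 * k + 1)) := by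
    show ny k s x (2 * k + 1) + τ⁻¹ • proj η w (nD S τ k s x (2 * k + 1)) = _
    rw [ny_eq]
  have h4 : yv η w τ (next S τ k s x) (2 * k) = x.1 := by
    show ny k s x (2 * k) + τ⁻¹ • proj η w (nD S τ k s x (2 * k)) = _
    rw [ny_ny1 (by omega), ny1_eq, nD_nD1 (by omega), nD1_eq, map_zero, smul_zero, add_zero]
  rw [h1, h2, h3, h4]
  apply mix_congr
  · intro i hi
    exact nf_lt hi
  · intro i hi
    show ny k s x i + τ⁻¹ • proj η w (nD S τ k s x i) = s.y i + τ⁻¹ • proj η w (s.D i)
    rw [ny_lt hi, nD_lt hi]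

lemma nrm_unit_or {V : Type*} [NormedAddCommGroup V] [InnerProductSpace ℝ V] (x : V) :
    ‖nrm x‖ = 1 ∨ nrm x = 0 := by
  by_cases h : x = 0
  · right; rw [h, nrm_zero]
  · left; exact norm_nrm x h

lemma measurable_addOuter {D : Type*} [Fintype D] {V : Type*} [NormedAddCommGroup V]
    [InnerProductSpace ℝ V] [FiniteDimensional ℝ V] [MeasurableSpace V] [BorelSpace V]
    (c : EuclideanSpace ℝ D) (f : V) : Measurable (fun M : Mat D V => M + outer (c - app M f) f) := by
  have h1 : Measurable (fun M : Mat D V => app M f) := measurable_app measurable_id measurable_const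
  have h2 : Measurable (fun M : Mat D V => outer (c - app M f) f) :=
    measurable_outer (measurable_const.sub h1) measurable_const
  exact measurable_id.add h2

lemma ident_step (hS : ∀ k, Measurable (S k)) (h : Inv k s)
    {Φ : GM N p × RM N p → ℝ≥0∞} (hΦ : Measurable Φ) :
    ∫⁻ x, JJ (fun q => Φ (mixG η w (k + 1) (next S τ k s x) q.1,
        mixR η w τ (k + 1) (next S τ k s x) q.2)) * wtG η w (k + 1) (next S τ k s x)
        * wtR η w τ (k + 1) (next S τ k s x) ∂(innLaw N p)
      = JJ (fun q => Φ (mixG η w k s q.1, mixR η w τ k s q.2)) * wtG η w k s * wtR η w τ k s := by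
  have hm0 : MeasSt (fun x : Inn N p => next S τ k s x) :=
    MeasSt.next hS τ k (s := fun _ : Inn N p => s) ⟨measurable_const, measurable_const,
      measurable_const, measurable_const, measurable_const, measurable_const, measurable_const⟩
      measurable_id
  have hm1 := measurable_core η w τ hm0 (k + 1) hΦ
  have hms : MeasSt (fun _ : Unit => s) := ⟨measurable_const, measurable_const,
      measurable_const, measurable_const, measurable_const, measurable_const, measurable_const⟩
  -- the functions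
  let Φ₀ : GM N p × RM N p → ℝ≥0∞ := fun q => Φ (mixG η w k s q.1, mixR η w τ k s q.2)
  have hΦ₀ : Measurable Φ₀ := by
    have h1 : Measurable (fun q : GM N p × RM N p => (((), q.1) : Unit × GM N p)) :=
      measurable_const.prodMk measurable_fst
    have h2 : Measurable (fun q : GM N p × RM N p => (((), q.2) : Unit × RM N p)) :=
      measurable_const.prodMk measurable_snd
    have h3 := (measurable_mixG η w hms k).comp h1
    have h4 := (measurable_mixR η w τ hms k).comp h2
    have h5 := hΦ.comp (h3.prodMk h4)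
    exact h5
  let Φ₁ : Pl p → GM N p × RM N p → ℝ≥0∞ := fun r q =>
    Φ₀ (q.1, q.2 + outer (r - app q.2 (nf1 S k s (2 * k))) (nf1 S k s (2 * k)))
  have hΦ₁ : ∀ r, Measurable (Φ₁ r) := by
    intro r
    have h0 : Measurable (Prod.snd : GM N p × RM N p → RM N p) := measurable_snd
    have h1 := (measurable_addOuter (D := ZMod p) r (nf1 S k s (2 * k))).comp h0
    have h2 := hΦ₀.comp (measurable_fst.prodMk h1)
    exact h2
  let W' : Pl p → ℕ → Pl p := fun r => wv η w (ne S τ k s (r, 0, 0))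
  let A : Pl p → ℝ := fun r => acoef (W' r) k
  let C : Pl p → Lb N := fun r => ccoef (W' r) s.raw k
  let Φ₂ : Pl p → Lb N → GM N p × RM N p → ℝ≥0∞ := fun r l q =>
    Φ₁ r (q.1 + outer (A r • l + C r - app q.1 (gs (W' r) k)) (gs (W' r) k), q.2)
  have hΦ₂ : ∀ r l, Measurable (Φ₂ r l) := by
    intro r l
    have h0 : Measurable (Prod.fst : GM N p × RM N p → GM N p) := measurable_fst
    have h1 := (measurable_addOuter (D := Fin N) (A r • l + C r) (gs (W' r) k)).comp h0
    have h2 := (hΦ₁ r).comp (h1.prodMk measurable_snd)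
    exact h2
  let F2 : Pl p → Lb N → Lb N := fun r l => nrm (ng S τ k s (r, l, 0))
  let C' : Pl p → Lb N → Pl p := fun r l => τ⁻¹ • proj η w (nD S τ k s (r, l, 0) (2 * k + 1))
  let Φ₃ : Pl p → Lb N → Pl p → GM N p × RM N p → ℝ≥0∞ := fun r l z q =>
    Φ₂ r l (q.1, q.2 + outer (z + C' r l - app q.2 (F2 r l)) (F2 r l))
  have key : ∀ r l z, JJ (fun q => Φ (mixG η w (k + 1) (next S τ k s (r, l, z)) q.1,
        mixR η w τ (k + 1) (next S τ k s (r, l, z)) q.2)) * wtG η w (k + 1) (next S τ k s (r, l, z))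
        * wtR η w τ (k + 1) (next S τ k s (r, l, z))
      = (JJ (Φ₃ r l z) * ENNReal.ofReal (gwt 1 (C' r l) z))
        * (wtG η w k s * ENNReal.ofReal (gwt (A r) (C r) l) * wtR η w τ k s) := by
    intro r l z
    rw [wtG_next, wtR_next]
    have e1 : (fun q : GM N p × RM N p => Φ (mixG η w (k + 1) (next S τ k s (r, l, z)) q.1,
        mixR η w τ (k + 1) (next S τ k s (r, l, z)) q.2)) = Φ₃ r l z := by
      funext q
      rw [mixG_next, mixR_next η w τ h]
      rfl
    rw [e1]
    have e2 : wtG η w k s * ENNReal.ofReal (gwt (acoef (wv η w (ne S τ k s (r, l, z))) k)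
        (ccoef (wv η w (ne S τ k s (r, l, z))) s.raw k) (r, l, z).2.1)
        = wtG η w k s * ENNReal.ofReal (gwt (A r) (C r) l) := rfl
    have e3 : wtR η w τ k s * ENNReal.ofReal (gwt 1 (τ⁻¹ • proj η w
        (nD S τ k s (r, l, z) (2 * k + 1))) (r, l, z).2.2)
        = wtR η w τ k s * ENNReal.ofReal (gwt 1 (C' r l) z) := rfl
    rw [e2, e3]
    ring
  have hfG : wtG η w k s ≠ ∞ := ENNReal.prod_ne_top fun _ _ => ENNReal.ofReal_ne_top
  have hfR : wtR η w τ k s ≠ ∞ := ENNReal.prod_ne_top fun _ _ => ENNReal.ofReal_ne_top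
  unfold innLaw
  rw [lintegral_prod _ hm1.aemeasurable]
  have step3 : ∀ r l, ∫⁻ z, JJ (Φ₃ r l z) * ENNReal.ofReal (gwt 1 (C' r l) z)
      ∂(stdGaussian (Pl p)) = JJ (Φ₂ r l) := by
    intro r l
    exact JJ_stepR (nrm_unit_or _) (C' r l) (hΦ₂ r l)
  have step2 : ∀ r, ∫⁻ l, JJ (Φ₂ r l) * ENNReal.ofReal (gwt (A r) (C r) l)
      ∂(stdGaussian (Lb N)) = JJ (Φ₁ r) := by
    intro r
    have hg : ‖gs (W' r) k‖ = 1 ∨ gs (W' r) k = 0 := by
      rw [gs_eq]; exact nrm_unit_or _
    exact JJ_stepG hg (acoef_pos _ _) (C r) (hΦ₁ r)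
  have step1 : ∫⁻ r, JJ (Φ₁ r) ∂(stdGaussian (Pl p)) = JJ Φ₀ := by
    have hg : ‖nf1 S k s (2 * k)‖ = 1 ∨ nf1 S k s (2 * k) = 0 := by
      rw [nf1_eq]; exact nrm_unit_or _
    exact JJ_stepR0 hg hΦ₀
  have inner : ∀ r, ∫⁻ y, JJ (fun q => Φ (mixG η w (k + 1) (next S τ k s (r, y)) q.1,
        mixR η w τ (k + 1) (next S τ k s (r, y)) q.2)) * wtG η w (k + 1) (next S τ k s (r, y))
        * wtR η w τ (k + 1) (next S τ k s (r, y)) ∂((stdGaussian (Lb N)).prod (stdGaussian (Pl p)))
      = JJ (Φ₁ r) * (wtG η w k s * wtR η w τ k s) := by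
    intro r
    have hm2 := hm1.comp (measurable_prodMk_left (x := r) :
      Measurable (fun y : Lb N × Pl p => (r, y)))
    refine (lintegral_prod _ hm2.aemeasurable).trans ?_
    have e1 : ∀ l, ∫⁻ z, JJ (fun q => Φ (mixG η w (k + 1) (next S τ k s (r, l, z)) q.1,
        mixR η w τ (k + 1) (next S τ k s (r, l, z)) q.2)) * wtG η w (k + 1) (next S τ k s (r, l, z))
        * wtR η w τ (k + 1) (next S τ k s (r, l, z)) ∂(stdGaussian (Pl p))
        = (JJ (Φ₂ r l) * ENNReal.ofReal (gwt (A r) (C r) l)) * (wtG η w k s * wtR η w τ k s) := by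
      intro l
      simp_rw [key]
      rw [lintegral_mul_const' _ _ (ENNReal.mul_ne_top (ENNReal.mul_ne_top hfG
        ENNReal.ofReal_ne_top) hfR), step3]
      ring
    refine (lintegral_congr e1).trans ?_
    rw [lintegral_mul_const' _ _ (ENNReal.mul_ne_top hfG hfR), step2]
  refine (lintegral_congr inner).trans ?_
  rw [lintegral_mul_const' _ _ (ENNReal.mul_ne_top hfG hfR), step1]
  ring

end step

/-- The joint law of the Gaussian matrices in terms of the ideal process. -/
theorem dist_identity {S : ℕ → (ℕ → Ans N p) → Ans N p} (hS : ∀ k, Measurable (S k)) (k : ℕ)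
    {Φ : GM N p × RM N p → ℝ≥0∞} (hΦ : Measurable Φ) :
    ∫⁻ q, JJ (fun g => Φ (mixG η w k (st L S τ k q) g.1, mixR η w τ k (st L S τ k q) g.2))
      * wtG η w k (st L S τ k q) * wtR η w τ k (st L S τ k q) ∂(pathLaw N p k) = JJ Φ := by
  induction k with
  | zero =>
    have h0 : pathLaw N p 0 = @Measure.dirac Unit _ () := rfl
    rw [h0]
    have h1 : ∀ q : Path N p 0, JJ (fun g => Φ (mixG η w 0 (st L S τ 0 q) g.1,
        mixR η w τ 0 (st L S τ 0 q) g.2)) * wtG η w 0 (st L S τ 0 q) * wtR η w τ 0 (st L S τ 0 q)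
        = JJ Φ := by
      intro q
      have e1 : wtG η w 0 (st L S τ 0 q) = 1 := by simp [wtG]
      have e2 : wtR η w τ 0 (st L S τ 0 q) = 1 := by simp [wtR]
      have e3 : ∀ g : GM N p × RM N p, (mixG η w 0 (st L S τ 0 q) g.1,
        mixR η w τ 0 (st L S τ 0 q) g.2) = g := by
        intro g
        rw [mixG, mixR, mix_zero, Nat.mul_zero, mix_zero]
      rw [e1, e2]
      simp_rw [e3]
      simp
    simp_rw [h1]
    have : IsProbabilityMeasure (pathLaw N p 0) := instProbPathLaw N p 0
    rw [← h0]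
    simp
  | succ k ih =>
    have h0 : pathLaw N p (k + 1) = (pathLaw N p k).prod (innLaw N p) := rfl
    rw [h0]
    have hm := measurable_core η w τ (measSt_st (L := L) hS τ (k + 1)) (k + 1) hΦ
    rw [← ih]
    have h2 := lintegral_prod (μ := pathLaw N p k) (ν := innLaw N p) _ hm.aemeasurable
    refine Eq.trans h2 ?_
    apply lintegral_congr
    intro q
    exact ident_step η w τ hS (inv_st S τ k q) hΦ

end Pool.Agent.Helper97.LB
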