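import Mathlib
import Pool.Agent.Helper97.LB.Ident2

/-!
# The real run agrees with the ideal process
-/

set_option linter.unusedSectionVars false

open Finset MeasureTheory ProbabilityTheory
open scoped RealInnerProductSpace ENNReal

namespace Pool.Agent.Helper97.LB

variable {N p L : ℕ} [NeZero p] (η : ℝ) (w : Par p) (τ : ℝ)

/-- the hard matrix, as a map on pairs -/
noncomputable def act (G : GM N p) (R : RM N p) (q : Ans N p) : Ans N p :=
  (app G (q.2 + τ • app R q.1),
    cyc η w (q.2 + τ • app R q.1) - τ • app R (app G (q.2 + τ • app R q.1)))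

/-- the answers seen by the strategy `S` on the map `A` -/
def run (S : ℕ → (ℕ → Ans N p) → Ans N p) (A : Ans N p → Ans N p) : ℕ → ℕ → Ans N p
  | 0 => 0
  | k + 1 => Function.update (run S A k) k (A (S k (run S A k)))

variable {η w τ}

lemma app_comb {V : Type*} [NormedAddCommGroup V] [InnerProductSpace ℝ V] {X : Type*}
    [NormedAddCommGroup X] [InnerProductSpace ℝ X] {D : Type*} [Fintype D]
    (n : ℕ) (f : ℕ → V) (u : V) (y : ℕ → X) (M : Mat D X) :
    app M (comb n f u y) = comb n f u (fun i => app M (y i)) := by
  unfold comb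
  rw [app_sum_right]
  apply Finset.sum_congr rfl
  intro i _
  rw [app_smul_right]

lemma comb_congr' {V : Type*} [NormedAddCommGroup V] [InnerProductSpace ℝ V] {X : Type*}
    [NormedAddCommGroup X] [InnerProductSpace ℝ X] {n : ℕ} {f : ℕ → V} {u : V} {y z : ℕ → X}
    (h : ∀ i < n, f i ≠ 0 → y i = z i) : comb n f u y = comb n f u z := by
  unfold comb
  apply Finset.sum_congr rfl
  intro i hi
  rw [mem_range] at hi
  by_cases h0 : f i = 0
  · simp [h0]
  · rw [h i hi h0]

lemma comb_sub {V : Type*} [NormedAddCommGroup V] [InnerProductSpace ℝ V] {X : Type*}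
    [NormedAddCommGroup X] [InnerProductSpace ℝ X] {n : ℕ} {f : ℕ → V} {u : V} {y z : ℕ → X} :
    comb n f u (fun i => y i - z i) = comb n f u y - comb n f u z := by
  unfold comb
  rw [← Finset.sum_sub_distrib]
  apply Finset.sum_congr rfl
  intro i _
  rw [smul_sub]

/-- the mask of a vector in the span of the label directions -/
lemma mask_comb {R : RM N p} {n : ℕ} {f : ℕ → Lb N} {y : ℕ → Pl p} {D : ℕ → Hat (L + 1) p}
    (hR : ∀ i < n, f i ≠ 0 → τ • app R (f i) = τ • y i + proj η w (D i)) {u : Lb N}
    (hu : comb n f u f = u) :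
    τ • app R u = τ • comb n f u y + proj η w (comb n f u D) := by
  conv_lhs => rw [← hu]
  rw [app_comb, ← comb_smul, comb_linear (proj η w), ← comb_smul, ← comb_add]
  exact comb_congr' hR

lemma mask_lam {R : RM N p} {n : ℕ} {s : St N p L} (h : Inv n s)
    (hR : ∀ i < 2 * n, s.f i ≠ 0 → τ • app R (s.f i) = τ • s.y i + proj η w (s.D i))
    (hng : ∀ i < n, s.e i ≠ 0 → res (2 * i + 1) s.f (s.lam i) ≠ 0) {i : ℕ} (hi : i < n) :
    τ • app R (s.lam i)
      = τ • comb (2 * i + 2) s.f (s.lam i) s.y + proj η w (shift (s.e i)) := by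
  have hon : ON (2 * i + 1) s.f := h.onf.mono (by omega)
  have hex : comb (2 * i + 2) s.f (s.lam i) s.f = s.lam i := hon.expand (h.f_odd i hi)
  rw [mask_comb (L := L) (D := s.D) (fun j hj => hR j (by omega)) hex]
  congr 2
  by_cases hg : res (2 * i + 1) s.f (s.lam i) = 0
  · have he : s.e i = 0 := by
      by_contra h0
      exact hng i hi h0 hg
    have hl : s.lam i = 0 := by rw [h.lam i hi, he, norm_zero, zero_smul]
    rw [hl, he, comb_zero_vec]
    ext t x
    refine Fin.cases ?_ (fun j => ?_) t
    · rfl
    · rfl
  · rw [comb_succ, h.D_odd i hi, h.f_odd i hi, hon.inner_nrm_res, smul_smul,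
      mul_inv_cancel₀ (norm_ne_zero_iff.2 hg), one_smul]
    abel

lemma run_eq_hist {S : ℕ → (ℕ → Ans N p) → Ans N p} {G : GM N p} {R : RM N p} (k : ℕ)
    (hk : k ≤ L) (q : Path N p k)
    (hG : ∀ i < k, app G (proj η w ((st L S τ k q).e i)) = (st L S τ k q).lam i)
    (hR : ∀ i < 2 * k, (st L S τ k q).f i ≠ 0 → τ • app R ((st L S τ k q).f i)
      = τ • (st L S τ k q).y i + proj η w ((st L S τ k q).D i))
    (hng : ∀ i < k, (st L S τ k q).e i ≠ 0 →
      res (2 * i + 1) (st L S τ k q).f ((st L S τ k q).lam i) ≠ 0) :
    run S (act η w τ G R) k = (st L S τ k q).hist := by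
  induction k with
  | zero => rfl
  | succ k ih =>
    set s := st L S τ k q.1 with hs
    set x := q.2 with hx
    have hst : st L S τ (k + 1) q = next S τ k s x := rfl
    rw [hst] at hG hR hng ⊢
    have hinv : Inv k s := inv_st S τ k q.1
    have hinv' : Inv (k + 1) (next S τ k s x) := hinv.next
    have ih' : run S (act η w τ G R) k = s.hist := by
      apply ih (by omega) q.1
      · intro i hi
        have := hG i (by omega)
        rw [show (next S τ k s x).e i = s.e i from ne_lt hi,
          show (next S τ k s x).lam i = s.lam i from nlam_lt hi] at this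
        exact this
      · intro i hi
        have := hR i (by omega)
        rw [show (next S τ k s x).f i = s.f i from nf_lt hi,
          show (next S τ k s x).y i = s.y i from ny_lt hi,
          show (next S τ k s x).D i = s.D i from nD_lt hi] at this
        exact this
      · intro i hi
        have := hng i (by omega)
        have e1 : res (2 * i + 1) (next S τ k s x).f (s.lam i) = res (2 * i + 1) s.f (s.lam i) :=
          res_congr (fun j hj => nf_lt (by omega)) rfl
        rw [show (next S τ k s x).e i = s.e i from ne_lt hi,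
          show (next S τ k s x).lam i = s.lam i from nlam_lt hi, e1] at this
        exact this
    rw [run, ih']
    show Function.update s.hist k (act η w τ G R (S k s.hist)) = nh S τ k s x
    unfold nh
    congr 1
    -- the query as a realized orbit
    have hf1 : comb (2 * k + 1) (nf1 S k s) (S k s.hist).1 (nf1 S k s) = (S k s.hist).1 := by
      have hon : ON (2 * k) (nf1 S k s) := hinv.onf.congr fun i hi => (nf1_lt hi).symm
      apply hon.expand
      rw [nf1_eq]
      congr 1
      exact res_congr (fun i hi => (nf1_lt hi).symm) rfl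
    have hb : (S k s.hist).2 + τ • app R (S k s.hist).1 = proj η w (nb S τ k s x) := by
      have hR1 : ∀ i < 2 * k + 1, nf1 S k s i ≠ 0 → τ • app R (nf1 S k s i)
          = τ • ny1 k s x i + proj η w (nD1 k s i) := by
        intro i hi h0
        have h1 := hR i (by omega)
        rw [show (next S τ k s x).f i = nf1 S k s i from nf_nf1 hi,
          show (next S τ k s x).y i = ny1 k s x i from ny_ny1 hi,
          show (next S τ k s x).D i = nD1 k s i from nD_nD1 hi] at h1
        exact h1 h0
      rw [mask_comb hR1 hf1, nb, map_add, proj_iota]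
      abel
    have hexp : comb (k + 1) (ne S τ k s x) (nb S τ k s x) (ne S τ k s x) = nb S τ k s x := by
      have hon : ON k (ne S τ k s x) := hinv.one.congr fun i hi => (ne_lt hi).symm
      apply hon.expand
      rw [ne_eq]
      congr 1
      exact res_congr (fun i hi => (ne_lt hi).symm) rfl
    have hb2 : proj η w (nb S τ k s x)
        = comb (k + 1) (ne S τ k s x) (nb S τ k s x) (fun i => proj η w (ne S τ k s x i)) := by
      conv_lhs => rw [← hexp]
      rw [comb_linear (proj η w)]
    have hl : app G (proj η w (nb S τ k s x))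
        = comb (k + 1) (ne S τ k s x) (nb S τ k s x) (nlam S τ k s x) := by
      rw [hb2, app_comb]
      exact comb_congr' fun i hi _ => hG i hi
    unfold act
    rw [hb, hl]
    congr 1
    rw [app_comb, ← comb_smul]
    have hc : cyc η w (proj η w (nb S τ k s x)) = comb (k + 1) (ne S τ k s x) (nb S τ k s x)
        (fun i => proj η w (shift (ne S τ k s x i))) := by
      rw [hb2, comb_linear (cyc η w)]
      apply comb_congr'
      intro i hi _
      rw [proj_shift]
      exact hinv'.slot_e i hi (Fin.last L) (by simp; omega)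
    rw [hc, ← comb_sub]
    apply comb_congr'
    intro i hi _
    have h1 : τ • app R (nlam S τ k s x i) = τ • comb (2 * i + 2) (nf S τ k s x)
        (nlam S τ k s x i) (ny k s x) + proj η w (shift (ne S τ k s x i)) :=
      mask_lam hinv' hR hng hi
    rw [h1, zt]
    abel

end Pool.Agent.Helper97.LB
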