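import Mathlib
import Pool.Agent.Helper97.LB.Run

/-!
# Deterministic estimates on the good event
-/

set_option linter.unusedSectionVars false

open Finset MeasureTheory ProbabilityTheory
open scoped RealInnerProductSpace ENNReal

namespace Pool.Agent.Helper97.LB

section gsq

variable {V : Type*} [NormedAddCommGroup V] [InnerProductSpace ℝ V]
  {E' : Type*} [NormedAddCommGroup E'] [InnerProductSpace ℝ E']
  {X : Type*} [NormedAddCommGroup X] [InnerProductSpace ℝ X]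

/-- nearly orthonormal families -/
structure Near (K : ℕ) (ε : ℝ) (e : ℕ → E') (w : ℕ → V) : Prop where
  eps_nonneg : 0 ≤ ε
  eps_small : 16 * K * ε ≤ 1
  on : ON K e
  gram : ∀ i < K, ∀ j < K, |⟪w i, w j⟫ - ⟪e i, e j⟫| ≤ ε
  zero : ∀ i < K, e i = 0 → w i = 0

variable {K : ℕ} {ε : ℝ} {e : ℕ → E'} {w : ℕ → V}

lemma rn_eq_zero_of {k : ℕ} (h : w k = 0) : rn w k = 0 := by
  unfold rn
  rw [h, res_zero_vec, norm_zero]

lemma gs_eq_zero_of {k : ℕ} (h : w k = 0) : gs w k = 0 := by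
  rw [gs_eq, h, res_zero_vec, nrm_zero]

lemma rn_sq (w : ℕ → V) (k : ℕ) :
    rn w k ^ 2 = ‖w k‖ ^ 2 - ∑ i ∈ range k, ⟪gs w i, w k⟫ ^ 2 :=
  (gs_ON w k).norm_sq_res (w k)

lemma sum_small {k : ℕ} (hK : (k : ℝ) ≤ K) (h : Near K ε e w) {a : ℕ → ℝ}
    (ha : ∀ i < k, |a i| ≤ 16 * ε ^ 2) : |∑ i ∈ range k, a i| ≤ ε := by
  have h1 : |∑ i ∈ range k, a i| ≤ ∑ i ∈ range k, 16 * ε ^ 2 :=
    (Finset.abs_sum_le_sum_abs _ _).trans (Finset.sum_le_sum fun i hi => ha i (mem_range.1 hi))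
  rw [Finset.sum_const, card_range, nsmul_eq_mul] at h1
  have h2 := h.eps_small
  have h3 := h.eps_nonneg
  nlinarith [mul_nonneg (sub_nonneg.2 hK) (sq_nonneg ε)]

lemma Near.eps_le (h : Near K ε e w) (hK : 0 < K) : ε ≤ 1 / 16 := by
  have h1 : (1 : ℝ) ≤ K := by exact_mod_cast hK
  have h2 := h.eps_small
  have h3 := h.eps_nonneg
  nlinarith

lemma Near.norm_w (h : Near K ε e w) {k : ℕ} (hk : k < K) (he : e k ≠ 0) :
    |‖w k‖ ^ 2 - 1| ≤ ε := by
  have h1 := h.gram k hk k hk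
  rw [real_inner_self_eq_norm_sq, real_inner_self_eq_norm_sq] at h1
  rcases h.on.1 k hk with h2 | h2
  · rw [h2] at h1; simpa using h1
  · exact absurd h2 he

lemma Near.main (h : Near K ε e w) (i : ℕ) : ∀ k < K, i < k → |⟪gs w i, w k⟫| ≤ 4 * ε := by
  induction i using Nat.strong_induction_on with
  | _ i ih =>
    intro k hk hik
    have h0 := h.eps_nonneg
    have hi : i < K := hik.trans hk
    have hK : 0 < K := by omega
    have h16 := h.eps_le hK
    by_cases he : e i = 0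
    · rw [gs_eq_zero_of (h.zero i hi he), inner_zero_left, abs_zero]
      linarith
    · have hsq : ∀ j < i, |⟪gs w j, w i⟫ ^ 2| ≤ 16 * ε ^ 2 := by
        intro j hj
        rw [abs_pow]
        have := ih j hj i hi hj
        nlinarith [abs_nonneg ⟪gs w j, w i⟫]
      have hiK : (i : ℝ) ≤ K := by exact_mod_cast hi.le
      have h1 := sum_small hiK h hsq
      have h2 := h.norm_w hi he
      have h3 := rn_sq w i
      have h4 : 1 / 4 ≤ rn w i ^ 2 := by
        rw [h3]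
        have := abs_le.1 h1
        have := abs_le.1 h2
        linarith
      have hrn0 : 0 ≤ rn w i := norm_nonneg _
      have h5 : 1 / 2 ≤ rn w i := by nlinarith
      have h6 : ⟪gs w i, w k⟫ = (rn w i)⁻¹ * (⟪w i, w k⟫
          - ∑ j ∈ range i, ⟪gs w j, w i⟫ * ⟪gs w j, w k⟫) := by
        rw [gs_eq]
        rw [nrm, real_inner_smul_left]
        congr 1
        rw [res, inner_sub_left, comb, sum_inner]
        congr 1
        apply Finset.sum_congr rfl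
        intro j _
        rw [real_inner_smul_left]
      have h7 : ∀ j < i, |⟪gs w j, w i⟫ * ⟪gs w j, w k⟫| ≤ 16 * ε ^ 2 := by
        intro j hj
        rw [abs_mul]
        have a1 := ih j hj i hi hj
        have a2 := ih j hj k hk (hj.trans hik)
        nlinarith [abs_nonneg ⟪gs w j, w i⟫, abs_nonneg ⟪gs w j, w k⟫]
      have h8 := sum_small hiK h h7
      have h9 : |⟪w i, w k⟫| ≤ ε := by
        have := h.gram i hi k hk
        rwa [h.on.2 i hi k hk (by omega), sub_zero] at this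
      rw [h6, abs_mul]
      have h10 : |⟪w i, w k⟫ - ∑ j ∈ range i, ⟪gs w j, w i⟫ * ⟪gs w j, w k⟫| ≤ 2 * ε := by
        have := abs_sub ⟪w i, w k⟫ (∑ j ∈ range i, ⟪gs w j, w i⟫ * ⟪gs w j, w k⟫)
        linarith
      have h11 : |(rn w i)⁻¹| ≤ 2 := by
        rw [abs_of_nonneg (inv_nonneg.2 hrn0)]
        rw [inv_le_comm₀ (by linarith) (by norm_num)]
        linarith
      calc _ ≤ 2 * (2 * ε) := mul_le_mul h11 h10 (abs_nonneg _) (by norm_num)
        _ = 4 * ε := by ring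

lemma Near.rn_bounds (h : Near K ε e w) {k : ℕ} (hk : k < K) (he : e k ≠ 0) :
    1 - 2 * ε ≤ rn w k ^ 2 ∧ rn w k ^ 2 ≤ 1 + ε := by
  have hsq : ∀ j < k, |⟪gs w j, w k⟫ ^ 2| ≤ 16 * ε ^ 2 := by
    intro j hj
    rw [abs_pow]
    have := h.main j k hk hj
    nlinarith [abs_nonneg ⟪gs w j, w k⟫]
  have h1 := sum_small (by exact_mod_cast hk.le) h hsq
  have h2 := h.norm_w hk he
  rw [rn_sq]
  have a1 := abs_le.1 h1
  have a2 := abs_le.1 h2
  have a3 : 0 ≤ ∑ i ∈ range k, ⟪gs w i, w k⟫ ^ 2 := Finset.sum_nonneg fun _ _ => sq_nonneg _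
  constructor <;> linarith

lemma Near.rn_half (h : Near K ε e w) {k : ℕ} (hk : k < K) (he : e k ≠ 0) : 1 / 2 ≤ rn w k := by
  have h1 := (h.rn_bounds hk he).1
  have h2 := h.eps_le (by omega)
  have hrn0 : 0 ≤ rn w k := norm_nonneg _
  nlinarith

lemma norm_comb_le_of (n : ℕ) (f : ℕ → V) (u : V) (y : ℕ → X) {a b : ℝ} (_hb : 0 ≤ b)
    (ha : ∀ i < n, |⟪f i, u⟫| ≤ a) (hy : ∀ i < n, ‖y i‖ ≤ b) : ‖comb n f u y‖ ≤ n * (a * b) := by
  unfold comb
  refine (norm_sum_le _ _).trans ?_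
  have : ∀ i ∈ range n, ‖⟪f i, u⟫ • y i‖ ≤ a * b := by
    intro i hi
    rw [mem_range] at hi
    rw [norm_smul, Real.norm_eq_abs]
    have h1 := ha i hi
    exact mul_le_mul h1 (hy i hi) (norm_nonneg _) ((abs_nonneg _).trans h1)
  refine (Finset.sum_le_sum this).trans ?_
  simp

lemma Near.lamp_bound (h : Near K ε e w) {raw : ℕ → X} {M : ℝ} (hM : ∀ i < K, ‖raw i‖ ≤ M)
    (k : ℕ) (hk : k < K) : ‖lamp w raw k‖ ≤ 4 * M := by
  induction k using Nat.strong_induction_on with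
  | _ k ih =>
    have hM0 : 0 ≤ M := (norm_nonneg _).trans (hM k hk)
    rw [lamp_eq]
    split_ifs with hr
    · exact (hM k hk).trans (by linarith)
    · have he : e k ≠ 0 := by
        intro he
        exact hr (rn_eq_zero_of (h.zero k hk he))
      have h5 := h.rn_half hk he
      have h11 : (rn w k)⁻¹ ≤ 2 := by
        rw [inv_le_comm₀ (by linarith) (by norm_num)]
        linarith
      have h12 : ‖comb k (gs w) (w k) (lamp w raw)‖ ≤ k * (4 * ε * (4 * M)) :=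
        norm_comb_le_of k (gs w) (w k) _ (by linarith) (fun i hi => h.main i k hk hi)
          (fun i hi => ih i hi (by omega))
      have h13 : (k : ℝ) * (4 * ε * (4 * M)) ≤ M := by
        have hkK : (k : ℝ) ≤ K := by exact_mod_cast hk.le
        have h2 := h.eps_small
        have h3 := h.eps_nonneg
        have h4 : 16 * (k : ℝ) * ε ≤ 1 := by nlinarith
        nlinarith
      rw [norm_smul, norm_inv, Real.norm_eq_abs, abs_of_nonneg (show 0 ≤ rn w k from norm_nonneg _)]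
      have h14 : ‖raw k - comb k (gs w) (w k) (lamp w raw)‖ ≤ 2 * M := by
        have := norm_sub_le (raw k) (comb k (gs w) (w k) (lamp w raw))
        have := hM k hk
        linarith
      calc _ ≤ 2 * (2 * M) := mul_le_mul h11 h14 (norm_nonneg _) (by norm_num)
        _ = 4 * M := by ring

lemma Near.ccoef_bound (h : Near K ε e w) {raw : ℕ → X} {M : ℝ} (hM : ∀ i < K, ‖raw i‖ ≤ M)
    (k : ℕ) (hk : k < K) : ‖ccoef w raw k‖ ≤ 32 * K * ε * M := by
  have hM0 : 0 ≤ M := (norm_nonneg _).trans (hM k hk)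
  have h3 := h.eps_nonneg
  unfold ccoef
  split_ifs with hr
  · rw [norm_zero]; positivity
  · have he : e k ≠ 0 := by
      intro he
      exact hr (rn_eq_zero_of (h.zero k hk he))
    have h5 := h.rn_half hk he
    have h11 : (rn w k)⁻¹ ≤ 2 := by
      rw [inv_le_comm₀ (by linarith) (by norm_num)]
      linarith
    have h12 : ‖comb k (gs w) (w k) (lamp w raw)‖ ≤ k * (4 * ε * (4 * M)) :=
      norm_comb_le_of k (gs w) (w k) _ (by linarith) (fun i hi => h.main i k hk hi)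
        (fun i hi => h.lamp_bound hM i (by omega))
    have hkK : (k : ℝ) ≤ K := by exact_mod_cast hk.le
    have h13 : (k : ℝ) * (4 * ε * (4 * M)) ≤ K * (4 * ε * (4 * M)) := by gcongr
    rw [norm_neg, norm_smul, norm_inv, Real.norm_eq_abs,
      abs_of_nonneg (show 0 ≤ rn w k from norm_nonneg _)]
    calc _ ≤ 2 * (K * (4 * ε * (4 * M))) :=
          mul_le_mul h11 (h12.trans h13) (norm_nonneg _) (by norm_num)
      _ = _ := by ring

lemma Near.acoef_bounds (h : Near K ε e w) (k : ℕ) (hk : k < K) :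
    1 - ε ≤ acoef w k ∧ acoef w k ^ 2 ≤ 1 + 4 * ε ∧ acoef w k ≤ 2 := by
  have h3 := h.eps_nonneg
  have h16 := h.eps_le (by omega)
  unfold acoef
  split_ifs with hr
  · refine ⟨by linarith, by linarith, by norm_num⟩
  · have he : e k ≠ 0 := by
      intro he
      exact hr (rn_eq_zero_of (h.zero k hk he))
    have h5 := h.rn_half hk he
    have h6 := h.rn_bounds hk he
    have hpos : 0 < rn w k := by linarith
    have h11 : (rn w k)⁻¹ ≤ 2 := by
      rw [inv_le_comm₀ hpos (by norm_num)]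
      linarith
    have h7 : rn w k ≤ 1 + ε := by nlinarith
    refine ⟨?_, ?_, h11⟩
    · have : (1 + ε)⁻¹ ≤ (rn w k)⁻¹ := inv_anti₀ hpos h7
      have h8 : 1 - ε ≤ (1 + ε)⁻¹ := by
        rw [le_inv_comm₀ (by linarith) (by linarith), ← one_div, le_div_iff₀ (by linarith)]
        nlinarith
      linarith
    · rw [inv_pow]
      rw [inv_le_comm₀ (by positivity) (by linarith), ← one_div, div_le_iff₀ (by linarith)]
      nlinarith

end gsq

section gwtbounds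

variable {V : Type*} [NormedAddCommGroup V] [InnerProductSpace ℝ V] [FiniteDimensional ℝ V]

lemma gwt_lower {a M γ ε : ℝ} {c y : V} (ha0 : 1 - ε ≤ a) (hε1 : ε ≤ 1) (hε0 : 0 ≤ ε)
    (ha1 : a ^ 2 ≤ 1 + 4 * ε)
    (ha2 : a ≤ 2) (hy : ‖y‖ ≤ M) (hc : ‖c‖ ≤ γ) :
    1 - Module.finrank ℝ V * ε - (4 * ε * M ^ 2 + 4 * M * γ + γ ^ 2) / 2 ≤ gwt a c y := by
  have hM0 : 0 ≤ M := (norm_nonneg _).trans hy
  have hγ0 : 0 ≤ γ := (norm_nonneg _).trans hc
  have ha : 0 ≤ a := by linarith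
  unfold gwt
  set n := Module.finrank ℝ V
  have h1 : 1 - n * ε ≤ a ^ n := by
    have e1 : (1 - ε) ^ n ≤ a ^ n := pow_le_pow_left₀ (by linarith) ha0 n
    have e2 := one_add_mul_le_pow (a := -ε) (by linarith) n
    have e3 : (1 : ℝ) + n * (-ε) = 1 - n * ε := by ring
    rw [e3] at e2
    have e4 : (1 : ℝ) + -ε = 1 - ε := by ring
    rw [e4] at e2
    linarith
  have h2 : ‖a • y + c‖ ^ 2 ≤ ‖y‖ ^ 2 + (4 * ε * M ^ 2 + 4 * M * γ + γ ^ 2) := by
    have e1 : ‖a • y + c‖ ≤ a * ‖y‖ + ‖c‖ := by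
      refine (norm_add_le _ _).trans ?_
      rw [norm_smul, Real.norm_eq_abs, abs_of_nonneg ha]
    have hy0 := norm_nonneg y
    have hc0 := norm_nonneg c
    have e2 : ‖a • y + c‖ ^ 2 ≤ (a * ‖y‖ + ‖c‖) ^ 2 := pow_le_pow_left₀ (norm_nonneg _) e1 2
    have e3 : (a * ‖y‖ + ‖c‖) ^ 2 = a ^ 2 * ‖y‖ ^ 2 + 2 * (a * ‖y‖ * ‖c‖) + ‖c‖ ^ 2 := by ring
    have e4 : a ^ 2 * ‖y‖ ^ 2 ≤ (1 + 4 * ε) * ‖y‖ ^ 2 :=
      mul_le_mul_of_nonneg_right ha1 (sq_nonneg _)
    have e5 : ‖y‖ ^ 2 ≤ M ^ 2 := pow_le_pow_left₀ hy0 hy 2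
    have e6 : a * ‖y‖ * ‖c‖ ≤ 2 * M * γ := by
      have : a * ‖y‖ ≤ 2 * M := mul_le_mul ha2 hy hy0 (by norm_num)
      exact mul_le_mul this hc hc0 (by positivity)
    have e7 : ‖c‖ ^ 2 ≤ γ ^ 2 := pow_le_pow_left₀ hc0 hc 2
    nlinarith
  have h3 : 1 - (4 * ε * M ^ 2 + 4 * M * γ + γ ^ 2) / 2
      ≤ Real.exp (-‖a • y + c‖ ^ 2 / 2 + ‖y‖ ^ 2 / 2) := by
    have := Real.add_one_le_exp (-‖a • y + c‖ ^ 2 / 2 + ‖y‖ ^ 2 / 2)
    linarith
  have hδ : 0 ≤ (4 * ε * M ^ 2 + 4 * M * γ + γ ^ 2) / 2 := by positivity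
  set δ := (4 * ε * M ^ 2 + 4 * M * γ + γ ^ 2) / 2
  have hexp := Real.exp_pos (-‖a • y + c‖ ^ 2 / 2 + ‖y‖ ^ 2 / 2)
  have hpow : 0 ≤ a ^ n := pow_nonneg ha n
  by_cases hcase : 0 ≤ 1 - n * ε ∧ 0 ≤ 1 - δ
  · have : (1 - n * ε) * (1 - δ) ≤ a ^ n * Real.exp (-‖a • y + c‖ ^ 2 / 2 + ‖y‖ ^ 2 / 2) :=
      mul_le_mul h1 h3 hcase.2 hpow
    have hn : 0 ≤ n * ε * δ := by positivity
    linarith [this, hn, show (1 - n * ε) * (1 - δ) = 1 - n * ε - δ + n * ε * δ by ring]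
  · have hpos : 0 ≤ a ^ n * Real.exp (-‖a • y + c‖ ^ 2 / 2 + ‖y‖ ^ 2 / 2) := by positivity
    have hn : 0 ≤ (n : ℝ) * ε := by positivity
    rw [not_and_or, not_le, not_le] at hcase
    rcases hcase with hcase | hcase <;> linarith

lemma gwt_one_lower {M γ : ℝ} {c y : V} (hy : ‖y‖ ≤ M) (hc : ‖c‖ ≤ γ) :
    1 - (4 * M * γ + γ ^ 2) / 2 ≤ gwt 1 c y := by
  have h := gwt_lower (a := 1) (ε := 0) (M := M) (γ := γ) (c := c) (y := y) (by norm_num)
    (by norm_num) le_rfl (by norm_num) (by norm_num) hy hc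
  simpa using h

end gwtbounds

lemma prod_one_sub_le (n : ℕ) {δ : ℝ} (_hδ0 : 0 ≤ δ) (hδ1 : δ ≤ 1) {a : ℕ → ℝ}
    (h : ∀ i < n, 1 - δ ≤ a i) : 1 - n * δ ≤ ∏ i ∈ range n, a i := by
  have h1 : (1 - δ) ^ n ≤ ∏ i ∈ range n, a i := by
    have := Finset.prod_le_prod (s := range n) (f := fun _ => 1 - δ) (g := a)
      (fun i _ => by linarith) (fun i hi => h i (mem_range.1 hi))
    simpa using this
  have e2 := one_add_mul_le_pow (a := -δ) (by linarith) n
  have e3 : (1 : ℝ) + n * (-δ) = 1 - n * δ := by ring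
  have e4 : (1 : ℝ) + -δ = 1 - δ := by ring
  rw [e3, e4] at e2
  linarith

end Pool.Agent.Helper97.LB
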