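import Mathlib
import Pool.Agent.Helper97.LB.Det

/-!
# The good event
-/

set_option linter.unusedSectionVars false

open Finset MeasureTheory ProbabilityTheory
open scoped RealInnerProductSpace ENNReal

namespace Pool.Agent.Helper97.LB

variable {N p L : ℕ} [NeZero p]

/-- the innovations of round `i` are typical -/
def okR (K : ℕ) (s : St N p L) (i : ℕ) : Prop :=
  ‖s.raw i‖ ^ 2 ≤ 100 * K * N ∧ 3 / 8 * (N : ℝ) ≤ ‖s.raw i‖ ^ 2 ∧
    ∑ j ∈ range (2 * i + 1), ⟪s.f j, s.raw i⟫ ^ 2 ≤ N / (8 * K) ∧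
    ‖s.y (2 * i + 1)‖ ^ 2 ≤ 100 * K * p

/-- the good event -/
def Good (K k : ℕ) (s : St N p L) : Prop := ∀ i < k, okR K s i

/-- the realized Gram matrix is close to the formal one -/
def Gr (K : ℕ) (ε : ℝ) (η : ℝ) (w : Par p) (s : St N p L) : Prop :=
  ∀ i < K, ∀ j < K, |⟪wv η w s.e i, wv η w s.e j⟫ - ⟪s.e i, s.e j⟫| ≤ ε

variable {K : ℕ} {s : St N p L}

lemma Inv.lam_of_ne (h : Inv K s) {i : ℕ} (hi : i < K) (he : s.e i ≠ 0) : s.lam i = s.raw i := by
  rw [h.lam i hi]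
  rcases h.one.1 i hi with h1 | h1
  · rw [h1, one_smul]
  · exact absurd h1 he

lemma Inv.lam_of_eq (h : Inv K s) {i : ℕ} (hi : i < K) (he : s.e i = 0) : s.lam i = 0 := by
  rw [h.lam i hi, he, norm_zero, zero_smul]

lemma good_res (hK : 1 ≤ K) (h : Inv K s) (hg : Good K K s) {i : ℕ} (hi : i < K)
    (he : s.e i ≠ 0) : (N : ℝ) / 4 ≤ ‖res (2 * i + 1) s.f (s.lam i)‖ ^ 2 := by
  have hon : ON (2 * i + 1) s.f := h.onf.mono (by omega)
  rw [hon.norm_sq_res, h.lam_of_ne hi he]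
  obtain ⟨_, h2, h3, _⟩ := hg i hi
  have hK' : (1 : ℝ) ≤ K := by exact_mod_cast hK
  have hN : (0 : ℝ) ≤ N := Nat.cast_nonneg _
  have h4 : (N : ℝ) / (8 * K) ≤ N / 8 := by
    apply div_le_div_of_nonneg_left hN (by norm_num) (by linarith)
  linarith

lemma norm_shift_sq_le (x : Hat (L + 1) p) : ‖shift x‖ ^ 2 ≤ ‖x‖ ^ 2 :=
  pow_le_pow_left₀ (norm_nonneg _) (norm_shift_le x) 2

lemma good_D_step (hK : 1 ≤ K) (hN : 1 ≤ N) (h : Inv K s) (hg : Good K K s) {k : ℕ} (hk : k < K) :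
    ‖s.D (2 * k + 1)‖ ^ 2 ≤ 8 / N + (1 / K) * ∑ j ∈ range (2 * k), ‖s.D j‖ ^ 2 := by
  have hK' : (1 : ℝ) ≤ K := by exact_mod_cast hK
  have hN' : (1 : ℝ) ≤ N := by exact_mod_cast hN
  have hT : 0 ≤ ∑ j ∈ range (2 * k), ‖s.D j‖ ^ 2 := Finset.sum_nonneg fun _ _ => sq_nonneg _
  by_cases he : s.e k = 0
  · have hl := h.lam_of_eq hk he
    rw [h.D_odd k hk, hl, res_zero_vec, norm_zero, inv_zero, zero_smul, norm_zero,
      zero_pow two_ne_zero]
    positivity
  · have hr := good_res hK h hg hk he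
    rw [h.D_odd k hk, norm_smul, norm_inv, norm_norm, mul_pow, inv_pow]
    have e1 : ‖shift (s.e k) - comb (2 * k + 1) s.f (s.lam k) s.D‖ ^ 2
        ≤ 2 + 2 * (N / (8 * K) * ∑ j ∈ range (2 * k), ‖s.D j‖ ^ 2) := by
      have a1 : ‖shift (s.e k) - comb (2 * k + 1) s.f (s.lam k) s.D‖
          ≤ ‖shift (s.e k)‖ + ‖comb (2 * k + 1) s.f (s.lam k) s.D‖ := norm_sub_le _ _
      have a2 : ‖shift (s.e k)‖ ^ 2 ≤ 1 := by
        refine (norm_shift_sq_le _).trans ?_
        rcases h.one.1 k hk with h1 | h1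
        · rw [h1]; norm_num
        · exact absurd h1 he
      have a3 : ‖comb (2 * k + 1) s.f (s.lam k) s.D‖ ^ 2
          ≤ N / (8 * K) * ∑ j ∈ range (2 * k), ‖s.D j‖ ^ 2 := by
        refine (norm_comb_sq_le _ _ _ _).trans ?_
        rw [Finset.sum_range_succ (fun j => ‖s.D j‖ ^ 2), h.D_even k hk, norm_zero,
          zero_pow two_ne_zero, add_zero]
        apply mul_le_mul_of_nonneg_right _ hT
        rw [h.lam_of_ne hk he]
        exact (hg k hk).2.2.1
      have a4 := pow_le_pow_left₀ (norm_nonneg _) a1 2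
      nlinarith [sq_nonneg (‖shift (s.e k)‖ - ‖comb (2 * k + 1) s.f (s.lam k) s.D‖)]
    have e2 : (‖res (2 * k + 1) s.f (s.lam k)‖ ^ 2)⁻¹ ≤ 4 / N := by
      rw [inv_le_comm₀ (by linarith) (by positivity), inv_div]
      exact hr
    calc _ ≤ 4 / (N : ℝ) * (2 + 2 * (N / (8 * K) * ∑ j ∈ range (2 * k), ‖s.D j‖ ^ 2)) :=
          mul_le_mul e2 e1 (sq_nonneg _) (by positivity)
      _ = _ := by
          field_simp
          ring

lemma good_D_sum (hK : 1 ≤ K) (hN : 1 ≤ N) (h : Inv K s) (hg : Good K K s) (k : ℕ) (hk : k ≤ K) :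
    (∑ j ∈ range (2 * k), ‖s.D j‖ ^ 2) + 8 * K / N ≤ 8 * K / N * (1 + 1 / K) ^ k := by
  have hK' : (1 : ℝ) ≤ K := by exact_mod_cast hK
  have hN' : (1 : ℝ) ≤ N := by exact_mod_cast hN
  induction k with
  | zero => simp
  | succ k ih =>
    have ih' := ih (by omega)
    have e1 : 2 * (k + 1) = 2 * k + 1 + 1 := by ring
    rw [e1, sum_range_succ, sum_range_succ, h.D_even k (by omega), norm_zero,
      zero_pow two_ne_zero, add_zero]
    have h2 := good_D_step hK hN h hg (k := k) (by omega)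
    have h3 : ((∑ j ∈ range (2 * k), ‖s.D j‖ ^ 2) + 8 * K / N) * (1 + 1 / K)
        ≤ 8 * K / N * (1 + 1 / K) ^ (k + 1) := by
      rw [pow_succ, ← mul_assoc]
      exact mul_le_mul_of_nonneg_right ih' (by positivity)
    have h4 : ((∑ j ∈ range (2 * k), ‖s.D j‖ ^ 2) + 8 * K / N) * (1 + 1 / K)
        = (∑ j ∈ range (2 * k), ‖s.D j‖ ^ 2) + 8 * K / N
          + (8 / N + (1 / K) * ∑ j ∈ range (2 * k), ‖s.D j‖ ^ 2) := by
      field_simp
      ring
    linarith

lemma one_add_inv_pow_le (K : ℕ) (hK : 1 ≤ K) : (1 + 1 / (K : ℝ)) ^ K ≤ 3 := by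
  have hK' : (1 : ℝ) ≤ K := by exact_mod_cast hK
  have h1 : (1 + 1 / (K : ℝ)) ≤ Real.exp (1 / K) := by
    have := Real.add_one_le_exp (1 / (K : ℝ))
    linarith
  have h2 : (1 + 1 / (K : ℝ)) ^ K ≤ Real.exp (1 / K) ^ K :=
    pow_le_pow_left₀ (by positivity) h1 K
  rw [← Real.exp_nat_mul] at h2
  have h3 : (K : ℝ) * (1 / K) = 1 := by field_simp
  rw [h3] at h2
  have := Real.exp_one_lt_d9
  linarith

lemma good_D (hK : 1 ≤ K) (hN : 16 * K ≤ N) (h : Inv K s) (hg : Good K K s) {i : ℕ}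
    (hi : i < 2 * K) : ‖s.D i‖ ≤ 1 := by
  have hK' : (1 : ℝ) ≤ K := by exact_mod_cast hK
  have hN1 : 1 ≤ N := by omega
  have hN' : (1 : ℝ) ≤ N := by exact_mod_cast hN1
  have h1 := good_D_sum hK hN1 h hg K le_rfl
  have h2 := one_add_inv_pow_le K hK
  have h3 : ‖s.D i‖ ^ 2 ≤ ∑ j ∈ range (2 * K), ‖s.D j‖ ^ 2 :=
    Finset.single_le_sum (f := fun j => ‖s.D j‖ ^ 2) (fun _ _ => sq_nonneg _) (mem_range.2 hi)
  have h4 : 8 * (K : ℝ) / N * (1 + 1 / K) ^ K ≤ 8 * K / N * 3 :=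
    mul_le_mul_of_nonneg_left h2 (by positivity)
  have h5 : 8 * (K : ℝ) / N * 2 ≤ 1 := by
    rw [div_mul_eq_mul_div, div_le_one (by positivity)]
    have : (16 : ℝ) * K ≤ N := by exact_mod_cast hN
    linarith
  have h6 : ‖s.D i‖ ^ 2 ≤ 1 := by linarith
  nlinarith [norm_nonneg (s.D i)]

section near

variable {ε η : ℝ} {w : Par p}

lemma near_of_gr (hε : 0 ≤ ε) (hs : 16 * K * ε ≤ 1) (h : Inv K s) (hg : Gr K ε η w s) :
    Near K ε s.e (wv η w s.e) :=
  ⟨hε, hs, h.one, hg, fun i _ he => by rw [wv, he, map_zero]⟩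

/-- lower bound for the label weight -/
lemma wtG_lower (hN : 1 ≤ N) (hε : ε = 1 / (2000000 * K ^ 3 * N)) (hK : 1 ≤ K)
    (h : Inv K s) (hg : Good K K s) (hgr : Gr K ε η w s) :
    ENNReal.ofReal 0.995 ≤ wtG η w K s := by
  have hK' : (1 : ℝ) ≤ K := by exact_mod_cast hK
  have hN' : (1 : ℝ) ≤ N := by exact_mod_cast hN
  have hε0 : 0 ≤ ε := by rw [hε]; positivity
  have hεN : 2000000 * (K : ℝ) ^ 3 * N * ε = 1 := by
    rw [hε]; field_simp
  have hK3 : (K : ℝ) ≤ K ^ 3 := by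
    nlinarith [mul_nonneg (sub_nonneg.2 hK') (sub_nonneg.2 hK'), sq_nonneg ((K : ℝ) - 1)]
  have hs : 16 * K * ε ≤ 1 := by
    have h1 : (K : ℝ) * ε ≤ K ^ 3 * N * ε := by
      have : (K : ℝ) ≤ K ^ 3 * N := by nlinarith
      exact mul_le_mul_of_nonneg_right this hε0
    nlinarith
  have hnear := near_of_gr hε0 hs h hgr
  unfold wtG
  rw [← ENNReal.ofReal_prod_of_nonneg (fun i _ => by
    unfold gwt
    have := acoef_pos (wv η w s.e) i
    positivity)]
  apply ENNReal.ofReal_le_ofReal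
  set M : ℝ := Real.sqrt (100 * K * N) with hM
  have hM2 : M ^ 2 = 100 * K * N := Real.sq_sqrt (by positivity)
  have hM0 : 0 ≤ M := Real.sqrt_nonneg _
  have hraw : ∀ i < K, ‖s.raw i‖ ≤ M := by
    intro i hi
    apply Real.le_sqrt_of_sq_le
    exact (hg i hi).1
  set δ : ℝ := 9801 * K ^ 2 * N * ε with hδ
  have hδ0 : 0 ≤ δ := by positivity
  have hKδ : K * δ ≤ 0.005 := by
    have : K * δ = 9801 / 2000000 * (2000000 * (K : ℝ) ^ 3 * N * ε) := by rw [hδ]; ring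
    rw [this, hεN]
    norm_num
  have hδ1 : δ ≤ 1 := by nlinarith
  have key : ∀ i < K, 1 - δ ≤ gwt (acoef (wv η w s.e) i) (ccoef (wv η w s.e) s.raw i) (s.raw i) := by
    intro i hi
    obtain ⟨a1, a2, a3⟩ := hnear.acoef_bounds i hi
    have a4 := hnear.ccoef_bound hraw i hi
    have h1 := gwt_lower (M := M) (γ := 32 * K * ε * M) (c := ccoef (wv η w s.e) s.raw i)
      (y := s.raw i) a1 (by have := hnear.eps_le hK; linarith) hε0 a2 a3 (hraw i hi) a4
    refine le_trans ?_ h1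
    have hfr : (Module.finrank ℝ (Lb N) : ℝ) = N := by simp
    rw [hfr]
    have b1 : (32 * K * ε * M) ^ 2 = (32 * K * ε) * (32 * K * ε) * M ^ 2 := by ring
    have b2 : 4 * M * (32 * K * ε * M) = 128 * K * ε * M ^ 2 := by ring
    rw [b1, b2, hM2]
    have b3 : (32 * K * ε) * (32 * K * ε) * (100 * K * N) ≤ 2 * (32 * K * ε) * (100 * K * N) := by
      apply mul_le_mul_of_nonneg_right _ (by positivity)
      apply mul_le_mul_of_nonneg_right _ (by positivity)
      linarith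
    have b4 : (N : ℝ) * ε ≤ K ^ 2 * N * ε := by
      have : (1 : ℝ) ≤ K ^ 2 := by nlinarith
      have : 0 ≤ (N : ℝ) * ε := by positivity
      nlinarith
    have b5 : 4 * ε * (100 * K * N) ≤ 400 * (K ^ 2 * N * ε) := by
      have : 0 ≤ (K : ℝ) * (K - 1) * (N * ε) := by
        have : 0 ≤ (K : ℝ) - 1 := by linarith
        positivity
      nlinarith
    rw [hδ]
    nlinarith
  have := prod_one_sub_le K hδ0 hδ1 key
  linarith

/-- lower bound for the mask weight -/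
lemma wtR_lower {τ : ℝ} (hη0 : 0 ≤ η) (hη1 : η ≤ 1) (hL : L = K) (hN : 16 * K ≤ N) (hK : 1 ≤ K)
    (hτ : τ = 100000 * K ^ 3 * p)
    (h : Inv K s) (hg : Good K K s) : ENNReal.ofReal 0.995 ≤ wtR η w τ K s := by
  have hK' : (1 : ℝ) ≤ K := by exact_mod_cast hK
  have hp : (1 : ℝ) ≤ p := by
    have : 1 ≤ p := Nat.one_le_iff_ne_zero.2 (NeZero.ne p)
    exact_mod_cast this
  have hτ0 : 0 < τ := by rw [hτ]; positivity
  unfold wtR
  rw [← ENNReal.ofReal_prod_of_nonneg (fun i _ => by unfold gwt; positivity)]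
  apply ENNReal.ofReal_le_ofReal
  set γ : ℝ := τ⁻¹ * (2 * K) with hγ
  set M : ℝ := 10 * K * p with hM
  have hγ0 : 0 ≤ γ := by positivity
  set δ : ℝ := (4 * M * γ + γ ^ 2) / 2 with hδ
  have hδ0 : 0 ≤ δ := by positivity
  have hτγ : τ * γ = 2 * K := by rw [hγ]; field_simp
  have hKγ : K * p * K * γ ≤ 2 / 100000 := by
    have : (100000 * K ^ 3 * p) * γ = 2 * K := by rw [← hτ]; exact hτγ
    have h2 : K * ((K * p * K * γ) * 100000) = 2 * K := by rw [← this]; ring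
    have h3 : (K * p * K * γ) * 100000 = 2 := by
      have hKne : (K : ℝ) ≠ 0 := by positivity
      apply mul_left_cancel₀ hKne
      linarith
    linarith
  have hγ1 : K * γ ≤ 2 / 100000 := by
    have : (K : ℝ) * γ ≤ K * p * K * γ := by
      have : (1 : ℝ) ≤ p * K := by nlinarith
      have h0 : 0 ≤ (K : ℝ) * γ := by positivity
      nlinarith
    linarith
  have hKδ : K * δ ≤ 0.005 := by
    have e1 : K * δ = 20 * (K * p * K * γ) + (K * γ) * γ / 2 := by rw [hδ, hM]; ring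
    have e2 : γ ≤ 2 / 100000 := by nlinarith
    have e3 : (K * γ) * γ ≤ 2 / 100000 * (2 / 100000) :=
      mul_le_mul hγ1 e2 hγ0 (by norm_num)
    rw [e1]
    norm_num at hKγ e3 ⊢
    linarith
  have hδ1 : δ ≤ 1 := by nlinarith
  have key : ∀ i < K, 1 - δ ≤ gwt 1 (τ⁻¹ • proj η w (s.D (2 * i + 1))) (s.y (2 * i + 1)) := by
    intro i hi
    apply gwt_one_lower
    · have h1 := (hg i hi).2.2.2
      have h2 : ‖s.y (2 * i + 1)‖ ^ 2 ≤ M ^ 2 := by
        refine h1.trans ?_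
        rw [hM]
        have : (1 : ℝ) ≤ K * p := by nlinarith
        nlinarith
      exact le_of_sq_le_sq h2 (by positivity)
    · rw [norm_smul, norm_inv, Real.norm_eq_abs, abs_of_pos hτ0, hγ]
      apply mul_le_mul_of_nonneg_left _ (by positivity)
      have h1 := norm_proj_sq_le hη0 hη1 w (s.D (2 * i + 1))
      have h2 := good_D hK hN h hg (i := 2 * i + 1) (by omega)
      have h3 : ‖s.D (2 * i + 1)‖ ^ 2 ≤ 1 := by nlinarith [norm_nonneg (s.D (2 * i + 1))]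
      have h4 : ‖proj η w (s.D (2 * i + 1))‖ ^ 2 ≤ (2 * K) ^ 2 := by
        refine h1.trans ?_
        have hLK : (L : ℝ) = K := by exact_mod_cast hL
        push_cast
        rw [hLK]
        nlinarith
      exact le_of_sq_le_sq h4 (by positivity)
  have := prod_one_sub_le K hδ0 hδ1 key
  linarith

lemma run_mix {S : ℕ → (ℕ → Ans N p) → Ans N p} {τ : ℝ} (hτ : τ ≠ 0) (hL : K ≤ L) (hK : 1 ≤ K)
    (hN : 1 ≤ N) (hε : 0 ≤ ε) (hsm : 16 * K * ε ≤ 1)
    (q : Path N p K) (hg : Good K K (st L S τ K q)) (hgr : Gr K ε η w (st L S τ K q))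
    (G : GM N p) (R : RM N p) :
    run S (act η w τ (mixG η w K (st L S τ K q) G) (mixR η w τ K (st L S τ K q) R)) K
      = (st L S τ K q).hist := by
  have hinv : Inv K (st L S τ K q) := inv_st S τ K q
  set s := st L S τ K q with hs
  have hnear := near_of_gr hε hsm hinv hgr
  apply run_eq_hist K hL q
  · intro i hi
    rw [← hs]
    by_cases he : s.e i = 0
    · rw [he, map_zero, app_zero_right, hinv.lam_of_eq hi he]
    · rw [hinv.lam_of_ne hi he]
      have hrn : rn (wv η w s.e) i ≠ 0 := by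
        have := hnear.rn_half hi he
        linarith
      have h1 : ∀ i < K, gs (wv η w s.e) i ≠ 0 →
          app (mixG η w K s G) (gs (wv η w s.e) i) = lamp (wv η w s.e) s.raw i := by
        intro i hi h0
        exact app_mix (gs_ON _ _) _ G hi h0
      exact app_eq_raw h1 hi hrn
  · intro i hi h0
    rw [← hs] at h0 ⊢
    have h1 : app (mixR η w τ K s R) (s.f i) = yv η w τ s i := app_mix hinv.onf _ R hi h0
    rw [h1, yv, smul_add, smul_smul, mul_inv_cancel₀ hτ, one_smul]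
  · intro i hi he
    rw [← hs] at he ⊢
    have h1 := good_res hK hinv hg hi he
    intro h0
    rw [h0, norm_zero] at h1
    have hN' : (1 : ℝ) ≤ N := by exact_mod_cast hN
    norm_num at h1
    linarith

end near

end Pool.Agent.Helper97.LB
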