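import Mathlib
import Pool.Agent.Helper97.LB.Good

/-!
# The good event is likely
-/

set_option linter.unusedSectionVars false

open Finset MeasureTheory ProbabilityTheory
open scoped RealInnerProductSpace ENNReal

namespace Pool.Agent.Helper97.LB

section tails

variable {V : Type*} [NormedAddCommGroup V] [InnerProductSpace ℝ V] [FiniteDimensional ℝ V]
  [MeasurableSpace V] [BorelSpace V]

lemma tail_norm {c : ℝ} (hc : 0 < c) :
    stdGaussian V {x | ¬ (‖x‖ ^ 2 ≤ c)} ≤ ENNReal.ofReal ((Module.finrank ℝ V : ℝ) / c) := by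
  have h1 := meas_ge_le_lintegral_div (μ := stdGaussian V)
    (f := fun x : V => ENNReal.ofReal (‖x‖ ^ 2)) (by fun_prop) (ε := ENNReal.ofReal c)
    (by simp [hc]) ENNReal.ofReal_ne_top
  rw [lintegral_norm_sq] at h1
  refine (measure_mono ?_).trans (h1.trans (le_of_eq ?_))
  · intro x hx
    simp only [Set.mem_ofPred_eq, not_le] at hx ⊢
    exact ENNReal.ofReal_le_ofReal hx.le
  · rw [ENNReal.ofReal_div_of_pos hc]
    simp

lemma tail_proj {n : ℕ} {f : ℕ → V} (hf : ∀ i < n, ‖f i‖ ≤ 1) {c : ℝ} (hc : 0 < c) :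
    stdGaussian V {x | ¬ (∑ i ∈ range n, ⟪f i, x⟫ ^ 2 ≤ c)} ≤ ENNReal.ofReal (n / c) := by
  have h1 := meas_ge_le_lintegral_div (μ := stdGaussian V)
    (f := fun x : V => ENNReal.ofReal (∑ i ∈ range n, ⟪f i, x⟫ ^ 2)) (by fun_prop)
    (ε := ENNReal.ofReal c) (by simp [hc]) ENNReal.ofReal_ne_top
  have h2 : ∫⁻ x : V, ENNReal.ofReal (∑ i ∈ range n, ⟪f i, x⟫ ^ 2) ∂(stdGaussian V)
      ≤ ENNReal.ofReal n := by
    have e1 : ∀ x : V, ENNReal.ofReal (∑ i ∈ range n, ⟪f i, x⟫ ^ 2)
        = ∑ i ∈ range n, ENNReal.ofReal (⟪f i, x⟫ ^ 2) := fun x =>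
      ENNReal.ofReal_sum_of_nonneg fun i _ => sq_nonneg _
    simp_rw [e1]
    rw [lintegral_finsetSum _ (fun i _ => by fun_prop)]
    simp_rw [lintegral_inner_sq]
    rw [← ENNReal.ofReal_sum_of_nonneg fun i _ => sq_nonneg _]
    apply ENNReal.ofReal_le_ofReal
    have : ∀ i ∈ range n, ‖f i‖ ^ 2 ≤ 1 := by
      intro i hi
      have := hf i (mem_range.1 hi)
      nlinarith [norm_nonneg (f i)]
    refine (Finset.sum_le_sum this).trans ?_
    simp
  refine (measure_mono ?_).trans (h1.trans ?_)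
  · intro x hx
    simp only [Set.mem_ofPred_eq, not_le] at hx ⊢
    exact ENNReal.ofReal_le_ofReal hx.le
  · rw [ENNReal.ofReal_div_of_pos hc]
    exact ENNReal.div_le_div_right h2 _

lemma tail_small :
    stdGaussian V {x | ¬ (3 / 8 * (Module.finrank ℝ V : ℝ) ≤ ‖x‖ ^ 2)}
      ≤ ENNReal.ofReal (Real.exp (-(Module.finrank ℝ V : ℝ) / 6)) := by
  refine (measure_mono ?_).trans measure_norm_sq_le
  intro x hx
  simp only [Set.mem_ofPred_eq, not_le] at hx ⊢
  exact hx.le

end tails

variable {N p L : ℕ} [NeZero p]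

lemma innLaw_lam {P : Lb N → Prop} (hP : MeasurableSet {x | P x}) :
    innLaw N p {x | P x.2.1} = stdGaussian (Lb N) {x | P x} := by
  have h1 : MeasurePreserving (Prod.snd : Inn N p → Lb N × Pl p) (innLaw N p)
      ((stdGaussian (Lb N)).prod (stdGaussian (Pl p))) := measurePreserving_snd
  have h2 : MeasurePreserving (Prod.fst : Lb N × Pl p → Lb N)
      ((stdGaussian (Lb N)).prod (stdGaussian (Pl p))) (stdGaussian (Lb N)) := measurePreserving_fst
  have h3 := (h2.comp h1).measure_preimage hP.nullMeasurableSet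
  rw [← h3]
  rfl

lemma innLaw_zeta {P : Pl p → Prop} (hP : MeasurableSet {x | P x}) :
    innLaw N p {x | P x.2.2} = stdGaussian (Pl p) {x | P x} := by
  have h1 : MeasurePreserving (Prod.snd : Inn N p → Lb N × Pl p) (innLaw N p)
      ((stdGaussian (Lb N)).prod (stdGaussian (Pl p))) := measurePreserving_snd
  have h2 : MeasurePreserving (Prod.snd : Lb N × Pl p → Pl p)
      ((stdGaussian (Lb N)).prod (stdGaussian (Pl p))) (stdGaussian (Pl p)) := measurePreserving_snd
  have h3 := (h2.comp h1).measure_preimage hP.nullMeasurableSet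
  rw [← h3]
  rfl

lemma measurableSet_okR {Ω : Type*} [MeasurableSpace Ω] {s : Ω → St N p L} (hs : MeasSt s)
    (K i : ℕ) : MeasurableSet {ω | okR K (s ω) i} := by
  have hr : Measurable (fun ω => (s ω).raw i) := (measurable_pi_apply i).comp hs.raw
  have hy : Measurable (fun ω => (s ω).y (2 * i + 1)) := (measurable_pi_apply _).comp hs.y
  have hf : ∀ j, Measurable (fun ω => (s ω).f j) := fun j => (measurable_pi_apply j).comp hs.f
  have h1 : MeasurableSet {ω | ‖(s ω).raw i‖ ^ 2 ≤ 100 * K * N} :=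
    measurableSet_le (hr.norm.pow_const 2) measurable_const
  have h2 : MeasurableSet {ω | 3 / 8 * (N : ℝ) ≤ ‖(s ω).raw i‖ ^ 2} :=
    measurableSet_le measurable_const (hr.norm.pow_const 2)
  have h3 : MeasurableSet {ω | ∑ j ∈ range (2 * i + 1), ⟪(s ω).f j, (s ω).raw i⟫ ^ 2
      ≤ (N : ℝ) / (8 * K)} :=
    measurableSet_le (Finset.measurable_sum _ fun j _ => ((hf j).inner hr).pow_const 2)
      measurable_const
  have h4 : MeasurableSet {ω | ‖(s ω).y (2 * i + 1)‖ ^ 2 ≤ 100 * K * p} :=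
    measurableSet_le (hy.norm.pow_const 2) measurable_const
  exact h1.inter (h2.inter (h3.inter h4))

lemma measurableSet_good {Ω : Type*} [MeasurableSpace Ω] {s : Ω → St N p L} (hs : MeasSt s)
    (K k : ℕ) : MeasurableSet {ω | Good K k (s ω)} := by
  have : {ω | Good K k (s ω)} = ⋂ i ∈ Set.Iio k, {ω | okR K (s ω) i} := by
    ext ω
    simp [Good]
  rw [this]
  exact MeasurableSet.biInter (Set.to_countable _) fun i _ => measurableSet_okR hs K i

/-- the failure probability of one round -/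
lemma bad_round {K k : ℕ} (hK : 1 ≤ K) (hk : k < K) (hN : N = 1600 * K ^ 3)
    {S : ℕ → (ℕ → Ans N p) → Ans N p} {τ : ℝ} {s : St N p L} (h : Inv k s) :
    innLaw N p {x | ¬ okR K (next S τ k s x) k} ≤ ENNReal.ofReal (1 / (25 * K)) := by
  have hK' : (1 : ℝ) ≤ K := by exact_mod_cast hK
  have hN' : (N : ℝ) = 1600 * K ^ 3 := by rw [hN]; push_cast; ring
  have hK3 : (1 : ℝ) ≤ K ^ 3 := one_le_pow₀ hK'
  have hNpos : (0 : ℝ) < N := by rw [hN']; positivity
  have hppos : (0 : ℝ) < p := by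
    have : 0 < p := Nat.pos_of_ne_zero (NeZero.ne p)
    exact_mod_cast this
  have hon := h.onf1 (S := S)
  have hsub : {x : Inn N p | ¬ okR K (next S τ k s x) k} ⊆
      {x | ¬ (‖x.2.1‖ ^ 2 ≤ 100 * K * N)} ∪ ({x | ¬ (3 / 8 * (N : ℝ) ≤ ‖x.2.1‖ ^ 2)} ∪
      ({x | ¬ (∑ j ∈ range (2 * k + 1), ⟪nf1 S k s j, x.2.1⟫ ^ 2 ≤ (N : ℝ) / (8 * K))} ∪
      {x | ¬ (‖x.2.2‖ ^ 2 ≤ 100 * K * p)})) := by
    intro x hx
    simp only [Set.mem_ofPred_eq, okR] at hx
    have e1 : (next S τ k s x).raw k = x.2.1 := nraw_eq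
    have e2 : (next S τ k s x).y (2 * k + 1) = x.2.2 := ny_eq
    have e3 : ∑ j ∈ range (2 * k + 1), ⟪(next S τ k s x).f j, x.2.1⟫ ^ 2
        = ∑ j ∈ range (2 * k + 1), ⟪nf1 S k s j, x.2.1⟫ ^ 2 := by
      apply Finset.sum_congr rfl
      intro j hj
      rw [mem_range] at hj
      rw [show (next S τ k s x).f j = nf1 S k s j from nf_nf1 hj]
    rw [e1, e2, e3] at hx
    simp only [Set.mem_union, Set.mem_ofPred_eq]
    tauto
  have m1 : MeasurableSet {x : Lb N | ¬ (‖x‖ ^ 2 ≤ 100 * (K : ℝ) * N)} :=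
    (measurableSet_le (measurable_norm.pow_const 2) measurable_const).compl
  have m2 : MeasurableSet {x : Lb N | ¬ (3 / 8 * (N : ℝ) ≤ ‖x‖ ^ 2)} :=
    (measurableSet_le measurable_const (measurable_norm.pow_const 2)).compl
  have m3 : MeasurableSet {x : Lb N | ¬ (∑ j ∈ range (2 * k + 1), ⟪nf1 S k s j, x⟫ ^ 2
      ≤ (N : ℝ) / (8 * K))} := by
    have a : Measurable (fun x : Lb N => ∑ j ∈ range (2 * k + 1), ⟪nf1 S k s j, x⟫ ^ 2) := by
      fun_prop
    exact (measurableSet_le a measurable_const).compl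
  have m4 : MeasurableSet {x : Pl p | ¬ (‖x‖ ^ 2 ≤ 100 * (K : ℝ) * p)} :=
    (measurableSet_le (measurable_norm.pow_const 2) measurable_const).compl
  have t1 : innLaw N p {x | ¬ (‖x.2.1‖ ^ 2 ≤ 100 * K * N)} ≤ ENNReal.ofReal (1 / (100 * K)) := by
    rw [innLaw_lam m1]
    refine (tail_norm (V := Lb N) (by positivity)).trans (ENNReal.ofReal_le_ofReal ?_)
    simp only [finrank_euclideanSpace, Fintype.card_fin]
    apply le_of_eq
    field_simp
  have t2 : innLaw N p {x | ¬ (3 / 8 * (N : ℝ) ≤ ‖x.2.1‖ ^ 2)} ≤ ENNReal.ofReal (1 / (100 * K)) := by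
    rw [innLaw_lam m2]
    have := tail_small (V := Lb N)
    simp only [finrank_euclideanSpace, Fintype.card_fin] at this
    refine this.trans (ENNReal.ofReal_le_ofReal ?_)
    have h1 : (N : ℝ) / 6 ≤ Real.exp (N / 6) := by
      have := Real.add_one_le_exp ((N : ℝ) / 6)
      linarith
    have h2 : Real.exp (-(N : ℝ) / 6) = (Real.exp (N / 6))⁻¹ := by
      rw [← Real.exp_neg]; congr 1; ring
    rw [h2, inv_le_comm₀ (Real.exp_pos _) (by positivity), one_div, inv_inv]
    refine le_trans ?_ h1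
    rw [hN']
    nlinarith [mul_nonneg (sub_nonneg.2 hK') (sub_nonneg.2 hK'), sq_nonneg ((K : ℝ) - 1),
      mul_nonneg (mul_nonneg (sub_nonneg.2 hK') (sub_nonneg.2 hK')) (by positivity : (0:ℝ) ≤ K)]
  have t3 : innLaw N p {x | ¬ (∑ j ∈ range (2 * k + 1), ⟪nf1 S k s j, x.2.1⟫ ^ 2
      ≤ (N : ℝ) / (8 * K))} ≤ ENNReal.ofReal (1 / (100 * K)) := by
    rw [innLaw_lam m3]
    refine (tail_proj (V := Lb N) (fun i hi => ?_) (by positivity)).trans
      (ENNReal.ofReal_le_ofReal ?_)
    · rcases hon.1 i hi with h1 | h1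
      · rw [h1]
      · rw [h1, norm_zero]; norm_num
    · have hk2 : ((2 * k + 1 : ℕ) : ℝ) ≤ 2 * K := by exact_mod_cast (by omega : 2 * k + 1 ≤ 2 * K)
      rw [div_div_eq_mul_div, div_le_div_iff₀ (by positivity) (by positivity), hN']
      have : ((2 * k + 1 : ℕ) : ℝ) * (8 * K) * (100 * K) ≤ 2 * K * (8 * K) * (100 * K) := by gcongr
      linarith [this, show 2 * (K : ℝ) * (8 * K) * (100 * K) = 1 * (1600 * K ^ 3) by ring]
  have t4 : innLaw N p {x | ¬ (‖x.2.2‖ ^ 2 ≤ 100 * K * p)} ≤ ENNReal.ofReal (1 / (100 * K)) := by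
    rw [innLaw_zeta m4]
    refine (tail_norm (V := Pl p) (by positivity)).trans (ENNReal.ofReal_le_ofReal ?_)
    simp only [finrank_euclideanSpace, ZMod.card]
    apply le_of_eq
    field_simp
  refine (measure_mono hsub).trans ((measure_union_le _ _).trans ?_)
  refine (add_le_add t1 ((measure_union_le _ _).trans
    (add_le_add t2 ((measure_union_le _ _).trans (add_le_add t3 t4))))).trans ?_
  rw [← ENNReal.ofReal_add (by positivity) (by positivity),
    ← ENNReal.ofReal_add (by positivity) (by positivity),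
    ← ENNReal.ofReal_add (by positivity) (by positivity)]
  apply ENNReal.ofReal_le_ofReal
  apply le_of_eq
  field_simp
  norm_num

lemma okR_stable {K k i : ℕ} (hi : i < k) {S : ℕ → (ℕ → Ans N p) → Ans N p} {τ : ℝ}
    {s : St N p L} {x : Inn N p} : okR K (next S τ k s x) i ↔ okR K s i := by
  have e1 : (next S τ k s x).raw i = s.raw i := nraw_lt hi
  have e2 : (next S τ k s x).y (2 * i + 1) = s.y (2 * i + 1) := ny_lt (by omega)
  have e3 : ∑ j ∈ range (2 * i + 1), ⟪(next S τ k s x).f j, s.raw i⟫ ^ 2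
      = ∑ j ∈ range (2 * i + 1), ⟪s.f j, s.raw i⟫ ^ 2 := by
    apply Finset.sum_congr rfl
    intro j hj
    rw [mem_range] at hj
    rw [show (next S τ k s x).f j = s.f j from nf_lt (by omega)]
  unfold okR
  rw [e1, e2, e3]

lemma bad_path {K : ℕ} (hK : 1 ≤ K) (hN : N = 1600 * K ^ 3)
    {S : ℕ → (ℕ → Ans N p) → Ans N p} (hS : ∀ k, Measurable (S k)) {τ : ℝ} (k : ℕ) (hk : k ≤ K) :
    pathLaw N p k {q | ¬ Good K k (st L S τ k q)} ≤ ENNReal.ofReal (k / (25 * K)) := by
  have hK' : (1 : ℝ) ≤ K := by exact_mod_cast hK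
  induction k with
  | zero =>
    have : {q : Path N p 0 | ¬ Good K 0 (st L S τ 0 q)} = ∅ := by
      ext q
      simp [Good]
    rw [this, measure_empty]
    exact bot_le
  | succ k ih =>
    have ih' := ih (by omega)
    have hprob : IsProbabilityMeasure (pathLaw N p k) := instProbPathLaw N p k
    have h0 : pathLaw N p (k + 1) = (pathLaw N p k).prod (innLaw N p) := rfl
    have hsub : {q : Path N p (k + 1) | ¬ Good K (k + 1) (st L S τ (k + 1) q)} ⊆
        ({q : Path N p k | ¬ Good K k (st L S τ k q)} ×ˢ (Set.univ : Set (Inn N p))) ∪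
        {q : Path N p k × Inn N p | ¬ okR K (next S τ k (st L S τ k q.1) q.2) k} := by
      intro q hq
      simp only [Set.mem_ofPred_eq, Good, not_forall] at hq
      obtain ⟨i, hi, hq⟩ := hq
      rcases Nat.lt_succ_iff_lt_or_eq.1 hi with hi | hi
      · left
        refine ⟨?_, trivial⟩
        simp only [Set.mem_ofPred_eq, Good, not_forall]
        exact ⟨i, hi, fun h' => hq (okR_stable hi |>.2 h')⟩
      · right
        subst hi
        exact hq
    have hm : MeasurableSet {q : Path N p k × Inn N p |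
        ¬ okR K (next S τ k (st L S τ k q.1) q.2) k} :=
      (measurableSet_okR (measSt_st (L := L) hS τ (k + 1)) K k).compl
    have h1 : ((pathLaw N p k).prod (innLaw N p)) ({q : Path N p k | ¬ Good K k (st L S τ k q)}
        ×ˢ (Set.univ : Set (Inn N p))) ≤ ENNReal.ofReal (k / (25 * K)) := by
      rw [Measure.prod_prod, measure_univ, mul_one]
      exact ih'
    have h2 : ((pathLaw N p k).prod (innLaw N p)) {q : Path N p k × Inn N p |
        ¬ okR K (next S τ k (st L S τ k q.1) q.2) k} ≤ ENNReal.ofReal (1 / (25 * K)) := by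
      have e1 := Measure.prod_apply (μ := pathLaw N p k) (ν := innLaw N p) hm
      have e2 : ∀ q : Path N p k, innLaw N p (Prod.mk q ⁻¹' {q : Path N p k × Inn N p |
        ¬ okR K (next S τ k (st L S τ k q.1) q.2) k}) ≤ ENNReal.ofReal (1 / (25 * K)) := by
        intro q
        have e5 := bad_round (K := K) (k := k) (S := S) (τ := τ) (s := st L S τ k q) hK
          (by omega) hN (inv_st S τ k q)
        exact e5
      have e3 := lintegral_mono (μ := pathLaw N p k) e2
      have e4 : ∫⁻ _ : Path N p k, ENNReal.ofReal (1 / (25 * K)) ∂(pathLaw N p k)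
          = ENNReal.ofReal (1 / (25 * K)) := by
        rw [lintegral_const, measure_univ, mul_one]
      exact (e1.le.trans e3).trans e4.le
    rw [h0]
    refine (measure_mono hsub).trans ((measure_union_le _ _).trans ((add_le_add h1 h2).trans ?_))
    rw [← ENNReal.ofReal_add (by positivity) (by positivity)]
    apply ENNReal.ofReal_le_ofReal
    apply le_of_eq
    push_cast
    ring

end Pool.Agent.Helper97.LB
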