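import Mathlib
import Pool.Agent.Helper97.LB.Prob

/-!
# Indistinguishability of the two families of random matrices
-/

set_option linter.unusedSectionVars false

open Finset MeasureTheory ProbabilityTheory
open scoped RealInnerProductSpace ENNReal

namespace Pool.Agent.Helper97.LB

variable {N p L : ℕ} [NeZero p]

/-- law of the pair of Gaussian matrices -/
noncomputable def gam (N p : ℕ) [NeZero p] : Measure (GM N p × RM N p) :=
  (stdGaussian (GM N p)).prod (stdGaussian (RM N p))

instance (N p : ℕ) [NeZero p] : IsProbabilityMeasure (gam N p) := by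
  unfold gam; infer_instance

lemma JJ_eq {Ψ : GM N p × RM N p → ℝ≥0∞} (h : Measurable Ψ) : JJ Ψ = ∫⁻ g, Ψ g ∂(gam N p) := by
  unfold JJ gam
  rw [lintegral_prod _ h.aemeasurable]

section measrun

variable (η : ℝ) (w : Par p) (τ : ℝ)

lemma measurable_act : Measurable (fun q : (GM N p × RM N p) × Ans N p =>
    act η w τ q.1.1 q.1.2 q.2) := by
  unfold act
  have hG : Measurable (fun q : (GM N p × RM N p) × Ans N p => q.1.1) :=
    measurable_fst.comp measurable_fst
  have hR : Measurable (fun q : (GM N p × RM N p) × Ans N p => q.1.2) :=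
    measurable_snd.comp measurable_fst
  have hu : Measurable (fun q : (GM N p × RM N p) × Ans N p => q.2.1) :=
    measurable_fst.comp measurable_snd
  have hv : Measurable (fun q : (GM N p × RM N p) × Ans N p => q.2.2) :=
    measurable_snd.comp measurable_snd
  have h1 : Measurable (fun q : (GM N p × RM N p) × Ans N p => q.2.2 + τ • app q.1.2 q.2.1) :=
    hv.add ((measurable_app hR hu).const_smul τ)
  have h2 : Measurable (fun q : (GM N p × RM N p) × Ans N p =>
      app q.1.1 (q.2.2 + τ • app q.1.2 q.2.1)) := measurable_app hG h1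
  have h3 : Continuous (cyc η w : Pl p → Pl p) := LinearMap.continuous_of_finiteDimensional _
  have h4 : Measurable (fun q : (GM N p × RM N p) × Ans N p =>
      cyc η w (q.2.2 + τ • app q.1.2 q.2.1)) := h3.measurable.comp h1
  have h5 : Measurable (fun q : (GM N p × RM N p) × Ans N p =>
      τ • app q.1.2 (app q.1.1 (q.2.2 + τ • app q.1.2 q.2.1))) :=
    (measurable_app hR h2).const_smul τ
  exact h2.prodMk (h4.sub h5)

lemma measurable_run {S : ℕ → (ℕ → Ans N p) → Ans N p} (hS : ∀ k, Measurable (S k)) (K : ℕ) :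
    Measurable (fun g : GM N p × RM N p => run S (act η w τ g.1 g.2) K) := by
  induction K with
  | zero => exact measurable_const
  | succ k ih =>
    have h1 : Measurable (fun g : GM N p × RM N p => S k (run S (act η w τ g.1 g.2) k)) :=
      (hS k).comp ih
    have h2 := (measurable_act η w τ).comp (measurable_id.prodMk h1)
    have h3 := Measurable.upd ih h2 k
    exact h3

/-- the set of Gaussian pairs on which the run ends in `B` -/
def runSet (S : ℕ → (ℕ → Ans N p) → Ans N p) (K : ℕ) (B : Set (ℕ → Ans N p)) :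
    Set (GM N p × RM N p) := {g | run S (act η w τ g.1 g.2) K ∈ B}

lemma measurableSet_runSet {S : ℕ → (ℕ → Ans N p) → Ans N p} (hS : ∀ k, Measurable (S k)) (K : ℕ)
    {B : Set (ℕ → Ans N p)} (hB : MeasurableSet B) : MeasurableSet (runSet η w τ S K B) :=
  (measurable_run η w τ hS K) hB

end measrun

lemma measurableSet_Gr {Ω : Type*} [MeasurableSpace Ω] {s : Ω → St N p L} (hs : MeasSt s)
    (K : ℕ) (ε η : ℝ) (w : Par p) : MeasurableSet {ω | Gr K ε η w (s ω)} := by
  have h1 := measurable_wv η w hs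
  have : {ω | Gr K ε η w (s ω)} = ⋂ i ∈ Set.Iio K, ⋂ j ∈ Set.Iio K,
      {ω | |⟪wv η w (s ω).e i, wv η w (s ω).e j⟫ - ⟪(s ω).e i, (s ω).e j⟫| ≤ ε} := by
    ext ω
    simp [Gr]
  rw [this]
  refine MeasurableSet.biInter (Set.to_countable _) fun i _ =>
    MeasurableSet.biInter (Set.to_countable _) fun j _ => ?_
  have a1 : Measurable (fun ω => wv η w (s ω).e i) := (measurable_pi_apply i).comp h1
  have a2 : Measurable (fun ω => wv η w (s ω).e j) := (measurable_pi_apply j).comp h1
  have a3 : Measurable (fun ω => (s ω).e i) := (measurable_pi_apply i).comp hs.e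
  have a4 : Measurable (fun ω => (s ω).e j) := (measurable_pi_apply j).comp hs.e
  have a5 : Measurable (fun ω => |⟪wv η w (s ω).e i, wv η w (s ω).e j⟫
      - ⟪(s ω).e i, (s ω).e j⟫|) := ((a1.inner a2).sub (a3.inner a4)).abs
  exact measurableSet_le a5 measurable_const

/-- parameters -/
structure Prm (K N p : ℕ) (τ ε : ℝ) : Prop where
  hK : 1 ≤ K
  hN : N = 1600 * K ^ 3
  hp : 100000000000000000000000 * K ^ 18 ≤ p
  hτ : τ = 100000 * K ^ 3 * p
  hε : ε = 1 / (2000000 * K ^ 3 * N)

section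

variable {K : ℕ} {τ ε η : ℝ} {s : St N p L}

open Classical in
lemma bad_count [Fact p.Prime] (hP : Prm K N p τ ε) (hL : L = K) (h0 : 0 ≤ η) (h1 : η ≤ 1)
    (h : Inv K s) :
    (((Finset.univ.filter (fun w : Par p => ¬ Gr K ε η w s)).card : ℕ) : ℝ)
      ≤ 0.01 * Fintype.card (Par p) := by
  have hprime : Nat.Prime p := Fact.out
  obtain ⟨hK, hN, hp, -, hε⟩ := hP
  have hK' : (1 : ℝ) ≤ K := by exact_mod_cast hK
  have hN' : (N : ℝ) = 1600 * K ^ 3 := by rw [hN]; push_cast; ring
  have hp' : (100000000000000000000000 : ℝ) * K ^ 18 ≤ p := by exact_mod_cast hp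
  have hε0 : 0 < ε := by rw [hε, hN']; positivity
  have hK18 : (1 : ℝ) ≤ K ^ 18 := one_le_pow₀ hK'
  have hp1 : (99999999999999999999999 : ℝ) * K ^ 18 ≤ p - 1 := by linarith
  have hppos : (0 : ℝ) < (p : ℝ) - 1 := by linarith
  have hp2 : p ≠ 2 := by
    rintro rfl
    norm_num at hp'
    linarith
  have hLp : L + 1 ≤ p := by
    rw [hL]
    have h18 : K ≤ K ^ 18 := Nat.le_self_pow (by norm_num) K
    omega
  set c : ℝ := ((Fintype.card (Par p) : ℕ) : ℝ) with hc
  have hc0 : 0 ≤ c := Nat.cast_nonneg _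
  -- total second moment
  have hsum : ∑ w : Par p, ∑ i ∈ range K, ∑ j ∈ range K,
      (⟪wv η w s.e i, wv η w s.e j⟫ - ⟪s.e i, s.e j⟫) ^ 2
      ≤ c * (16 * K ^ 6 / (p - 1)) := by
    rw [Finset.sum_comm]
    have e1 : ∀ i ∈ range K, ∑ w : Par p, ∑ j ∈ range K,
        (⟪wv η w s.e i, wv η w s.e j⟫ - ⟪s.e i, s.e j⟫) ^ 2
        ≤ K * (c * (16 * K ^ 4 / (p - 1))) := by
      intro i hi
      rw [Finset.sum_comm]
      have e2 : ∀ j ∈ range K, ∑ w : Par p,
          (⟪wv η w s.e i, wv η w s.e j⟫ - ⟪s.e i, s.e j⟫) ^ 2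
          ≤ c * (16 * K ^ 4 / (p - 1)) := by
        intro j hj
        have g1 := gram_moment h0 h1 hp2 hLp (s.e i) (s.e j)
        refine g1.trans ?_
        have n1 : ‖s.e i‖ ^ 2 ≤ 1 := by
          rcases h.one.1 i (mem_range.1 hi) with h2 | h2
          · rw [h2]; norm_num
          · rw [h2, norm_zero]; norm_num
        have n2 : ‖s.e j‖ ^ 2 ≤ 1 := by
          rcases h.one.1 j (mem_range.1 hj) with h2 | h2
          · rw [h2]; norm_num
          · rw [h2, norm_zero]; norm_num
        have n3 : ‖s.e i‖ ^ 2 * ‖s.e j‖ ^ 2 ≤ 1 :=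
          mul_le_one₀ n1 (sq_nonneg _) n2
        have n4 : (((L + 1 : ℕ) : ℝ)) ^ 4 ≤ 16 * K ^ 4 := by
          have hLK : ((L + 1 : ℕ) : ℝ) = K + 1 := by rw [hL]; push_cast; ring
          rw [hLK]
          have : (K : ℝ) + 1 ≤ 2 * K := by linarith
          calc ((K : ℝ) + 1) ^ 4 ≤ (2 * (K : ℝ)) ^ 4 :=
                pow_le_pow_left₀ (by positivity) this 4
            _ = 16 * (K : ℝ) ^ 4 := by ring
        have n5 : (((L + 1 : ℕ) : ℝ)) ^ 4 / (p - 1) ≤ 16 * K ^ 4 / (p - 1) := by gcongr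
        have n6 : 0 ≤ c * ((((L + 1 : ℕ) : ℝ)) ^ 4 / (p - 1)) := by positivity
        calc c * ((((L + 1 : ℕ) : ℝ)) ^ 4 / (p - 1)) * (‖s.e i‖ ^ 2 * ‖s.e j‖ ^ 2)
            ≤ c * ((((L + 1 : ℕ) : ℝ)) ^ 4 / (p - 1)) * 1 :=
              mul_le_mul_of_nonneg_left n3 n6
          _ ≤ _ := by rw [mul_one]; exact mul_le_mul_of_nonneg_left n5 hc0
      refine (Finset.sum_le_sum e2).trans ?_
      simp
    refine (Finset.sum_le_sum e1).trans ?_
    simp only [sum_const, card_range, nsmul_eq_mul]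
    apply le_of_eq
    ring
  -- lower bound for the bad parameters
  have hbad : (((Finset.univ.filter (fun w : Par p => ¬ Gr K ε η w s)).card : ℕ) : ℝ) * ε ^ 2
      ≤ ∑ w : Par p, ∑ i ∈ range K, ∑ j ∈ range K,
        (⟪wv η w s.e i, wv η w s.e j⟫ - ⟪s.e i, s.e j⟫) ^ 2 := by
    have e1 : ∀ w ∈ Finset.univ.filter (fun w : Par p => ¬ Gr K ε η w s),
        ε ^ 2 ≤ ∑ i ∈ range K, ∑ j ∈ range K,
          (⟪wv η w s.e i, wv η w s.e j⟫ - ⟪s.e i, s.e j⟫) ^ 2 := by
      intro w hw
      rw [Finset.mem_filter] at hw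
      have hw2 := hw.2
      simp only [Gr, not_forall, not_le] at hw2
      obtain ⟨i, hi, j, hj, hij⟩ := hw2
      have e2 : ε ^ 2 ≤ (⟪wv η w s.e i, wv η w s.e j⟫ - ⟪s.e i, s.e j⟫) ^ 2 := by
        rw [← sq_abs (⟪wv η w s.e i, wv η w s.e j⟫ - ⟪s.e i, s.e j⟫)]
        exact pow_le_pow_left₀ hε0.le hij.le 2
      refine e2.trans ?_
      refine le_trans ?_ (Finset.single_le_sum (f := fun i => ∑ j ∈ range K,
          (⟪wv η w s.e i, wv η w s.e j⟫ - ⟪s.e i, s.e j⟫) ^ 2)
          (fun _ _ => Finset.sum_nonneg fun _ _ => sq_nonneg _) (mem_range.2 hi))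
      exact Finset.single_le_sum (f := fun j =>
          (⟪wv η w s.e i, wv η w s.e j⟫ - ⟪s.e i, s.e j⟫) ^ 2)
          (fun _ _ => sq_nonneg _) (mem_range.2 hj)
    have e3 := Finset.sum_le_sum e1
    rw [Finset.sum_const, nsmul_eq_mul] at e3
    refine e3.trans ?_
    apply Finset.sum_le_sum_of_subset_of_nonneg (Finset.filter_subset _ _)
    intro w _ _
    exact Finset.sum_nonneg fun _ _ => Finset.sum_nonneg fun _ _ => sq_nonneg _
  have hfin : c * (16 * (K : ℝ) ^ 6 / (p - 1)) ≤ 0.01 * c * ε ^ 2 := by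
    have hε2 : ε ^ 2 = 1 / (10240000000000000000 * K ^ 12) := by
      rw [hε, hN']
      field_simp
      ring
    rw [hε2]
    have : 16 * (K : ℝ) ^ 6 / (p - 1) ≤ 0.01 * (1 / (10240000000000000000 * K ^ 12)) := by
      rw [mul_one_div, div_le_div_iff₀ hppos (by positivity)]
      have : 16 * (K : ℝ) ^ 6 * (10240000000000000000 * K ^ 12)
          = 163840000000000000000 * K ^ 18 := by ring
      rw [this]
      linarith
    calc c * (16 * (K : ℝ) ^ 6 / (p - 1)) ≤ c * (0.01 * (1 / (10240000000000000000 * K ^ 12))) :=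
          mul_le_mul_of_nonneg_left this hc0
      _ = _ := by ring
  have hfinal := (hbad.trans hsum).trans hfin
  have hε2pos : 0 < ε ^ 2 := by positivity
  exact le_of_mul_le_mul_right hfinal hε2pos

end

/-- The average law of the run dominates the law of the ideal process on the good event. -/
lemma lower_avg [Fact p.Prime] {K : ℕ} {τ ε η : ℝ} (hP : Prm K N p τ ε) (h0 : 0 ≤ η) (h1 : η ≤ 1)
    {S : ℕ → (ℕ → Ans N p) → Ans N p} (hS : ∀ k, Measurable (S k)) {B : Set (ℕ → Ans N p)}
    (hB : MeasurableSet B) :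
    ENNReal.ofReal (0.98 * Fintype.card (Par p)) *
        pathLaw N p K {q | Good K K (st K S τ K q) ∧ (st K S τ K q).hist ∈ B}
      ≤ ∑ w : Par p, gam N p (runSet η w τ S K B) := by
  classical
  have hprob : IsProbabilityMeasure (pathLaw N p K) := instProbPathLaw N p K
  have hK := hP.hK
  have hK' : (1 : ℝ) ≤ K := by exact_mod_cast hK
  have hN1600 := hP.hN
  have hK3 : 1 ≤ K ^ 3 := Nat.one_le_pow _ _ hK
  have hKK3 : K ≤ K ^ 3 := Nat.le_self_pow (by norm_num) K
  have hN1 : 1 ≤ N := by omega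
  have hN16 : 16 * K ≤ N := by omega
  have hN' : (1 : ℝ) ≤ N := by exact_mod_cast hN1
  have hp1 : (1 : ℝ) ≤ p := by
    have : 1 ≤ p := Nat.one_le_iff_ne_zero.2 (NeZero.ne p)
    exact_mod_cast this
  have hτ0 : τ ≠ 0 := by
    rw [hP.hτ]
    positivity
  have hε0 : 0 ≤ ε := by rw [hP.hε]; positivity
  have hsm : 16 * K * ε ≤ 1 := by
    rw [hP.hε]
    rw [mul_one_div, div_le_one (by positivity)]
    have a1 : (K : ℝ) ≤ K ^ 3 := by exact_mod_cast hKK3
    have a2 : (K : ℝ) ^ 3 ≤ K ^ 3 * N := by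
      have : (0 : ℝ) ≤ K ^ 3 := by positivity
      nlinarith
    nlinarith
  have hms : MeasSt (st K S τ K : Path N p K → St N p K) := measSt_st hS τ K
  set E : Set (Path N p K) := {q | Good K K (st K S τ K q) ∧ (st K S τ K q).hist ∈ B} with hE
  have hEm : MeasurableSet E := (measurableSet_good hms K K).inter (hms.hist hB)
  set Gw : Par p → Set (Path N p K) := fun w => {q | Gr K ε η w (st K S τ K q)} with hGw
  have hGwm : ∀ w, MeasurableSet (Gw w) := fun w => measurableSet_Gr hms K ε η w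
  -- each parameter
  have key : ∀ w : Par p, ∫⁻ q, (E ∩ Gw w).indicator (fun _ => ENNReal.ofReal 0.99) q
      ∂(pathLaw N p K) ≤ gam N p (runSet η w τ S K B) := by
    intro w
    have hrm := measurableSet_runSet η w τ hS K hB
    have hΦ : Measurable ((runSet η w τ S K B).indicator (1 : GM N p × RM N p → ℝ≥0∞)) :=
      measurable_one.indicator hrm
    have e1 : gam N p (runSet η w τ S K B)
        = JJ ((runSet η w τ S K B).indicator (1 : GM N p × RM N p → ℝ≥0∞)) := by
      rw [JJ_eq hΦ, lintegral_indicator_one hrm]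
    rw [e1, ← dist_identity (L := K) η w τ hS K hΦ]
    apply lintegral_mono
    intro q
    dsimp only
    by_cases hq : q ∈ E ∩ Gw w
    · rw [Set.indicator_of_mem hq]
      have hinv : Inv K (st K S τ K q) := inv_st S τ K q
      have hgood : Good K K (st K S τ K q) := hq.1.1
      have hgr : Gr K ε η w (st K S τ K q) := hq.2
      have r1 : ∀ g : GM N p × RM N p, (runSet η w τ S K B).indicator
          (1 : GM N p × RM N p → ℝ≥0∞)
          (mixG η w K (st K S τ K q) g.1, mixR η w τ K (st K S τ K q) g.2) = 1 := by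
        intro g
        apply Set.indicator_of_mem
        show run S (act η w τ (mixG η w K (st K S τ K q) g.1)
          (mixR η w τ K (st K S τ K q) g.2)) K ∈ B
        rw [run_mix hτ0 le_rfl hK hN1 hε0 hsm q hgood hgr]
        exact hq.1.2
      simp_rw [r1]
      have r2 : JJ (fun _ : GM N p × RM N p => (1 : ℝ≥0∞)) = 1 := by
        rw [JJ_eq measurable_const]
        simp
      rw [r2, one_mul]
      have r3 := wtG_lower hN1 hP.hε hK hinv hgood hgr
      have r4 := wtR_lower (w := w) h0 h1 rfl hN16 hK hP.hτ hinv hgood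
      refine le_trans ?_ (mul_le_mul' r3 r4)
      rw [← ENNReal.ofReal_mul (by norm_num)]
      exact ENNReal.ofReal_le_ofReal (by norm_num)
    · rw [Set.indicator_of_notMem hq]
      exact bot_le
  have hsum := Finset.sum_le_sum fun w (_ : w ∈ (Finset.univ : Finset (Par p))) => key w
  refine le_trans ?_ hsum
  rw [← lintegral_finsetSum _ (fun w _ => measurable_const.indicator (hEm.inter (hGwm w)))]
  have hcE : ENNReal.ofReal (0.98 * Fintype.card (Par p)) * pathLaw N p K E
      = ∫⁻ q, E.indicator (fun _ => ENNReal.ofReal (0.98 * Fintype.card (Par p))) q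
        ∂(pathLaw N p K) := by
    rw [lintegral_indicator_const hEm]
  rw [hcE]
  apply lintegral_mono
  intro q
  dsimp only
  by_cases hq : q ∈ E
  · rw [Set.indicator_of_mem hq]
    have hinv : Inv K (st K S τ K q) := inv_st S τ K q
    have hbc := bad_count (η := η) hP rfl h0 h1 hinv
    have e1 : ∑ w : Par p, (E ∩ Gw w).indicator (fun _ => ENNReal.ofReal 0.99) q
        = ((Finset.univ.filter (fun w : Par p => Gr K ε η w (st K S τ K q))).card : ℝ≥0∞)
          * ENNReal.ofReal 0.99 := by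
      rw [← nsmul_eq_mul, ← Finset.sum_const, Finset.sum_filter]
      apply Finset.sum_congr rfl
      intro w _
      by_cases hw : Gr K ε η w (st K S τ K q)
      · rw [if_pos hw, Set.indicator_of_mem (show q ∈ E ∩ Gw w from ⟨hq, hw⟩)]
      · rw [if_neg hw, Set.indicator_of_notMem (fun h => hw h.2)]
    rw [e1]
    have e2 := Finset.card_filter_add_card_filter_not (s := (Finset.univ : Finset (Par p)))
      (fun w : Par p => Gr K ε η w (st K S τ K q))
    rw [Finset.card_univ] at e2
    have e3 : ((Finset.univ.filter (fun w : Par p => Gr K ε η w (st K S τ K q))).card : ℝ)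
        + (Finset.univ.filter (fun w : Par p => ¬ Gr K ε η w (st K S τ K q))).card
        = Fintype.card (Par p) := by exact_mod_cast e2
    have e4 : ((Finset.univ.filter (fun w : Par p => Gr K ε η w (st K S τ K q))).card : ℝ≥0∞)
        = ENNReal.ofReal ((Finset.univ.filter
          (fun w : Par p => Gr K ε η w (st K S τ K q))).card : ℝ) := by
      rw [ENNReal.ofReal_natCast]
    rw [e4, ← ENNReal.ofReal_mul (Nat.cast_nonneg _)]
    apply ENNReal.ofReal_le_ofReal
    have hc0 : (0 : ℝ) ≤ Fintype.card (Par p) := Nat.cast_nonneg _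
    nlinarith
  · rw [Set.indicator_of_notMem hq]
    exact bot_le

/-- **Indistinguishability.** -/
theorem indist [Fact p.Prime] {K : ℕ} {τ ε η η' : ℝ} (hP : Prm K N p τ ε) (h0 : 0 ≤ η) (h1 : η ≤ 1)
    (h0' : 0 ≤ η') (h1' : η' ≤ 1)
    {S : ℕ → (ℕ → Ans N p) → Ans N p} (hS : ∀ k, Measurable (S k)) {B : Set (ℕ → Ans N p)}
    (hB : MeasurableSet B) :
    ∑ w : Par p, (gam N p).real (runSet η w τ S K B)
      ≤ ∑ w : Par p, (gam N p).real (runSet η' w τ S K B) + 0.06 * Fintype.card (Par p) := by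
  have hprob : IsProbabilityMeasure (pathLaw N p K) := instProbPathLaw N p K
  have hK := hP.hK
  have hK' : (1 : ℝ) ≤ K := by exact_mod_cast hK
  have hms : MeasSt (st K S τ K : Path N p K → St N p K) := measSt_st hS τ K
  have l1 := lower_avg hP h0 h1 hS hB.compl
  have l2 := lower_avg hP h0' h1' hS hB
  set c : ℝ := ((Fintype.card (Par p) : ℕ) : ℝ) with hc
  have hc0 : 0 ≤ c := Nat.cast_nonneg _
  have toR : ∀ (ζ : ℝ) (C : Set (ℕ → Ans N p)) (x : ℝ≥0∞),
      ENNReal.ofReal (0.98 * c) * x ≤ ∑ w : Par p, gam N p (runSet ζ w τ S K C) →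
      0.98 * c * x.toReal ≤ ∑ w : Par p, (gam N p).real (runSet ζ w τ S K C) := by
    intro ζ C x hx
    have h2 : ∑ w : Par p, gam N p (runSet ζ w τ S K C) ≠ ∞ :=
      ENNReal.sum_ne_top.2 fun w _ => measure_ne_top _ _
    have h3 := ENNReal.toReal_mono h2 hx
    rw [ENNReal.toReal_mul, ENNReal.toReal_ofReal (by positivity),
      ENNReal.toReal_sum fun w _ => measure_ne_top _ _] at h3
    exact h3
  have r1 := toR η Bᶜ _ l1
  have r2 := toR η' B _ l2
  have hcompl : ∑ w : Par p, (gam N p).real (runSet η w τ S K Bᶜ)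
      = c - ∑ w : Par p, (gam N p).real (runSet η w τ S K B) := by
    have : ∀ w : Par p, (gam N p).real (runSet η w τ S K Bᶜ)
        = 1 - (gam N p).real (runSet η w τ S K B) := by
      intro w
      have e1 : runSet η w τ S K Bᶜ = (runSet η w τ S K B)ᶜ := rfl
      rw [e1, probReal_compl_eq_one_sub (measurableSet_runSet η w τ hS K hB)]
    simp_rw [this]
    rw [Finset.sum_sub_distrib]
    simp [hc]
  rw [hcompl] at r1
  have hbad := bad_path (L := K) (τ := τ) hK hP.hN hS K le_rfl
  have hsplit : 0.96 ≤ (pathLaw N p K {q | Good K K (st K S τ K q) ∧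
      (st K S τ K q).hist ∈ Bᶜ}).toReal +
      (pathLaw N p K {q | Good K K (st K S τ K q) ∧ (st K S τ K q).hist ∈ B}).toReal := by
    have hcov : (1 : ℝ≥0∞) ≤ pathLaw N p K {q | ¬ Good K K (st K S τ K q)} +
        (pathLaw N p K {q | Good K K (st K S τ K q) ∧ (st K S τ K q).hist ∈ Bᶜ} +
        pathLaw N p K {q | Good K K (st K S τ K q) ∧ (st K S τ K q).hist ∈ B}) := by
      have hu : (Set.univ : Set (Path N p K)) ⊆ {q | ¬ Good K K (st K S τ K q)} ∪
          ({q | Good K K (st K S τ K q) ∧ (st K S τ K q).hist ∈ Bᶜ} ∪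
          {q | Good K K (st K S τ K q) ∧ (st K S τ K q).hist ∈ B}) := by
        intro q _
        simp only [Set.mem_union, Set.mem_ofPred_eq, Set.mem_compl_iff]
        tauto
      rw [← measure_univ (μ := pathLaw N p K)]
      exact (measure_mono hu).trans ((measure_union_le _ _).trans
        (add_le_add le_rfl (measure_union_le _ _)))
    have hb2 : pathLaw N p K {q | ¬ Good K K (st K S τ K q)} ≤ ENNReal.ofReal 0.04 := by
      refine hbad.trans (ENNReal.ofReal_le_ofReal (le_of_eq ?_))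
      field_simp
      norm_num
    have h3 := hcov.trans (add_le_add hb2 le_rfl)
    have hfin : ENNReal.ofReal 0.04 +
        (pathLaw N p K {q | Good K K (st K S τ K q) ∧ (st K S τ K q).hist ∈ Bᶜ} +
        pathLaw N p K {q | Good K K (st K S τ K q) ∧ (st K S τ K q).hist ∈ B}) ≠ ∞ :=
      ENNReal.add_ne_top.2 ⟨ENNReal.ofReal_ne_top, ENNReal.add_ne_top.2
        ⟨measure_ne_top _ _, measure_ne_top _ _⟩⟩
    have h4 := ENNReal.toReal_mono hfin h3
    rw [ENNReal.toReal_add ENNReal.ofReal_ne_top (ENNReal.add_ne_top.2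
        ⟨measure_ne_top _ _, measure_ne_top _ _⟩), ENNReal.toReal_add (measure_ne_top _ _)
        (measure_ne_top _ _), ENNReal.toReal_ofReal (by norm_num), ENNReal.toReal_one] at h4
    linarith
  nlinarith [mul_le_mul_of_nonneg_left hsplit hc0]

end Pool.Agent.Helper97.LB
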