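import Mathlib
import Pool.Agent.Helper97.MatVecModel
import Pool.Agent.Helper97.KrylovTop
import Pool.Agent.Helper97.LB.Core

/-!
# The hard matrices: diagonalization and condition number
-/

set_option linter.unusedSectionVars false

open Finset Matrix
open scoped RealInnerProductSpace

namespace Pool.Agent.Helper97.LB

section s1

variable {l m n o : Type*} [Fintype l] [Fintype m] [Fintype n] [Fintype o]

/-- entrywise `l1` norm -/
noncomputable def s1 (A : Matrix m n ℂ) : ℝ := ∑ i, ∑ j, ‖A i j‖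

lemma s1_nonneg (A : Matrix m n ℂ) : 0 ≤ s1 A :=
  Finset.sum_nonneg fun _ _ => Finset.sum_nonneg fun _ _ => norm_nonneg _

lemma s1_mul (A : Matrix l m ℂ) (B : Matrix m n ℂ) : s1 (A * B) ≤ s1 A * s1 B := by
  unfold s1
  have h1 : ∀ i k, ‖(A * B) i k‖ ≤ ∑ j, ‖A i j‖ * ‖B j k‖ := by
    intro i k
    rw [Matrix.mul_apply]
    refine (norm_sum_le _ _).trans (Finset.sum_le_sum fun j _ => norm_mul_le _ _)
  have h2 : ∀ i, ∑ k, ‖(A * B) i k‖ ≤ ∑ j, ‖A i j‖ * ∑ k, ‖B j k‖ := by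
    intro i
    refine (Finset.sum_le_sum fun k _ => h1 i k).trans (le_of_eq ?_)
    rw [Finset.sum_comm]
    exact Finset.sum_congr rfl fun j _ => (Finset.mul_sum _ _ _).symm
  have h3 : ∀ j, ∑ k, ‖B j k‖ ≤ ∑ j, ∑ k, ‖B j k‖ := fun j =>
    Finset.single_le_sum (f := fun j => ∑ k, ‖B j k‖)
      (fun _ _ => Finset.sum_nonneg fun _ _ => norm_nonneg _) (Finset.mem_univ j)
  refine (Finset.sum_le_sum fun i _ => (h2 i).trans
    (Finset.sum_le_sum fun j _ => mul_le_mul_of_nonneg_left (h3 j) (norm_nonneg _))).trans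
      (le_of_eq ?_)
  simp_rw [← Finset.sum_mul]

lemma s1_one [DecidableEq m] : s1 (1 : Matrix m m ℂ) = Fintype.card m := by
  unfold s1
  have : ∀ i : m, ∑ j, ‖(1 : Matrix m m ℂ) i j‖ = 1 := by
    intro i
    rw [Finset.sum_eq_single i]
    · simp
    · intro j _ hj
      rw [Matrix.one_apply_ne (Ne.symm hj), norm_zero]
    · simp
  simp [this]

lemma s1_zero : s1 (0 : Matrix m n ℂ) = 0 := by simp [s1]

lemma s1_neg (A : Matrix m n ℂ) : s1 (-A) = s1 A := by simp [s1]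

lemma s1_fromBlocks (A : Matrix l n ℂ) (B : Matrix l o ℂ) (C : Matrix m n ℂ) (D : Matrix m o ℂ) :
    s1 (fromBlocks A B C D) = s1 A + s1 B + (s1 C + s1 D) := by
  unfold s1
  simp only [Fintype.sum_sum_type, fromBlocks_apply₁₁, fromBlocks_apply₁₂, fromBlocks_apply₂₁,
    fromBlocks_apply₂₂, Finset.sum_add_distrib]
  ring

lemma s1_reindex {m' n' : Type*} [Fintype m'] [Fintype n'] (e : m ≃ m') (f : n ≃ n')
    (A : Matrix m n ℂ) : s1 (Matrix.reindex e f A) = s1 A := by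
  unfold s1
  rw [← Equiv.sum_comp e]
  apply Finset.sum_congr rfl
  intro i _
  rw [← Equiv.sum_comp f]
  simp

lemma s1_diagonal [DecidableEq m] (v : m → ℂ) : s1 (diagonal v) = ∑ i, ‖v i‖ := by
  unfold s1
  apply Finset.sum_congr rfl
  intro i _
  rw [Finset.sum_eq_single i]
  · simp
  · intro j _ hj
    rw [diagonal_apply_ne _ (Ne.symm hj), norm_zero]
  · simp

open scoped Matrix.Norms.L2Operator in
lemma norm_le_s1 {k : ℕ} (A : Matrix (Fin k) (Fin k) ℂ) : ‖A‖ ≤ s1 A := by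
  have h0 : ‖A‖ = ‖toEuclideanCLM (n := Fin k) (𝕜 := ℂ) A‖ := Matrix.cstar_norm_def A
  rw [h0]
  apply ContinuousLinearMap.opNorm_le_bound _ (s1_nonneg A)
  intro x
  have h1 : ‖toEuclideanCLM (n := Fin k) (𝕜 := ℂ) A x‖
      ≤ ∑ i, ‖(toEuclideanCLM (n := Fin k) (𝕜 := ℂ) A x) i‖ := by
    rw [EuclideanSpace.norm_eq]
    apply Real.sqrt_le_iff.2
    refine ⟨Finset.sum_nonneg fun _ _ => norm_nonneg _, ?_⟩
    exact Finset.sum_sq_le_sq_sum_of_nonneg fun _ _ => norm_nonneg _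
  refine h1.trans ?_
  unfold s1
  rw [Finset.sum_mul]
  apply Finset.sum_le_sum
  intro i _
  have h2 : (toEuclideanCLM (n := Fin k) (𝕜 := ℂ) A x) i = ∑ j, A i j * x j := rfl
  rw [h2]
  refine (norm_sum_le _ _).trans ?_
  rw [Finset.sum_mul]
  apply Finset.sum_le_sum
  intro j _
  rw [norm_mul]
  apply mul_le_mul_of_nonneg_left _ (norm_nonneg _)
  exact PiLp.norm_apply_le x j

end s1

section cycle

variable {p : ℕ} [NeZero p]

/-- the position on the cycle -/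
noncomputable def pos (w : Par p) (x : ZMod p) : ZMod p := (x - w.2.2) * ((w.2.1⁻¹ : (ZMod p)ˣ) : ZMod p) - 1

/-- matrix of the signed cycle -/
noncomputable def cyM (η : ℝ) (w : Par p) : Matrix (ZMod p) (ZMod p) ℝ :=
  fun x y => if y = x - w.2.1 then lw η w.2.2 y * (sg w.1 x * sg w.1 y) else 0

/-- eigenvectors of the signed cycle -/
noncomputable def VW (ρ : ℝ) (w : Par p) : Matrix (ZMod p) (ZMod p) ℂ :=
  fun x k => (sg w.1 x : ℂ) * ((ρ : ℂ)⁻¹ ^ (pos w x).val * ZMod.stdAddChar (-(k * pos w x)))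

/-- inverse of the matrix of eigenvectors -/
noncomputable def VI (ρ : ℝ) (w : Par p) : Matrix (ZMod p) (ZMod p) ℂ :=
  fun k x => (p : ℂ)⁻¹ * ((sg w.1 x : ℂ) * ((ρ : ℂ) ^ (pos w x).val * ZMod.stdAddChar (k * pos w x)))

/-- eigenvalues of the signed cycle -/
noncomputable def ev (ρ : ℝ) (k : ZMod p) : ℂ := ρ * ZMod.stdAddChar k

lemma norm_stdAddChar (k : ZMod p) : ‖(ZMod.stdAddChar k : ℂ)‖ = 1 := by
  rw [ZMod.stdAddChar_apply]
  exact Circle.norm_coe _

lemma norm_ev {ρ : ℝ} (hρ : 0 ≤ ρ) (k : ZMod p) : ‖ev ρ k‖ = ρ := by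
  rw [ev, norm_mul, norm_stdAddChar, mul_one, Complex.norm_real, Real.norm_eq_abs, abs_of_nonneg hρ]

lemma pos_injective (w : Par p) : Function.Injective (pos w) := by
  intro x y h
  unfold pos at h
  have h1 : (x - w.2.2) * ((w.2.1⁻¹ : (ZMod p)ˣ) : ZMod p)
      = (y - w.2.2) * ((w.2.1⁻¹ : (ZMod p)ˣ) : ZMod p) := by linear_combination h
  have h2 := (Units.mul_left_inj (w.2.1⁻¹)).1 h1
  linear_combination h2

lemma pos_sub (w : Par p) (x : ZMod p) : pos w (x - w.2.1) = pos w x - 1 := by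
  unfold pos
  have : (w.2.1 : ZMod p) * ((w.2.1⁻¹ : (ZMod p)ˣ) : ZMod p) = 1 := Units.mul_inv _
  linear_combination (-1 : ZMod p) * this

lemma pos_eq_zero (w : Par p) (x : ZMod p) : pos w x = 0 ↔ x - w.2.1 = w.2.2 := by
  unfold pos
  have h1 : (w.2.1 : ZMod p) * ((w.2.1⁻¹ : (ZMod p)ˣ) : ZMod p) = 1 := Units.mul_inv _
  constructor
  · intro h
    have h2 : (x - w.2.2) * ((w.2.1⁻¹ : (ZMod p)ˣ) : ZMod p) = 1 := by linear_combination h
    linear_combination (w.2.1 : ZMod p) * h2 - (x - w.2.2) * h1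
  · intro h
    have h2 : x - w.2.2 = w.2.1 := by linear_combination h
    rw [h2, h1, sub_self]

lemma sgc_mul_self (s : ZMod p → ℤˣ) (x : ZMod p) : (sg s x : ℂ) * (sg s x : ℂ) = 1 := by
  rw [← Complex.ofReal_mul, sg_mul_self, Complex.ofReal_one]

lemma VW_mul_VI {ρ : ℝ} (hρ : 0 < ρ) (w : Par p) : VW ρ w * VI ρ w = 1 := by
  have hρc : (ρ : ℂ) ≠ 0 := by exact_mod_cast hρ.ne'
  have hpc : (p : ℂ) ≠ 0 := by exact_mod_cast NeZero.ne p
  ext x y
  rw [Matrix.mul_apply]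
  have h1 : ∀ k, VW ρ w x k * VI ρ w k y = ((p : ℂ)⁻¹ * (sg w.1 x : ℂ) * (sg w.1 y : ℂ) *
      (ρ : ℂ)⁻¹ ^ (pos w x).val * (ρ : ℂ) ^ (pos w y).val)
        * ZMod.stdAddChar (k * (pos w y - pos w x)) := by
    intro k
    have h2 : (ZMod.stdAddChar (k * (pos w y - pos w x)) : ℂ)
        = ZMod.stdAddChar (-(k * pos w x)) * ZMod.stdAddChar (k * pos w y) := by
      rw [← AddChar.map_add_eq_mul]
      congr 1
      ring
    rw [h2, VW, VI]
    ring
  simp_rw [h1]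
  rw [← Finset.mul_sum, AddChar.sum_mulShift _ (ZMod.isPrimitive_stdAddChar p)]
  by_cases hxy : x = y
  · subst hxy
    have h3 := sgc_mul_self w.1 x
    have h4 : (ρ : ℂ)⁻¹ ^ (pos w x).val * (ρ : ℂ) ^ (pos w x).val = 1 := by
      rw [← mul_pow, inv_mul_cancel₀ hρc, one_pow]
    simp only [sub_self, if_true, ZMod.card, Matrix.one_apply_eq]
    calc _ = ((p : ℂ)⁻¹ * p) * ((sg w.1 x : ℂ) * (sg w.1 x : ℂ)) *
          ((ρ : ℂ)⁻¹ ^ (pos w x).val * (ρ : ℂ) ^ (pos w x).val) := by ring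
      _ = 1 := by rw [h3, h4, inv_mul_cancel₀ hpc]; ring
  · have h5 : pos w y - pos w x ≠ 0 := by
      intro h
      exact hxy (pos_injective w (sub_eq_zero.1 h)).symm
    rw [if_neg h5, Matrix.one_apply_ne hxy]
    simp

lemma val_sub_one {x : ZMod p} (hx : x ≠ 0) : (x - 1).val + 1 = x.val := by
  have h0 : x.val ≠ 0 := by rwa [Ne, ZMod.val_eq_zero]
  have hlt := ZMod.val_lt x
  have hp1 : 1 < p := by omega
  have : Fact (1 < p) := ⟨hp1⟩
  have h1 : (1 : ZMod p).val ≤ x.val := by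
    rw [ZMod.val_one]
    omega
  rw [ZMod.val_sub h1, ZMod.val_one]
  omega

lemma val_neg_one' : (0 - 1 : ZMod p).val + 1 = p := by
  obtain ⟨n, rfl⟩ : ∃ n, p = n + 1 := ⟨p - 1, by have := NeZero.ne p; omega⟩
  rw [zero_sub, ZMod.val_neg_one]

lemma cyM_mul_VW {ρ : ℝ} (hρ : 0 < ρ) (w : Par p) :
    (cyM (ρ ^ p) w).map (fun x => (x : ℂ)) * VW ρ w = VW ρ w * diagonal (ev ρ) := by
  have hρc : (ρ : ℂ) ≠ 0 := by exact_mod_cast hρ.ne'
  ext x k
  rw [Matrix.mul_apply, Matrix.mul_diagonal, Finset.sum_eq_single (x - w.2.1)]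
  · simp only [Matrix.map_apply, cyM, if_true, VW, ev]
    rw [pos_sub]
    have h1 : (ZMod.stdAddChar (-(k * (pos w x - 1))) : ℂ)
        = ZMod.stdAddChar (-(k * pos w x)) * ZMod.stdAddChar k := by
      rw [← AddChar.map_add_eq_mul]
      congr 1
      ring
    rw [h1]
    have h2 : (lw (ρ ^ p) w.2.2 (x - w.2.1) : ℂ) * (ρ : ℂ)⁻¹ ^ (pos w x - 1).val
        = (ρ : ℂ)⁻¹ ^ (pos w x).val * ρ := by
      by_cases h0 : pos w x = 0
      · have h3 := (pos_eq_zero w x).1 h0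
        rw [lw, if_pos h3, h0, ZMod.val_zero, pow_zero, one_mul]
        have h4 : (ρ : ℂ) ^ p = (ρ : ℂ) ^ ((0 - 1 : ZMod p).val + 1) := by rw [val_neg_one']
        push_cast
        rw [h4, pow_succ, mul_assoc, mul_comm (ρ : ℂ), ← mul_assoc, ← mul_pow,
          mul_inv_cancel₀ hρc, one_pow, one_mul]
      · have h3 : ¬ (x - w.2.1 = w.2.2) := fun h => h0 ((pos_eq_zero w x).2 h)
        rw [lw, if_neg h3, ← val_sub_one h0, pow_succ, mul_assoc, inv_mul_cancel₀ hρc]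
        push_cast
        ring
    have h5 := sgc_mul_self w.1 (x - w.2.1)
    push_cast
    linear_combination ((sg w.1 x : ℂ) * (sg w.1 (x - w.2.1) : ℂ) * (sg w.1 (x - w.2.1) : ℂ)
      * ZMod.stdAddChar (-(k * pos w x)) * ZMod.stdAddChar k) * h2 + ((sg w.1 x : ℂ) *
        (ρ : ℂ)⁻¹ ^ (pos w x).val * ρ * ZMod.stdAddChar (-(k * pos w x)) * ZMod.stdAddChar k) * h5
  · intro y _ hy
    simp [cyM, hy]
  · intro h
    exact absurd (Finset.mem_univ _) h

lemma VI_mul_VW {ρ : ℝ} (hρ : 0 < ρ) (w : Par p) : VI ρ w * VW ρ w = 1 :=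
  mul_eq_one_comm.1 (VW_mul_VI hρ w)

lemma s1_VW (w : Par p) : s1 (VW 1 w) = p ^ 2 := by
  unfold s1
  have : ∀ x k, ‖VW 1 w x k‖ = 1 := by
    intro x k
    rw [VW, norm_mul, norm_mul, norm_stdAddChar]
    have h1 : ‖(sg w.1 x : ℂ)‖ = 1 := by
      have := sg_sq w.1 x
      rw [Complex.norm_real, Real.norm_eq_abs, ← sq_eq_sq₀ (abs_nonneg _) zero_le_one, sq_abs, this]
      norm_num
    rw [h1]
    simp
  simp only [this]
  simp [sq]

lemma s1_VI (w : Par p) : s1 (VI 1 w) = p := by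
  unfold s1
  have hp0 : (p : ℝ) ≠ 0 := by exact_mod_cast NeZero.ne p
  have : ∀ k x, ‖VI 1 w k x‖ = (p : ℝ)⁻¹ := by
    intro k x
    rw [VI, norm_mul, norm_mul, norm_mul, norm_stdAddChar]
    have h1 : ‖(sg w.1 x : ℂ)‖ = 1 := by
      have := sg_sq w.1 x
      rw [Complex.norm_real, Real.norm_eq_abs, ← sq_eq_sq₀ (abs_nonneg _) zero_le_one, sq_abs, this]
      norm_num
    rw [h1]
    simp
  simp only [this]
  simp [hp0]

end cycle

section block

variable {N p : ℕ} [NeZero p]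

/-- the block index set -/
abbrev Ix (N p : ℕ) : Type := Fin N ⊕ ZMod p

variable (G : Matrix (Fin N) (ZMod p) ℂ) (R : Matrix (ZMod p) (Fin N) ℂ)
  (W : Matrix (ZMod p) (ZMod p) ℂ) (V V' : Matrix (ZMod p) (ZMod p) ℂ) (d : ZMod p → ℂ)

/-- the hard block matrix -/
noncomputable def hardB : Matrix (Ix N p) (Ix N p) ℂ :=
  fromBlocks (G * R) G ((W - R * G) * R) (W - R * G)

/-- the auxiliary block -/
noncomputable def XB : Matrix (Fin N) (ZMod p) ℂ := G * (V * (diagonal (fun k => (d k)⁻¹) * V'))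

/-- eigenvectors -/
noncomputable def VB : Matrix (Ix N p) (Ix N p) ℂ :=
  fromBlocks 1 0 (-R) 1 * fromBlocks 1 (XB G V V' d) 0 1 * fromBlocks 1 0 0 V

/-- inverse -/
noncomputable def VBi : Matrix (Ix N p) (Ix N p) ℂ :=
  fromBlocks 1 0 0 V' * (fromBlocks 1 (-(XB G V V' d)) 0 1 * fromBlocks 1 0 R 1)

variable {V V' W d}

lemma VB_mul_VBi (h : V * V' = 1) : VB G R V V' d * VBi G R V V' d = 1 := by
  have e1 : (fromBlocks 1 0 0 V : Matrix (Ix N p) (Ix N p) ℂ) * fromBlocks 1 0 0 V' = 1 := by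
    rw [fromBlocks_multiply]
    simp [h, fromBlocks_one]
  have e2 : (fromBlocks 1 (XB G V V' d) 0 1 : Matrix (Ix N p) (Ix N p) ℂ)
      * fromBlocks 1 (-(XB G V V' d)) 0 1 = 1 := by
    rw [fromBlocks_multiply]
    simp [fromBlocks_one]
  have e3 : (fromBlocks 1 0 (-R) 1 : Matrix (Ix N p) (Ix N p) ℂ)
      * fromBlocks 1 0 R 1 = 1 := by
    rw [fromBlocks_multiply]
    simp [fromBlocks_one]
  rw [VB, VBi]
  calc _ = (fromBlocks 1 0 (-R) 1 : Matrix (Ix N p) (Ix N p) ℂ) *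
        (fromBlocks 1 (XB G V V' d) 0 1 * ((fromBlocks 1 0 0 V * fromBlocks 1 0 0 V')
          * fromBlocks 1 (-(XB G V V' d)) 0 1) * fromBlocks 1 0 R 1) := by
        simp only [Matrix.mul_assoc]
    _ = 1 := by rw [e1, Matrix.one_mul, e2, Matrix.one_mul, e3]

lemma hardB_mul (h : V * V' = 1) (h' : V' * V = 1) (hW : W * V = V * diagonal d)
    (hd : ∀ k, d k ≠ 0) :
    hardB G R W * VB G R V V' d = VB G R V V' d * diagonal (Sum.elim (fun _ => 0) d) := by
  have hW2 : W = V * diagonal d * V' := by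
    rw [← hW, Matrix.mul_assoc, h, Matrix.mul_one]
  have hX : XB G V V' d * W = G := by
    rw [XB, hW2]
    have e : diagonal (fun k => (d k)⁻¹) * diagonal d = (1 : Matrix (ZMod p) (ZMod p) ℂ) := by
      rw [diagonal_mul_diagonal]
      rw [← diagonal_one]
      congr 1
      funext k
      exact inv_mul_cancel₀ (hd k)
    calc _ = G * (V * ((diagonal (fun k => (d k)⁻¹) * ((V' * V) * diagonal d)) * V')) := by
          simp only [Matrix.mul_assoc]
      _ = G := by rw [h', Matrix.one_mul, e, Matrix.one_mul, h, Matrix.mul_one]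
  have e1 : hardB G R W * fromBlocks 1 0 (-R) 1
      = fromBlocks 1 0 (-R) 1 * fromBlocks 0 G 0 W := by
    rw [hardB, fromBlocks_multiply, fromBlocks_multiply]
    congr 1 <;> simp
    · abel
  have e2 : (fromBlocks 0 G 0 W : Matrix (Ix N p) (Ix N p) ℂ) * fromBlocks 1 (XB G V V' d) 0 1
      = fromBlocks 1 (XB G V V' d) 0 1 * fromBlocks 0 0 0 W := by
    rw [fromBlocks_multiply, fromBlocks_multiply]
    congr 1 <;> simp [hX]
  have e3 : (fromBlocks 0 0 0 W : Matrix (Ix N p) (Ix N p) ℂ) * fromBlocks 1 0 0 V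
      = fromBlocks 1 0 0 V * diagonal (Sum.elim (fun _ => 0) d) := by
    have : (diagonal (Sum.elim (fun _ => 0) d) : Matrix (Ix N p) (Ix N p) ℂ)
        = fromBlocks 0 0 0 (diagonal d) := by
      ext i j
      rcases i with i | i <;> rcases j with j | j
      · simp [diagonal_apply]
      · simp
      · simp
      · by_cases h : i = j
        · subst h; simp
        · simp [h]
    rw [this, fromBlocks_multiply, fromBlocks_multiply]
    congr 1 <;> simp [hW]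
  rw [VB]
  calc _ = (hardB G R W * fromBlocks 1 0 (-R) 1) * fromBlocks 1 (XB G V V' d) 0 1
        * fromBlocks 1 0 0 V := by simp only [Matrix.mul_assoc]
    _ = fromBlocks 1 0 (-R) 1 * (fromBlocks 0 G 0 W * fromBlocks 1 (XB G V V' d) 0 1)
        * fromBlocks 1 0 0 V := by rw [e1]; simp only [Matrix.mul_assoc]
    _ = fromBlocks 1 0 (-R) 1 * fromBlocks 1 (XB G V V' d) 0 1
        * (fromBlocks 0 0 0 W * fromBlocks 1 0 0 V) := by rw [e2]; simp only [Matrix.mul_assoc]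
    _ = _ := by rw [e3]; simp only [Matrix.mul_assoc]

lemma s1_VB : s1 (VB G R V V' d) ≤ (N + p + s1 R) * (N + p + s1 (XB G V V' d)) * (N + s1 V) := by
  rw [VB]
  have e1 : s1 (fromBlocks 1 0 (-R) 1 : Matrix (Ix N p) (Ix N p) ℂ) = N + p + s1 R := by
    rw [s1_fromBlocks, s1_one, s1_zero, s1_neg, s1_one]
    simp
    ring
  have e2 : s1 (fromBlocks 1 (XB G V V' d) 0 1 : Matrix (Ix N p) (Ix N p) ℂ)
      = N + p + s1 (XB G V V' d) := by
    rw [s1_fromBlocks, s1_one, s1_zero, s1_one]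
    simp
    ring
  have e3 : s1 (fromBlocks 1 0 0 V : Matrix (Ix N p) (Ix N p) ℂ) = N + s1 V := by
    rw [s1_fromBlocks, s1_one, s1_zero, s1_zero]
    simp
  rw [← e1, ← e2, ← e3]
  refine (s1_mul _ _).trans ?_
  exact mul_le_mul_of_nonneg_right (s1_mul _ _) (s1_nonneg _)

lemma s1_VBi : s1 (VBi G R V V' d) ≤ (N + s1 V') * ((N + p + s1 (XB G V V' d)) * (N + p + s1 R)) := by
  rw [VBi]
  have e1 : s1 (fromBlocks 1 0 R 1 : Matrix (Ix N p) (Ix N p) ℂ) = N + p + s1 R := by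
    rw [s1_fromBlocks, s1_one, s1_zero, s1_one]
    simp
    ring
  have e2 : s1 (fromBlocks 1 (-(XB G V V' d)) 0 1 : Matrix (Ix N p) (Ix N p) ℂ)
      = N + p + s1 (XB G V V' d) := by
    rw [s1_fromBlocks, s1_one, s1_zero, s1_one, s1_neg]
    simp
    ring
  have e3 : s1 (fromBlocks 1 0 0 V' : Matrix (Ix N p) (Ix N p) ℂ) = N + s1 V' := by
    rw [s1_fromBlocks, s1_one, s1_zero, s1_zero]
    simp
  rw [← e1, ← e2, ← e3]
  refine (s1_mul _ _).trans ?_
  exact mul_le_mul_of_nonneg_left (s1_mul _ _) (s1_nonneg _)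

lemma s1_XB : s1 (XB G V V' d) ≤ s1 G * (s1 V * ((∑ k, ‖(d k)⁻¹‖) * s1 V')) := by
  rw [XB]
  refine (s1_mul _ _).trans (mul_le_mul_of_nonneg_left ?_ (s1_nonneg _))
  refine (s1_mul _ _).trans (mul_le_mul_of_nonneg_left ?_ (s1_nonneg _))
  refine (s1_mul _ _).trans (mul_le_mul_of_nonneg_right ?_ (s1_nonneg _))
  rw [s1_diagonal]

end block

end Pool.Agent.Helper97.LB
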