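import Mathlib
import Pool.Agent.Helper97.LB.Mtx

/-!
# The hard matrices on `Fin n`
-/

set_option linter.unusedSectionVars false

open Finset Matrix
open scoped RealInnerProductSpace
open Pool.Agent.Helper97.MatVec Pool.Agent.Helper97.Krylov

namespace Pool.Agent.Helper97.LB

variable {N p n : ℕ} [NeZero p]

/-- complex version of the label matrix -/
noncomputable def Gc (G : GM N p) : Matrix (Fin N) (ZMod p) ℂ := fun i x => ((G i x : ℝ) : ℂ)

/-- complex version of the mask matrix -/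
noncomputable def Rc (τ : ℝ) (R : RM N p) : Matrix (ZMod p) (Fin N) ℂ :=
  fun x i => ((τ * R x i : ℝ) : ℂ)

/-- the hard matrix -/
noncomputable def hardM (e : Ix N p ≃ Fin n) (ρ : ℝ) (w : Par p) (τ : ℝ) (G : GM N p)
    (R : RM N p) : Matrix (Fin n) (Fin n) ℂ :=
  Matrix.reindex e e (hardB (Gc G) (Rc τ R) ((cyM (ρ ^ p) w).map (fun x => (x : ℂ))))

/-- real vector to pair -/
noncomputable def toAns (e : Ix N p ≃ Fin n) (v : Fin n → ℝ) : Ans N p :=
  (WithLp.toLp 2 fun i => v (e (Sum.inl i)), WithLp.toLp 2 fun x => v (e (Sum.inr x)))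

/-- coordinates of a pair -/
def coord (q : Ans N p) : Ix N p → ℝ := Sum.elim q.1 q.2

/-- complex vector from two pairs -/
noncomputable def cvec (e : Ix N p ≃ Fin n) (q q' : Ans N p) : Fin n → ℂ :=
  fun j => ⟨coord q (e.symm j), coord q' (e.symm j)⟩

/-- real version of the label matrix -/
def Gre (G : GM N p) : Matrix (Fin N) (ZMod p) ℝ := fun i x => G i x

/-- real version of the mask matrix -/
noncomputable def Rre (τ : ℝ) (R : RM N p) : Matrix (ZMod p) (Fin N) ℝ := fun x i => τ * R x i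

/-- real block matrix -/
noncomputable def hardR (η : ℝ) (w : Par p) (τ : ℝ) (G : GM N p) (R : RM N p) :
    Matrix (Ix N p) (Ix N p) ℝ :=
  fromBlocks (Gre G * Rre τ R) (Gre G) ((cyM η w - Rre τ R * Gre G) * Rre τ R)
    (cyM η w - Rre τ R * Gre G)

lemma hardB_eq_map (η : ℝ) (w : Par p) (τ : ℝ) (G : GM N p) (R : RM N p) :
    hardB (Gc G) (Rc τ R) ((cyM η w).map (fun x => (x : ℂ)))
      = (hardR η w τ G R).map (fun x => (x : ℂ)) := by
  have key : ∀ {l m o : Type} [Fintype l] [Fintype m] [Fintype o] (A : Matrix l m ℝ)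
      (B : Matrix m o ℝ), (A.map (fun x => (x : ℂ))) * (B.map (fun x => (x : ℂ)))
        = (A * B).map (fun x => (x : ℂ)) := by
    intro l m o _ _ _ A B
    ext i j
    simp [Matrix.mul_apply]
  have key2 : ∀ {l m : Type} (A B : Matrix l m ℝ), A.map (fun x => (x : ℂ))
      - B.map (fun x => (x : ℂ)) = (A - B).map (fun x => (x : ℂ)) := by
    intro l m A B
    ext i j
    simp
  have hG : Gc G = (Gre G).map (fun x => (x : ℂ)) := rfl
  have hR : Rc τ R = (Rre τ R).map (fun x => (x : ℂ)) := rfl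
  rw [hardB, hardR, hG, hR, fromBlocks_map, key, key, key2, key]

lemma app_eq_mulVec (G : GM N p) (b : Pl p) (i : Fin N) :
    app G b i = (Gre G).mulVec b i := by
  rw [app_apply, PiLp.inner_apply, Matrix.mulVec, dotProduct]
  apply Finset.sum_congr rfl
  intro x _
  simp [mul_comm, Gre]

lemma app_eq_mulVec' (τ : ℝ) (R : RM N p) (b : Lb N) (x : ZMod p) :
    (τ • app R b) x = (Rre τ R).mulVec b x := by
  rw [PiLp.smul_apply, app_apply, PiLp.inner_apply, Matrix.mulVec, dotProduct, smul_eq_mul,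
    Finset.mul_sum]
  apply Finset.sum_congr rfl
  intro i _
  simp [Rre]
  ring

lemma cyc_eq_mulVec (η : ℝ) (w : Par p) (b : Pl p) (x : ZMod p) :
    cyc η w b x = (cyM η w).mulVec b x := by
  rw [cyc_apply, Matrix.mulVec, dotProduct, Finset.sum_eq_single (x - w.2.1)]
  · simp [cyM]
  · intro y _ hy
    simp [cyM, hy]
  · intro h
    exact absurd (Finset.mem_univ _) h

lemma coord_act (η : ℝ) (w : Par p) (τ : ℝ) (G : GM N p) (R : RM N p) (q : Ans N p) :
    coord (act η w τ G R q) = (hardR η w τ G R).mulVec (coord q) := by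
  set Gr : Matrix (Fin N) (ZMod p) ℝ := Gre G with hGr
  set Rr : Matrix (ZMod p) (Fin N) ℝ := Rre τ R with hRr
  have hb : ((q.2 + τ • app R q.1 : Pl p) : ZMod p → ℝ) = (q.2 : ZMod p → ℝ) + Rr.mulVec q.1 := by
    funext x
    rw [Pi.add_apply, ← app_eq_mulVec' τ R q.1 x]
    rfl
  have hl : (app G (q.2 + τ • app R q.1) : Fin N → ℝ)
      = Gr.mulVec ((q.2 : ZMod p → ℝ) + Rr.mulVec q.1) := by
    funext i
    rw [app_eq_mulVec, hb]
  have hz : (cyc η w (q.2 + τ • app R q.1) - τ • app R (app G (q.2 + τ • app R q.1)) : Pl p)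
      = WithLp.toLp 2 ((cyM η w).mulVec ((q.2 : ZMod p → ℝ) + Rr.mulVec q.1)
        - Rr.mulVec (Gr.mulVec ((q.2 : ZMod p → ℝ) + Rr.mulVec q.1))) := by
    ext x
    have e1 := cyc_eq_mulVec η w (q.2 + τ • app R q.1) x
    have e2 := app_eq_mulVec' τ R (app G (q.2 + τ • app R q.1)) x
    rw [hb] at e1
    rw [hl] at e2
    rw [PiLp.sub_apply, e1, e2]
    rfl
  funext i
  rw [hardR]
  rw [← hGr, ← hRr, fromBlocks_mulVec]
  have c1 : coord q ∘ Sum.inl = (q.1 : Fin N → ℝ) := rfl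
  have c2 : coord q ∘ Sum.inr = (q.2 : ZMod p → ℝ) := rfl
  rw [c1, c2]
  rcases i with i | x
  · show (app G (q.2 + τ • app R q.1) : Fin N → ℝ) i = _
    rw [hl, Sum.elim_inl, mulVec_add, ← mulVec_mulVec, Pi.add_apply, Pi.add_apply]
    ring
  · show (cyc η w (q.2 + τ • app R q.1) - τ • app R (app G (q.2 + τ • app R q.1)) : Pl p) x = _
    rw [hz, Sum.elim_inr]
    show ((cyM η w).mulVec ((q.2 : ZMod p → ℝ) + Rr.mulVec q.1)
        - Rr.mulVec (Gr.mulVec ((q.2 : ZMod p → ℝ) + Rr.mulVec q.1))) x = _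
    rw [mulVec_mulVec, ← sub_mulVec, mulVec_add, mulVec_mulVec]
    simp only [Pi.add_apply]
    ring

lemma hardM_mulVec (e : Ix N p ≃ Fin n) (ρ : ℝ) (w : Par p) (τ : ℝ) (G : GM N p) (R : RM N p)
    (x : Fin n → ℂ) : (hardM e ρ w τ G R).mulVec x
      = cvec e (act (ρ ^ p) w τ G R (toAns e fun j => (x j).re))
          (act (ρ ^ p) w τ G R (toAns e fun j => (x j).im)) := by
  funext j
  have h1 : (hardM e ρ w τ G R).mulVec x j
      = ∑ i, ((hardR (ρ ^ p) w τ G R (e.symm j) i : ℝ) : ℂ) * x (e i) := by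
    rw [hardM, hardB_eq_map, Matrix.mulVec, dotProduct, ← Equiv.sum_comp e]
    apply Finset.sum_congr rfl
    intro i _
    simp
  have h2 : ∀ v : Fin n → ℝ, coord (act (ρ ^ p) w τ G R (toAns e v)) (e.symm j)
      = ∑ i, hardR (ρ ^ p) w τ G R (e.symm j) i * v (e i) := by
    intro v
    rw [coord_act, Matrix.mulVec, dotProduct]
    apply Finset.sum_congr rfl
    intro i _
    congr 1
    rcases i with i | i <;> rfl
  rw [h1, cvec, h2, h2]
  apply Complex.ext
  · simp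
  · simp

section spec

variable (e : Ix N p ≃ Fin n) {ρ : ℝ} (w : Par p) (τ : ℝ) (G : GM N p) (R : RM N p)

/-- eigenvectors of the hard matrix -/
noncomputable def hardV (ρ : ℝ) : Matrix (Fin n) (Fin n) ℂ :=
  Matrix.reindex e e (VB (Gc G) (Rc τ R) (VW ρ w) (VI ρ w) (ev ρ))

/-- inverse -/
noncomputable def hardVi (ρ : ℝ) : Matrix (Fin n) (Fin n) ℂ :=
  Matrix.reindex e e (VBi (Gc G) (Rc τ R) (VW ρ w) (VI ρ w) (ev ρ))

/-- eigenvalues of the hard matrix -/
noncomputable def hardD (ρ : ℝ) : Fin n → ℂ := fun j => Sum.elim (fun _ => 0) (ev ρ) (e.symm j)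

lemma hardV_mul (hρ : 0 < ρ) : hardV e w τ G R ρ * hardVi e w τ G R ρ = 1 := by
  rw [hardV, hardVi, Matrix.reindex_apply, Matrix.reindex_apply, Matrix.submatrix_mul_equiv,
    VB_mul_VBi _ _ (VW_mul_VI hρ w)]
  exact Matrix.submatrix_one_equiv _

lemma hardV_isUnit (hρ : 0 < ρ) : IsUnit (hardV e w τ G R ρ).det :=
  Matrix.isUnit_det_of_right_inverse (hardV_mul e w τ G R hρ)

lemma hardV_inv (hρ : 0 < ρ) : (hardV e w τ G R ρ)⁻¹ = hardVi e w τ G R ρ :=
  Matrix.inv_eq_right_inv (hardV_mul e w τ G R hρ)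

lemma hardM_eq (hρ : 0 < ρ) : hardM e ρ w τ G R
    = hardV e w τ G R ρ * diagonal (hardD e ρ) * (hardV e w τ G R ρ)⁻¹ := by
  have h1 : hardM e ρ w τ G R * hardV e w τ G R ρ = hardV e w τ G R ρ * diagonal (hardD e ρ) := by
    have hd : ∀ k : ZMod p, ev ρ k ≠ 0 := by
      intro k h
      have := norm_ev hρ.le k
      rw [h, norm_zero] at this
      exact hρ.ne this
    have h2 := hardB_mul (Gc G) (Rc τ R) (VW_mul_VI hρ w) (VI_mul_VW hρ w) (cyM_mul_VW hρ w) hd
    have h3 : (diagonal (hardD e ρ) : Matrix (Fin n) (Fin n) ℂ)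
        = Matrix.reindex e e (diagonal (Sum.elim (fun _ => 0) (ev ρ))) := by
      rw [Matrix.reindex_apply, Matrix.submatrix_diagonal_equiv]
      rfl
    rw [h3, hardM, hardV, Matrix.reindex_apply, Matrix.reindex_apply, Matrix.reindex_apply,
      Matrix.submatrix_mul_equiv, Matrix.submatrix_mul_equiv, h2]
  rw [← h1, Matrix.mul_assoc, Matrix.mul_nonsing_inv _ (hardV_isUnit e w τ G R hρ), Matrix.mul_one]

lemma hardM_spectrum (hρ : 0 < ρ) : spectrum ℂ (hardM e ρ w τ G R) = Set.range (hardD (n := n) e ρ) :=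
  spectrum_eq (hardV_isUnit e w τ G R hρ) (hardM_eq e w τ G R hρ)

lemma norm_hardD (hρ : 0 < ρ) (j : Fin n) : ‖hardD e ρ j‖ = 0 ∨ ‖hardD e ρ j‖ = ρ := by
  unfold hardD
  rcases e.symm j with i | i
  · left; simp
  · right; exact norm_ev hρ.le i

/-- acceptable values have modulus close to the spectral radius -/
lemma acceptable_bounds (hρ : 0 < ρ) {z : ℂ} (h : Acceptable (hardM e ρ w τ G R) (1 / 4) z) :
    3 / 4 * ρ ≤ ‖z‖ ∧ ‖z‖ ≤ 5 / 4 * ρ := by
  obtain ⟨l₁, h1, h2, l', h3, h4, h5⟩ := h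
  rw [hardM_spectrum e w τ G R hρ] at h1 h2 h3
  obtain ⟨j1, rfl⟩ := h1
  obtain ⟨j2, rfl⟩ := h3
  have hmax := h2 (hardD e ρ (e (Sum.inr 0))) ⟨_, rfl⟩
  have he : ‖hardD (n := n) e ρ (e (Sum.inr 0))‖ = ρ := by
    unfold hardD
    rw [Equiv.symm_apply_apply]
    exact norm_ev hρ.le 0
  rw [he] at hmax
  have hl1 : ‖hardD e ρ j1‖ = ρ := by
    rcases norm_hardD e hρ j1 with h | h
    · rw [h] at hmax; linarith
    · exact h
  rw [hl1] at h4 h5
  have hl2 : ‖hardD e ρ j2‖ = ρ := by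
    rcases norm_hardD e hρ j2 with h | h
    · rw [h] at h4; nlinarith
    · exact h
  have h6 := norm_sub_norm_le z (hardD e ρ j2)
  have h7 := norm_sub_norm_le (hardD e ρ j2) z
  rw [norm_sub_rev] at h7
  rw [hl2] at h6 h7
  constructor <;> linarith

end spec

end Pool.Agent.Helper97.LB
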