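import Mathlib
import Pool.Agent.Helper97.LB.Mtx2

/-!
# The condition number of the hard matrices with unit links
-/

set_option linter.unusedSectionVars false

open Finset Matrix MeasureTheory ProbabilityTheory
open scoped RealInnerProductSpace ENNReal
open Pool.Agent.Helper97.MatVec Pool.Agent.Helper97.Krylov

namespace Pool.Agent.Helper97.LB

variable {N p n : ℕ} [NeZero p]

/-- the two Gaussian matrices have typical size -/
def szOK (g : GM N p × RM N p) : Prop := ‖g.1‖ ^ 2 ≤ 100 * (N * p) ∧ ‖g.2‖ ^ 2 ≤ 100 * (N * p)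

lemma measurableSet_szOK : MeasurableSet {g : GM N p × RM N p | szOK g} := by
  have h1 : Measurable (fun g : GM N p × RM N p => ‖g.1‖ ^ 2) := measurable_fst.norm.pow_const 2
  have h2 : Measurable (fun g : GM N p × RM N p => ‖g.2‖ ^ 2) := measurable_snd.norm.pow_const 2
  exact (measurableSet_le h1 measurable_const).inter (measurableSet_le h2 measurable_const)

lemma finrank_GM : Module.finrank ℝ (GM N p) = N * p := by
  rw [LinearEquiv.finrank_eq (WithLp.linearEquiv 2 ℝ (Fin N → Pl p)), Module.finrank_pi_fintype]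
  simp

lemma finrank_RM : Module.finrank ℝ (RM N p) = N * p := by
  rw [LinearEquiv.finrank_eq (WithLp.linearEquiv 2 ℝ (ZMod p → Lb N)), Module.finrank_pi_fintype]
  simp [mul_comm]

lemma szOK_prob (hN : 1 ≤ N) : 0.98 ≤ (gam N p).real {g | szOK g} := by
  have hp : 0 < p := Nat.pos_of_ne_zero (NeZero.ne p)
  have hpos : (0 : ℝ) < 100 * (N * p) := by
    have h1 : (0 : ℝ) < N := by exact_mod_cast hN
    have h2 : (0 : ℝ) < p := by exact_mod_cast hp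
    positivity
  have m1 : MeasurableSet {x : GM N p | ¬ (‖x‖ ^ 2 ≤ 100 * ((N : ℝ) * p))} :=
    (measurableSet_le (measurable_norm.pow_const 2) measurable_const).compl
  have m2 : MeasurableSet {x : RM N p | ¬ (‖x‖ ^ 2 ≤ 100 * ((N : ℝ) * p))} :=
    (measurableSet_le (measurable_norm.pow_const 2) measurable_const).compl
  have h1 : gam N p {g | ¬ (‖g.1‖ ^ 2 ≤ 100 * ((N : ℝ) * p))} ≤ ENNReal.ofReal 0.01 := by
    have h3 : MeasurePreserving (Prod.fst : GM N p × RM N p → GM N p) (gam N p)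
      (stdGaussian (GM N p)) := measurePreserving_fst
    have h4 := h3.measure_preimage m1.nullMeasurableSet
    have h5 : gam N p {g | ¬ (‖g.1‖ ^ 2 ≤ 100 * ((N : ℝ) * p))}
        = stdGaussian (GM N p) {x : GM N p | ¬ (‖x‖ ^ 2 ≤ 100 * ((N : ℝ) * p))} := h4
    rw [h5]
    refine (tail_norm hpos).trans (ENNReal.ofReal_le_ofReal ?_)
    rw [finrank_GM, div_le_iff₀ hpos]
    push_cast
    linarith
  have h2 : gam N p {g | ¬ (‖g.2‖ ^ 2 ≤ 100 * ((N : ℝ) * p))} ≤ ENNReal.ofReal 0.01 := by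
    have h3 : MeasurePreserving (Prod.snd : GM N p × RM N p → RM N p) (gam N p)
      (stdGaussian (RM N p)) := measurePreserving_snd
    have h4 := h3.measure_preimage m2.nullMeasurableSet
    have h5 : gam N p {g | ¬ (‖g.2‖ ^ 2 ≤ 100 * ((N : ℝ) * p))}
        = stdGaussian (RM N p) {x : RM N p | ¬ (‖x‖ ^ 2 ≤ 100 * ((N : ℝ) * p))} := h4
    rw [h5]
    refine (tail_norm hpos).trans (ENNReal.ofReal_le_ofReal ?_)
    rw [finrank_RM, div_le_iff₀ hpos]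
    push_cast
    linarith
  have h3 : gam N p {g | szOK g}ᶜ ≤ ENNReal.ofReal 0.02 := by
    have hsub : {g : GM N p × RM N p | szOK g}ᶜ ⊆ {g | ¬ (‖g.1‖ ^ 2 ≤ 100 * ((N : ℝ) * p))} ∪
        {g | ¬ (‖g.2‖ ^ 2 ≤ 100 * ((N : ℝ) * p))} := by
      intro g hg
      simp only [Set.mem_compl_iff, Set.mem_ofPred_eq, szOK, Set.mem_union] at hg ⊢
      tauto
    refine (measure_mono hsub).trans ((measure_union_le _ _).trans ((add_le_add h1 h2).trans ?_))
    rw [← ENNReal.ofReal_add (by norm_num) (by norm_num)]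
    exact ENNReal.ofReal_le_ofReal (by norm_num)
  have h4 : (gam N p).real {g | szOK g}ᶜ ≤ 0.02 :=
    ENNReal.toReal_le_of_le_ofReal (by norm_num) h3
  rw [probReal_compl_eq_one_sub measurableSet_szOK] at h4
  linarith

lemma s1_Gc_le {G : GM N p} {M : ℝ} (h : ‖G‖ ^ 2 ≤ M) : s1 (Gc G) ^ 2 ≤ N * p * M := by
  have e1 : s1 (Gc G) = ∑ i, ∑ x, |G i x| := by
    unfold s1 Gc
    simp
  have e2 : ‖G‖ ^ 2 = ∑ i, ∑ x, |G i x| ^ 2 := by
    rw [PiLp.norm_sq_eq_of_L2]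
    apply Finset.sum_congr rfl
    intro i _
    rw [EuclideanSpace.norm_sq_eq]
    apply Finset.sum_congr rfl
    intro x _
    rw [Real.norm_eq_abs]
  rw [e1]
  have s2 : (∑ i, ∑ x, |G i x|) ^ 2 ≤ N * ∑ i, (∑ x, |G i x|) ^ 2 := by
    have := sq_sum_le_card_mul_sum_sq (s := (Finset.univ : Finset (Fin N)))
      (f := fun i => ∑ x, |G i x|)
    simpa using this
  have s3 : ∀ i, (∑ x, |G i x|) ^ 2 ≤ p * ∑ x, |G i x| ^ 2 := by
    intro i
    have := sq_sum_le_card_mul_sum_sq (s := (Finset.univ : Finset (ZMod p)))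
      (f := fun x => |G i x|)
    rw [Finset.card_univ, ZMod.card] at this
    exact this
  calc (∑ i, ∑ x, |G i x|) ^ 2 ≤ N * ∑ i, (∑ x, |G i x|) ^ 2 := s2
    _ ≤ N * ∑ i, p * ∑ x, |G i x| ^ 2 := by
        gcongr with i _
        exact s3 i
    _ = N * p * ‖G‖ ^ 2 := by rw [← Finset.mul_sum, e2]; ring
    _ ≤ N * p * M := by gcongr

lemma s1_Rc_le {τ : ℝ} (hτ : 0 ≤ τ) {R : RM N p} {M : ℝ} (h : ‖R‖ ^ 2 ≤ M) :
    s1 (Rc τ R) ^ 2 ≤ τ ^ 2 * (N * p * M) := by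
  have e1 : s1 (Rc τ R) = τ * ∑ x, ∑ i, |R x i| := by
    unfold s1 Rc
    rw [Finset.mul_sum]
    apply Finset.sum_congr rfl
    intro x _
    rw [Finset.mul_sum]
    apply Finset.sum_congr rfl
    intro i _
    rw [Complex.norm_real, Real.norm_eq_abs, abs_mul, abs_of_nonneg hτ]
  have e2 : ‖R‖ ^ 2 = ∑ x, ∑ i, |R x i| ^ 2 := by
    rw [PiLp.norm_sq_eq_of_L2]
    apply Finset.sum_congr rfl
    intro i _
    rw [EuclideanSpace.norm_sq_eq]
    apply Finset.sum_congr rfl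
    intro x _
    rw [Real.norm_eq_abs]
  rw [e1, mul_pow]
  apply mul_le_mul_of_nonneg_left _ (sq_nonneg _)
  have s2 : (∑ x, ∑ i, |R x i|) ^ 2 ≤ p * ∑ x, (∑ i, |R x i|) ^ 2 := by
    have := sq_sum_le_card_mul_sum_sq (s := (Finset.univ : Finset (ZMod p)))
      (f := fun x => ∑ i, |R x i|)
    rw [Finset.card_univ, ZMod.card] at this
    exact this
  have s3 : ∀ x, (∑ i, |R x i|) ^ 2 ≤ N * ∑ i, |R x i| ^ 2 := by
    intro x
    have := sq_sum_le_card_mul_sum_sq (s := (Finset.univ : Finset (Fin N)))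
      (f := fun i => |R x i|)
    simpa using this
  calc (∑ x, ∑ i, |R x i|) ^ 2 ≤ p * ∑ x, (∑ i, |R x i|) ^ 2 := s2
    _ ≤ p * ∑ x, N * ∑ i, |R x i| ^ 2 := by
        gcongr with x _
        exact s3 x
    _ = N * p * ‖R‖ ^ 2 := by rw [← Finset.mul_sum, e2]; ring
    _ ≤ N * p * M := by gcongr

open scoped Matrix.Norms.L2Operator in
/-- a polynomial bound for the condition number, for unit links -/
lemma cond_hardV_le (e : Ix N p ≃ Fin n) (w : Par p) {τ X : ℝ} (hτ0 : 0 ≤ τ)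
    (hN : (1 : ℝ) ≤ N) (hNX : (N : ℝ) ≤ X) (hpX : (p : ℝ) ≤ X) (hτX : τ ≤ X)
    {g : GM N p × RM N p} (hg : szOK g) :
    MatVec.cond (hardV e w τ g.1 g.2 1) ≤ 82944 * X ^ 21 := by
  have hp : (1 : ℝ) ≤ p := by
    have : 1 ≤ p := Nat.one_le_iff_ne_zero.2 (NeZero.ne p)
    exact_mod_cast this
  have hX1 : 1 ≤ X := hN.trans hNX
  have hG : s1 (Gc g.1) ≤ 10 * (N * p) := by
    have h1 := s1_Gc_le hg.1
    have h2 : s1 (Gc g.1) ^ 2 ≤ (10 * (N * p)) ^ 2 := by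
      refine h1.trans (le_of_eq ?_); ring
    exact le_of_sq_le_sq h2 (by positivity)
  have hR : s1 (Rc τ g.2) ≤ 10 * (N * p) * τ := by
    have h1 := s1_Rc_le hτ0 hg.2
    have h2 : s1 (Rc τ g.2) ^ 2 ≤ (10 * (N * p) * τ) ^ 2 := by
      refine h1.trans (le_of_eq ?_); ring
    exact le_of_sq_le_sq h2 (by positivity)
  have hX : s1 (XB (Gc g.1) (VW 1 w) (VI 1 w) (ev 1)) ≤ 10 * (N * p) * p ^ 4 := by
    refine (s1_XB (Gc g.1) (V := VW 1 w) (V' := VI 1 w) (d := ev 1)).trans ?_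
    rw [s1_VW, s1_VI]
    have : ∑ k : ZMod p, ‖(ev 1 k)⁻¹‖ = p := by
      have h1 : ∀ k : ZMod p, ‖(ev 1 k)⁻¹‖ = 1 := by
        intro k
        rw [norm_inv, norm_ev zero_le_one]
        norm_num
      simp [h1]
    rw [this]
    have : (p : ℝ) ^ 2 * (p * p) = p ^ 4 := by ring
    rw [this]
    exact mul_le_mul_of_nonneg_right hG (by positivity)
  have hXX : X ≤ X ^ 3 := le_self_pow₀ hX1 (by norm_num)
  have hXX6 : X ≤ X ^ 6 := le_self_pow₀ hX1 (by norm_num)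
  have hXX2 : X ≤ X ^ 2 := le_self_pow₀ hX1 (by norm_num)
  have b1 : (N : ℝ) + p + s1 (Rc τ g.2) ≤ 12 * X ^ 3 := by
    have : 10 * ((N : ℝ) * p) * τ ≤ 10 * (X * X) * X := by gcongr
    nlinarith
  have b2 : (N : ℝ) + p + s1 (XB (Gc g.1) (VW 1 w) (VI 1 w) (ev 1)) ≤ 12 * X ^ 6 := by
    have : 10 * ((N : ℝ) * p) * p ^ 4 ≤ 10 * (X * X) * X ^ 4 := by gcongr
    nlinarith
  have b3 : (N : ℝ) + s1 (VW 1 w) ≤ 2 * X ^ 2 := by
    rw [s1_VW]
    have : (p : ℝ) ^ 2 ≤ X ^ 2 := by gcongr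
    linarith
  have b4 : (N : ℝ) + s1 (VI 1 w) ≤ 2 * X := by
    rw [s1_VI]; linarith
  have n1 : 0 ≤ (N : ℝ) + p + s1 (Rc τ g.2) := by
    have := s1_nonneg (Rc τ g.2); positivity
  have n2 : 0 ≤ (N : ℝ) + p + s1 (XB (Gc g.1) (VW 1 w) (VI 1 w) (ev 1)) := by
    have := s1_nonneg (XB (Gc g.1) (VW 1 w) (VI 1 w) (ev 1)); positivity
  have n3 : 0 ≤ (N : ℝ) + s1 (VW 1 w) := by
    have := s1_nonneg (VW 1 w); positivity
  have n4 : 0 ≤ (N : ℝ) + s1 (VI 1 w) := by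
    have := s1_nonneg (VI 1 w); positivity
  have v1 : s1 (hardV e w τ g.1 g.2 1) ≤ 12 * X ^ 3 * (12 * X ^ 6) * (2 * X ^ 2) := by
    rw [hardV, s1_reindex]
    refine (s1_VB (Gc g.1) (Rc τ g.2) (V := VW 1 w) (V' := VI 1 w) (d := ev 1)).trans ?_
    exact mul_le_mul (mul_le_mul b1 b2 n2 (by positivity)) b3 n3 (by positivity)
  have v2 : s1 (hardVi e w τ g.1 g.2 1) ≤ 2 * X * (12 * X ^ 6 * (12 * X ^ 3)) := by
    rw [hardVi, s1_reindex]
    refine (s1_VBi (Gc g.1) (Rc τ g.2) (V := VW 1 w) (V' := VI 1 w) (d := ev 1)).trans ?_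
    exact mul_le_mul b4 (mul_le_mul b2 b1 n1 (by positivity)) (mul_nonneg n2 n1) (by positivity)
  have h1 := norm_le_s1 (hardV e w τ g.1 g.2 1)
  have h2 := norm_le_s1 (hardVi e w τ g.1 g.2 1)
  rw [MatVec.cond, hardV_inv e w τ g.1 g.2 one_pos]
  calc _ ≤ s1 (hardV e w τ g.1 g.2 1) * s1 (hardVi e w τ g.1 g.2 1) :=
        mul_le_mul h1 h2 (norm_nonneg _) (s1_nonneg _)
    _ ≤ (12 * X ^ 3 * (12 * X ^ 6) * (2 * X ^ 2)) * (2 * X * (12 * X ^ 6 * (12 * X ^ 3))) :=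
        mul_le_mul v1 v2 (s1_nonneg _) (by positivity)
    _ = 82944 * X ^ 21 := by ring

open scoped Matrix.Norms.L2Operator in
lemma one_le_cond {k : ℕ} (hk : 1 ≤ k) {V : Matrix (Fin k) (Fin k) ℂ} (hV : IsUnit V.det) :
    1 ≤ MatVec.cond V := by
  have : Nonempty (Fin k) := ⟨⟨0, by omega⟩⟩
  have h1 : ‖V * V⁻¹‖ ≤ ‖V‖ * ‖V⁻¹‖ := Matrix.l2_opNorm_mul _ _
  rw [Matrix.mul_nonsing_inv _ hV] at h1
  have h2 : ‖(1 : Matrix (Fin k) (Fin k) ℂ)‖ = 1 := by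
    rw [← Matrix.diagonal_one, Matrix.l2_opNorm_diagonal]
    simp
  rw [h2] at h1
  exact h1

end Pool.Agent.Helper97.LB
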