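import Mathlib
import Pool.Agent.Helper97.LB.Cnd

/-!
# Simulation of a matrix-vector algorithm by a real strategy
-/

set_option linter.unusedSectionVars false

open Finset Matrix MeasureTheory ProbabilityTheory
open scoped RealInnerProductSpace ENNReal
open Pool.Agent.Helper97.MatVec Pool.Agent.Helper97.Krylov

namespace Pool.Agent.Helper97.LB

variable {N p n : ℕ} [NeZero p]

instance instMeasOmega (alg : RandAlg n) : MeasurableSpace alg.Ω := alg.mΩ

instance instProbMu (alg : RandAlg n) : IsProbabilityMeasure alg.μ := alg.prob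

/-- the query asked in a given state (zero if the algorithm has stopped) -/
def qry (y : (Fin n → ℂ) ⊕ ℂ) : Fin n → ℂ := Sum.elim id (fun _ => 0) y

/-- complex answers from the real history -/
noncomputable def ansOf (e : Ix N p ≃ Fin n) (h : ℕ → Ans N p) (k : ℕ) : Fin k → Fin n → ℂ :=
  fun i => cvec e (h (2 * i)) (h (2 * i + 1))

/-- the real strategy of an algorithm -/
noncomputable def strat (alg : RandAlg n) (e : Ix N p ≃ Fin n) (ω : alg.Ω) :
    ℕ → (ℕ → Ans N p) → Ans N p := fun m h =>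
  if m % 2 = 0 then toAns e fun j => (qry (alg.step (m / 2) ω (ansOf e h (m / 2))) j).re
  else toAns e fun j => (qry (alg.step (m / 2) ω (ansOf e h (m / 2))) j).im

/-- the event that the algorithm stops within `T` steps with a value of modulus at least `3/4` -/
def bigSet (alg : RandAlg n) (e : Ix N p ≃ Fin n) (T : ℕ) (ω : alg.Ω) : Set (ℕ → Ans N p) :=
  {h | ∃ k ≤ T, (∀ i < k, ∃ x, alg.step i ω (ansOf e h i) = Sum.inl x) ∧
    ∃ z, alg.step k ω (ansOf e h k) = Sum.inr z ∧ 3 / 4 ≤ ‖z‖}

lemma ansOf_congr (e : Ix N p ≃ Fin n) {h h' : ℕ → Ans N p} {k : ℕ}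
    (hh : ∀ i < 2 * k, h i = h' i) : ansOf e h k = ansOf e h' k := by
  funext i
  unfold ansOf
  rw [hh (2 * i) (by omega), hh (2 * i + 1) (by omega)]

lemma run_stable (S : ℕ → (ℕ → Ans N p) → Ans N p) (A : Ans N p → Ans N p) {m m' i : ℕ}
    (hi : i < m) (hm : m ≤ m') : run S A m' i = run S A m i := by
  induction m' with
  | zero => omega
  | succ k ih =>
    rcases Nat.lt_or_ge k m with h | h
    · have : m = k + 1 := by omega
      rw [this]
    · rw [run, Function.update_of_ne (by omega)]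
      exact ih h

lemma mulVec_elim (M : Matrix (Fin n) (Fin n) ℂ) (y : (Fin n → ℂ) ⊕ ℂ) :
    Sum.elim (fun x => M.mulVec x) (fun _ => 0) y = M.mulVec (qry y) := by
  rcases y with x | z
  · rfl
  · simp [qry]

lemma sim (alg : RandAlg n) (e : Ix N p ≃ Fin n) (ρ : ℝ) (w : Par p) (τ : ℝ) (G : GM N p)
    (R : RM N p) (ω : alg.Ω) (k : ℕ) : alg.answers (hardM e ρ w τ G R) ω k
      = ansOf e (run (strat alg e ω) (act (ρ ^ p) w τ G R) (2 * k)) k := by
  induction k with
  | zero => funext i; exact Fin.elim0 i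
  | succ k ih =>
    set S := strat alg e ω with hS
    set A := act (ρ ^ p) w τ G R with hA
    rw [RandAlg.answers_succ, mulVec_elim]
    have h0 : ∀ i < 2 * k, run S A (2 * k + 1) i = run S A (2 * k) i := fun i hi =>
      run_stable S A hi (by omega)
    have h1 : ansOf e (run S A (2 * k + 1)) k = alg.answers (hardM e ρ w τ G R) ω k := by
      rw [ih]; exact ansOf_congr e h0
    have e0 : run S A (2 * (k + 1)) (2 * k) = A (S (2 * k) (run S A (2 * k))) := by
      rw [run_stable S A (m := 2 * k + 1) (by omega) (by omega), run, Function.update_self]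
    have e1 : run S A (2 * (k + 1)) (2 * k + 1) = A (S (2 * k + 1) (run S A (2 * k + 1))) := by
      rw [show 2 * (k + 1) = 2 * k + 1 + 1 by ring, run, Function.update_self]
    have s0 : S (2 * k) (run S A (2 * k)) = toAns e fun j =>
        (qry (alg.step k ω (alg.answers (hardM e ρ w τ G R) ω k)) j).re := by
      have a1 : 2 * k % 2 = 0 := by omega
      have a2 : 2 * k / 2 = k := by omega
      rw [hS, strat, if_pos a1, a2, ← hS, ← ih]
    have s1 : S (2 * k + 1) (run S A (2 * k + 1)) = toAns e fun j =>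
        (qry (alg.step k ω (alg.answers (hardM e ρ w τ G R) ω k)) j).im := by
      have a1 : ¬ ((2 * k + 1) % 2 = 0) := by omega
      have a2 : (2 * k + 1) / 2 = k := by omega
      rw [hS, strat, if_neg a1, a2, ← hS, h1]
    funext i
    refine Fin.lastCases ?_ (fun i => ?_) i
    · rw [Fin.snoc_last]
      unfold ansOf
      simp only [Fin.val_last]
      rw [e0, e1, s0, s1, hardM_mulVec]
    · rw [Fin.snoc_castSucc, ih]
      unfold ansOf
      simp only [Fin.val_castSucc]
      have hi := i.2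
      rw [run_stable S A (m := 2 * k) (m' := 2 * (k + 1)) (i := 2 * i) (by omega) (by omega),
        run_stable S A (m := 2 * k) (m' := 2 * (k + 1)) (i := 2 * i + 1) (by omega) (by omega)]

lemma sim_le (alg : RandAlg n) (e : Ix N p ≃ Fin n) (ρ : ℝ) (w : Par p) (τ : ℝ) (G : GM N p)
    (R : RM N p) (ω : alg.Ω) {k T : ℕ} (hk : k ≤ T) :
    ansOf e (run (strat alg e ω) (act (ρ ^ p) w τ G R) (2 * T)) k
      = alg.answers (hardM e ρ w τ G R) ω k := by
  rw [sim]
  exact ansOf_congr e fun i hi => run_stable _ _ hi (by omega)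

lemma mem_bigSet (alg : RandAlg n) (e : Ix N p ≃ Fin n) (ρ : ℝ) (w : Par p) (τ : ℝ) (G : GM N p)
    (R : RM N p) (ω : alg.Ω) (T : ℕ) :
    run (strat alg e ω) (act (ρ ^ p) w τ G R) (2 * T) ∈ bigSet alg e T ω ↔
      ∃ k ≤ T, ∃ z, alg.Returns (hardM e ρ w τ G R) ω k z ∧ 3 / 4 ≤ ‖z‖ := by
  constructor
  · rintro ⟨k, hk, h1, z, h2, h3⟩
    refine ⟨k, hk, z, ⟨fun i hi => ?_, ?_⟩, h3⟩
    · obtain ⟨x, hx⟩ := h1 i hi
      rw [sim_le alg e ρ w τ G R ω (show i ≤ T by omega)] at hx
      exact ⟨x, hx⟩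
    · rw [sim_le alg e ρ w τ G R ω hk] at h2
      exact h2
  · rintro ⟨k, hk, z, ⟨h1, h2⟩, h3⟩
    refine ⟨k, hk, fun i hi => ?_, z, ?_, h3⟩
    · obtain ⟨x, hx⟩ := h1 i hi
      refine ⟨x, ?_⟩
      rw [sim_le alg e ρ w τ G R ω (show i ≤ T by omega)]
      exact hx
    · rw [sim_le alg e ρ w τ G R ω hk]
      exact h2

section meas

lemma measurable_coord (i : Ix N p) : Measurable (fun q : Ans N p => coord q i) := by
  rcases i with i | x
  · have h : Measurable (fun v : Lb N => v i) := by fun_prop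
    exact h.comp measurable_fst
  · have h : Measurable (fun v : Pl p => v x) := by fun_prop
    exact h.comp measurable_snd

lemma measurable_ansOf (e : Ix N p ≃ Fin n) (k : ℕ) :
    Measurable (fun h : ℕ → Ans N p => ansOf e h k) := by
  apply measurable_pi_lambda
  intro i
  apply measurable_pi_lambda
  intro j
  have h1 : Measurable (fun h : ℕ → Ans N p => coord (h (2 * i)) (e.symm j)) :=
    (measurable_coord _).comp (measurable_pi_apply _)
  have h2 : Measurable (fun h : ℕ → Ans N p => coord (h (2 * i + 1)) (e.symm j)) :=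
    (measurable_coord _).comp (measurable_pi_apply _)
  have h3 : (fun h : ℕ → Ans N p => ansOf e h k i j)
      = fun h => (coord (h (2 * i)) (e.symm j) : ℂ) + (coord (h (2 * i + 1)) (e.symm j) : ℂ)
        * Complex.I := by
    funext h
    unfold ansOf cvec
    exact Complex.mk_eq_add_mul_I _ _
  rw [h3]
  exact (Complex.measurable_ofReal.comp h1).add
    ((Complex.measurable_ofReal.comp h2).mul_const _)

lemma measurable_qry : Measurable (qry : (Fin n → ℂ) ⊕ ℂ → Fin n → ℂ) :=
  measurable_id.sumElim measurable_const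

lemma measurable_toAns (e : Ix N p ≃ Fin n) : Measurable (toAns e : (Fin n → ℝ) → Ans N p) := by
  unfold toAns
  apply Measurable.prodMk
  · have h : Measurable (fun v : Fin n → ℝ => fun i : Fin N => v (e (Sum.inl i))) := by fun_prop
    exact (PiLp.continuous_toLp 2 (fun _ : Fin N => ℝ)).measurable.comp h
  · have h : Measurable (fun v : Fin n → ℝ => fun i : ZMod p => v (e (Sum.inr i))) := by fun_prop
    exact (PiLp.continuous_toLp 2 (fun _ : ZMod p => ℝ)).measurable.comp h

variable (alg : RandAlg n) (e : Ix N p ≃ Fin n)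

lemma measurable_stepAns (k : ℕ) :
    Measurable (fun q : alg.Ω × (ℕ → Ans N p) => alg.step k q.1 (ansOf e q.2 k)) := by
  have h1 : Measurable (fun q : alg.Ω × (ℕ → Ans N p) => (q.1, ansOf e q.2 k)) :=
    measurable_fst.prodMk ((measurable_ansOf e k).comp measurable_snd)
  have h2 := (alg.measurable_step k).comp h1
  exact h2

lemma measurable_strat (m : ℕ) :
    Measurable (fun q : alg.Ω × (ℕ → Ans N p) => strat alg e q.1 m q.2) := by
  unfold strat
  have h1 := measurable_qry.comp (measurable_stepAns alg e (m / 2))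
  split_ifs
  · apply (measurable_toAns e).comp
    apply measurable_pi_lambda
    intro j
    exact Complex.measurable_re.comp ((measurable_pi_apply j).comp h1)
  · apply (measurable_toAns e).comp
    apply measurable_pi_lambda
    intro j
    exact Complex.measurable_im.comp ((measurable_pi_apply j).comp h1)

lemma measurableSet_big (T : ℕ) :
    MeasurableSet {q : alg.Ω × (ℕ → Ans N p) | q.2 ∈ bigSet alg e T q.1} := by
  have hl : MeasurableSet {y : (Fin n → ℂ) ⊕ ℂ | ∃ x, y = Sum.inl x} := by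
    have : {y : (Fin n → ℂ) ⊕ ℂ | ∃ x, y = Sum.inl x} = Set.range Sum.inl := by
      ext y; constructor
      · rintro ⟨x, rfl⟩; exact ⟨x, rfl⟩
      · rintro ⟨x, rfl⟩; exact ⟨x, rfl⟩
    rw [this]
    exact measurableSet_range_inl
  have hr : MeasurableSet {y : (Fin n → ℂ) ⊕ ℂ | ∃ z : ℂ, y = Sum.inr z ∧ 3 / 4 ≤ ‖z‖} := by
    have : {y : (Fin n → ℂ) ⊕ ℂ | ∃ z : ℂ, y = Sum.inr z ∧ 3 / 4 ≤ ‖z‖}
        = Sum.inr '' {z : ℂ | 3 / 4 ≤ ‖z‖} := by
      ext y; constructor
      · rintro ⟨z, rfl, hz⟩; exact ⟨z, hz, rfl⟩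
      · rintro ⟨z, hz, rfl⟩; exact ⟨z, rfl, hz⟩
    rw [this]
    exact measurableSet_inr_image.2 (measurableSet_le measurable_const measurable_norm)
  have : {q : alg.Ω × (ℕ → Ans N p) | q.2 ∈ bigSet alg e T q.1}
      = ⋃ k ∈ Set.Iic T, ((⋂ i ∈ Set.Iio k,
        (fun q : alg.Ω × (ℕ → Ans N p) => alg.step i q.1 (ansOf e q.2 i)) ⁻¹'
          {y | ∃ x, y = Sum.inl x}) ∩
        (fun q : alg.Ω × (ℕ → Ans N p) => alg.step k q.1 (ansOf e q.2 k)) ⁻¹'
          {y | ∃ z : ℂ, y = Sum.inr z ∧ 3 / 4 ≤ ‖z‖}) := by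
    ext q
    simp only [bigSet, Set.mem_ofPred_eq, Set.mem_iUnion, Set.mem_inter_iff, Set.mem_iInter,
      Set.mem_preimage, Set.mem_Iic, Set.mem_Iio, exists_prop]
  rw [this]
  refine MeasurableSet.biUnion (Set.to_countable _) fun k _ => MeasurableSet.inter ?_ ?_
  · exact MeasurableSet.biInter (Set.to_countable _) fun i _ => measurable_stepAns alg e i hl
  · exact measurable_stepAns alg e k hr

lemma measurable_run2 (η : ℝ) (w : Par p) (τ : ℝ) (K : ℕ) :
    Measurable (fun q : (GM N p × RM N p) × alg.Ω =>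
      run (strat alg e q.2) (act η w τ q.1.1 q.1.2) K) := by
  induction K with
  | zero => exact measurable_const
  | succ k ih =>
    have h1 := (measurable_strat alg e k).comp (measurable_snd.prodMk ih)
    have h2 := (measurable_act η w τ).comp (measurable_fst.prodMk h1)
    have h3 := Measurable.upd ih h2 k
    exact h3

/-- the joint event -/
def jointSet (η : ℝ) (w : Par p) (τ : ℝ) (T : ℕ) : Set ((GM N p × RM N p) × alg.Ω) :=
  {q | run (strat alg e q.2) (act η w τ q.1.1 q.1.2) (2 * T) ∈ bigSet alg e T q.2}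

lemma measurableSet_jointSet (η : ℝ) (w : Par p) (τ : ℝ) (T : ℕ) :
    MeasurableSet (jointSet alg e η w τ T) := by
  have h1 := measurable_snd.prodMk (measurable_run2 alg e η w τ (2 * T))
  have h2 := h1 (measurableSet_big alg e T)
  exact h2

end meas

end Pool.Agent.Helper97.LB
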