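import Mathlib
import Pool.Agent.Helper97.LB.Alg

/-!
# The lower bound
-/

set_option linter.unusedSectionVars false

open Finset Matrix MeasureTheory ProbabilityTheory
open scoped RealInnerProductSpace ENNReal
open Pool.Agent.Helper97.MatVec Pool.Agent.Helper97.Krylov

namespace Pool.Agent.Helper97.LB

/-- values of a polynomial grow slower than any fractional power of the exponential -/
lemma exists_large (P : MvPolynomial (Fin 2) ℝ) (c C : ℝ) (m : ℕ) (hC : 1 ≤ C) :
    ∃ T : ℕ, 1 ≤ T ∧ ∀ x : ℝ, 0 ≤ x → x ≤ Real.log (C * (2 * T : ℝ) ^ m) →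
      MvPolynomial.eval ![x, c] P ≤ T := by
  set Q : Polynomial ℝ := MvPolynomial.aeval ![Polynomial.X, Polynomial.C c] P with hQ
  have hev : ∀ x : ℝ, MvPolynomial.eval ![x, c] P = Q.eval x := by
    intro x
    rw [hQ]
    have h1 : Polynomial.eval x (MvPolynomial.aeval ![Polynomial.X, Polynomial.C c] P)
        = (Polynomial.aeval x) (MvPolynomial.aeval ![Polynomial.X, Polynomial.C c] P) := by
      rw [Polynomial.aeval_def, Polynomial.eval₂_eq_eval_map]
      simp
    have h2 : (fun i => (Polynomial.aeval x)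
        ((![Polynomial.X, Polynomial.C c] : Fin 2 → Polynomial ℝ) i)) = ![x, c] := by
      funext i
      fin_cases i <;> simp
    rw [h1, MvPolynomial.comp_aeval_apply, h2, MvPolynomial.aeval_eq_eval]
  set d := Q.natDegree with hd
  set B : ℝ := ∑ i ∈ range (d + 1), |Q.coeff i| with hB
  have hB0 : 0 ≤ B := Finset.sum_nonneg fun _ _ => abs_nonneg _
  have hbound : ∀ x : ℝ, 0 ≤ x → Q.eval x ≤ B * (1 + x) ^ d := by
    intro x hx
    rw [Polynomial.eval_eq_sum_range, hB, Finset.sum_mul]
    apply Finset.sum_le_sum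
    intro i hi
    rw [mem_range] at hi
    have h1 : x ^ i ≤ (1 + x) ^ d := by
      calc x ^ i ≤ (1 + x) ^ i := pow_le_pow_left₀ hx (by linarith) i
        _ ≤ (1 + x) ^ d := pow_le_pow_right₀ (by linarith) (by omega)
    calc Q.coeff i * x ^ i ≤ |Q.coeff i| * x ^ i :=
          mul_le_mul_of_nonneg_right (le_abs_self _) (by positivity)
      _ ≤ |Q.coeff i| * (1 + x) ^ d := mul_le_mul_of_nonneg_left h1 (abs_nonneg _)
  have hlo := Real.isLittleO_pow_log_id_atTop (n := d)
  set κ : ℝ := 1 / (2 * (B + 1) * (m + 2) ^ d) with hκ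
  have hκ0 : 0 < κ := by positivity
  have hev1 := hlo.def hκ0
  rw [Filter.eventually_atTop] at hev1
  obtain ⟨a, ha⟩ := hev1
  obtain ⟨T, hT⟩ := exists_nat_ge (max (max a C) 3)
  have hTa : a ≤ T := (le_max_left _ _).trans ((le_max_left _ _).trans hT)
  have hTC : C ≤ T := (le_max_right _ _).trans ((le_max_left _ _).trans hT)
  have hT3 : (3 : ℝ) ≤ T := (le_max_right _ _).trans hT
  refine ⟨T, by exact_mod_cast (by linarith : (1 : ℝ) ≤ T), ?_⟩
  intro x hx0 hx
  rw [hev]
  have h1 := ha (2 * T) (by linarith)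
  simp only [Real.norm_eq_abs, id_eq] at h1
  have hlogpos : 1 ≤ Real.log (2 * T) := by
    rw [Real.le_log_iff_exp_le (by linarith)]
    have := Real.exp_one_lt_d9
    linarith
  rw [abs_of_nonneg (by positivity), abs_of_nonneg (by positivity)] at h1
  have h2 : 1 + x ≤ (m + 2) * Real.log (2 * T) := by
    have h3 : Real.log (C * (2 * T : ℝ) ^ m) ≤ (m + 1) * Real.log (2 * T) := by
      rw [Real.log_mul (by positivity) (by positivity), Real.log_pow]
      have : Real.log C ≤ Real.log (2 * T) := Real.log_le_log (by linarith) (by linarith)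
      linarith
    linarith
  have h3 : (1 + x) ^ d ≤ ((m + 2) * Real.log (2 * T)) ^ d :=
    pow_le_pow_left₀ (by linarith) h2 d
  calc Q.eval x ≤ B * (1 + x) ^ d := hbound x hx0
    _ ≤ (B + 1) * ((m + 2) * Real.log (2 * T)) ^ d :=
        mul_le_mul (by linarith) h3 (by positivity) (by positivity)
    _ = (B + 1) * (m + 2) ^ d * Real.log (2 * T) ^ d := by rw [mul_pow]; ring
    _ ≤ (B + 1) * (m + 2) ^ d * (κ * (2 * T)) :=
        mul_le_mul_of_nonneg_left h1 (by positivity)
    _ = T := by rw [hκ]; field_simp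

/-- the algorithm is correct on a matrix within a budget -/
def Succ {n : ℕ} (alg : RandAlg n) (A : Matrix (Fin n) (Fin n) ℂ) (b : ℝ) : Prop :=
  ENNReal.ofReal (2 / 3) ≤ alg.μ {ω | ∃ (k : ℕ) (z : ℂ),
    (k : ℝ) ≤ b ∧ alg.Returns A ω k z ∧ Acceptable A (1 / 4) z}

lemma returns_unique {n : ℕ} {alg : RandAlg n} {A : Matrix (Fin n) (Fin n) ℂ} {ω : alg.Ω}
    {k k' : ℕ} {z z' : ℂ} (h : alg.Returns A ω k z) (h' : alg.Returns A ω k' z') : z = z' := by
  have hkk : k = k' := by
    rcases lt_trichotomy k k' with hlt | heq | hgt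
    · obtain ⟨x, hx⟩ := h'.1 k hlt
      rw [h.2] at hx
      cases hx
    · exact heq
    · obtain ⟨x, hx⟩ := h.1 k' hgt
      rw [h'.2] at hx
      cases hx
  subst hkk
  have := h.2.symm.trans h'.2
  exact Sum.inr_injective this

/-- No algorithm works both on the unit-link family within `T` steps and on the weak-link
family. -/
lemma contradiction_core {N p n : ℕ} [NeZero p] [Fact p.Prime] (alg : RandAlg n)
    (e : Ix N p ≃ Fin n) {T : ℕ} {τ ε : ℝ} (hP : Prm (2 * T) N p τ ε)
    (h1 : ∀ (w : Par p) (g : GM N p × RM N p), szOK g → Succ alg (hardM e 1 w τ g.1 g.2) T)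
    (h2 : ∀ (w : Par p) (g : GM N p × RM N p), ∃ b : ℝ, Succ alg (hardM e (1 / 2) w τ g.1 g.2) b) :
    False := by
  have hN1 : 1 ≤ N := by
    have h3 := hP.hN
    have h4 : 1 ≤ (2 * T) ^ 3 := Nat.one_le_pow _ _ hP.hK
    omega
  set c : ℝ := ((Fintype.card (Par p) : ℕ) : ℝ) with hc
  have hc1 : 1 ≤ c := by
    have : 0 < Fintype.card (Par p) := Fintype.card_pos
    rw [hc]
    exact_mod_cast this
  -- bounds for each parameter
  have low : ∀ w : Par p, 0.65 ≤ ((gam N p).prod alg.μ).real (jointSet alg e 1 w τ T) := by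
    intro w
    have hm := measurableSet_jointSet alg e 1 w τ T
    have k1 : ENNReal.ofReal (2 / 3) * gam N p {g | szOK g}
        ≤ ((gam N p).prod alg.μ) (jointSet alg e 1 w τ T) := by
      rw [Measure.prod_apply hm, ← lintegral_indicator_const measurableSet_szOK]
      apply lintegral_mono
      intro g
      dsimp only
      by_cases hg : szOK g
      · rw [Set.indicator_of_mem (show g ∈ {g | szOK g} from hg)]
        refine (h1 w g hg).trans (measure_mono ?_)
        rintro ω ⟨k, z, hk, hret, hacc⟩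
        have hb := (acceptable_bounds e w τ g.1 g.2 one_pos hacc).1
        rw [mul_one] at hb
        have := (mem_bigSet alg e 1 w τ g.1 g.2 ω T).2 ⟨k, by exact_mod_cast hk, z, hret, hb⟩
        rw [one_pow] at this
        exact this
      · rw [Set.indicator_of_notMem (show g ∉ {g | szOK g} from hg)]
        exact bot_le
    have k2 := szOK_prob (N := N) (p := p) hN1
    have k3 := ENNReal.toReal_mono (measure_ne_top _ _) k1
    rw [ENNReal.toReal_mul, ENNReal.toReal_ofReal (by norm_num)] at k3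
    have k4 : 2 / 3 * (gam N p).real {g | szOK g}
      ≤ ((gam N p).prod alg.μ).real (jointSet alg e 1 w τ T) := k3
    linarith
  have high : ∀ w : Par p,
      ((gam N p).prod alg.μ).real (jointSet alg e ((1 / 2) ^ p) w τ T) ≤ 1 / 3 := by
    intro w
    have hm := measurableSet_jointSet alg e ((1 / 2) ^ p) w τ T
    have k1 : ((gam N p).prod alg.μ) (jointSet alg e ((1 / 2) ^ p) w τ T)
        ≤ ENNReal.ofReal (1 / 3) := by
      rw [Measure.prod_apply hm]
      have k2 : ∀ g, alg.μ (Prod.mk g ⁻¹' jointSet alg e ((1 / 2) ^ p) w τ T)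
          ≤ ENNReal.ofReal (1 / 3) := by
        intro g
        obtain ⟨b, hb⟩ := h2 w g
        set E1 : Set alg.Ω := Prod.mk g ⁻¹' jointSet alg e ((1 / 2) ^ p) w τ T with hE1
        have hE1m : MeasurableSet E1 := measurable_prodMk_left hm
        have hsub : {ω | ∃ (k : ℕ) (z : ℂ), (k : ℝ) ≤ b ∧
            alg.Returns (hardM e (1 / 2) w τ g.1 g.2) ω k z ∧
              Acceptable (hardM e (1 / 2) w τ g.1 g.2) (1 / 4) z} ⊆ E1ᶜ := by
          rintro ω ⟨k, z, hk, hret, hacc⟩ hω
          have h3 := (mem_bigSet alg e (1 / 2) w τ g.1 g.2 ω T).1 hω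
          obtain ⟨k', hk', z', hret', hz'⟩ := h3
          have h4 := returns_unique hret hret'
          have h5 := (acceptable_bounds e w τ g.1 g.2 (by norm_num) hacc).2
          rw [h4] at h5
          linarith
        have h3 := hb.trans (measure_mono hsub)
        have h4 := ENNReal.toReal_mono (measure_ne_top _ _) h3
        rw [ENNReal.toReal_ofReal (by norm_num)] at h4
        have h5 : 2 / 3 ≤ alg.μ.real E1ᶜ := h4
        rw [probReal_compl_eq_one_sub hE1m] at h5
        rw [← ofReal_measureReal]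
        exact ENNReal.ofReal_le_ofReal (by linarith)
      refine (lintegral_mono k2).trans ?_
      rw [lintegral_const, measure_univ, mul_one]
    exact ENNReal.toReal_le_of_le_ofReal (by norm_num) k1
  -- Fubini
  have fub : ∀ (η : ℝ) (w : Par p), ((gam N p).prod alg.μ) (jointSet alg e η w τ T)
      = ∫⁻ ω, gam N p (runSet η w τ (strat alg e ω) (2 * T) (bigSet alg e T ω)) ∂alg.μ := by
    intro η w
    rw [Measure.prod_apply_symm (measurableSet_jointSet alg e η w τ T)]
    rfl
  have hmeas : ∀ (η : ℝ) (w : Par p), Measurable (fun ω =>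
      gam N p (runSet η w τ (strat alg e ω) (2 * T) (bigSet alg e T ω))) := by
    intro η w
    have := measurable_measure_prodMk_right (μ := gam N p)
      (measurableSet_jointSet alg e η w τ T)
    exact this
  have hη : (0 : ℝ) ≤ (1 / 2) ^ p ∧ ((1 : ℝ) / 2) ^ p ≤ 1 :=
    ⟨by positivity, pow_le_one₀ (by norm_num) (by norm_num)⟩
  have hind : ∀ ω : alg.Ω,
      ∑ w : Par p, gam N p (runSet 1 w τ (strat alg e ω) (2 * T) (bigSet alg e T ω))
      ≤ ∑ w : Par p, gam N p (runSet ((1 / 2) ^ p) w τ (strat alg e ω) (2 * T) (bigSet alg e T ω))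
        + ENNReal.ofReal (0.06 * c) := by
    intro ω
    have hS : ∀ k, Measurable (strat alg e ω k) := fun k => by
      have := (measurable_strat alg e k).comp (measurable_prodMk_left (x := ω))
      exact this
    have hB : MeasurableSet (bigSet alg e T ω) := by
      have := measurable_prodMk_left (x := ω) (measurableSet_big alg e T)
      exact this
    have h3 := indist hP zero_le_one le_rfl hη.1 hη.2 hS hB
    have e1 : ∀ η : ℝ, ∑ w : Par p, gam N p (runSet η w τ (strat alg e ω) (2 * T) (bigSet alg e T ω))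
        = ENNReal.ofReal (∑ w : Par p,
          (gam N p).real (runSet η w τ (strat alg e ω) (2 * T) (bigSet alg e T ω))) := by
      intro η
      rw [ENNReal.ofReal_sum_of_nonneg fun _ _ => measureReal_nonneg]
      exact Finset.sum_congr rfl fun w _ => (ofReal_measureReal).symm
    rw [e1, e1, ← ENNReal.ofReal_add (Finset.sum_nonneg fun _ _ => measureReal_nonneg)
      (by positivity)]
    exact ENNReal.ofReal_le_ofReal h3
  have hsum : ∑ w : Par p, ((gam N p).prod alg.μ) (jointSet alg e 1 w τ T)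
      ≤ ∑ w : Par p, ((gam N p).prod alg.μ) (jointSet alg e ((1 / 2) ^ p) w τ T)
        + ENNReal.ofReal (0.06 * c) := by
    simp_rw [fub]
    rw [← lintegral_finsetSum _ (fun w _ => hmeas 1 w),
      ← lintegral_finsetSum _ (fun w _ => hmeas ((1 / 2) ^ p) w)]
    have h3 := lintegral_mono (μ := alg.μ) hind
    rw [lintegral_add_right _ measurable_const, lintegral_const, measure_univ, mul_one] at h3
    exact h3
  have hfin := ENNReal.toReal_mono (ENNReal.add_ne_top.2 ⟨ENNReal.sum_ne_top.2
    fun w _ => measure_ne_top _ _, ENNReal.ofReal_ne_top⟩) hsum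
  rw [ENNReal.toReal_add (ENNReal.sum_ne_top.2 fun w _ => measure_ne_top _ _)
    ENNReal.ofReal_ne_top, ENNReal.toReal_ofReal (by positivity),
    ENNReal.toReal_sum fun w _ => measure_ne_top _ _,
    ENNReal.toReal_sum fun w _ => measure_ne_top _ _] at hfin
  have l1 : 0.65 * c ≤ ∑ w : Par p, (((gam N p).prod alg.μ) (jointSet alg e 1 w τ T)).toReal := by
    have := Finset.sum_le_sum fun w (_ : w ∈ (Finset.univ : Finset (Par p))) => low w
    simp only [Finset.sum_const, Finset.card_univ, nsmul_eq_mul] at this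
    rw [← hc] at this
    rw [mul_comm]
    exact this
  have l2 : ∑ w : Par p, (((gam N p).prod alg.μ)
      (jointSet alg e ((1 / 2) ^ p) w τ T)).toReal ≤ 1 / 3 * c := by
    have := Finset.sum_le_sum fun w (_ : w ∈ (Finset.univ : Finset (Par p))) => high w
    simp only [Finset.sum_const, Finset.card_univ, nsmul_eq_mul] at this
    rw [← hc] at this
    rw [mul_comm (1 / 3)]
    exact this
  linarith

/-- **The lower bound.** -/
theorem lower_bound (alg : (n : ℕ) → ℝ → RandAlg n) (P : MvPolynomial (Fin 2) ℝ) :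
    ¬ ∀ n : ℕ, 1 ≤ n → ∀ (A V : Matrix (Fin n) (Fin n) ℂ) (D : Fin n → ℂ),
        IsUnit V.det → A = V * Matrix.diagonal D * V⁻¹ →
          ENNReal.ofReal (2 / 3) ≤ (alg n (1 / 4)).μ {ω | ∃ (k : ℕ) (z : ℂ),
            (k : ℝ) ≤ MvPolynomial.eval ![Real.log (n * MatVec.cond V), 4] P ∧
              (alg n (1 / 4)).Returns A ω k z ∧ Acceptable A (1 / 4) z} := by
  intro h
  -- constants
  set X0 : ℝ := 20000000000000000000000000000 with hX0
  obtain ⟨T, hT1, hT⟩ := exists_large P 4 (165888 * X0 ^ 22) (21 * 22)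
    (by rw [hX0]; norm_num)
  have hTr : (1 : ℝ) ≤ T := by exact_mod_cast hT1
  set K := 2 * T with hK
  have hK1 : 1 ≤ K := by omega
  have hKr : (K : ℝ) = 2 * T := by rw [hK]; push_cast; ring
  have hK1r : (1 : ℝ) ≤ K := by exact_mod_cast hK1
  obtain ⟨p, hpp, hp1, hp2⟩ := Nat.exists_prime_lt_and_le_two_mul
    (100000000000000000000000 * K ^ 18) (by positivity)
  have : Fact p.Prime := ⟨hpp⟩
  have : NeZero p := ⟨hpp.ne_zero⟩
  set N := 1600 * K ^ 3 with hN
  set τ : ℝ := 100000 * K ^ 3 * p with hτ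
  set ε : ℝ := 1 / (2000000 * K ^ 3 * N) with hε
  have hP : Prm K N p τ ε := ⟨hK1, hN, hp1.le, hτ, hε⟩
  let n := N + p
  let e : Ix N p ≃ Fin n := Fintype.equivFinOfCardEq (by simp [Ix, n])
  have hn1 : 1 ≤ n := by
    have := hpp.pos
    omega
  apply contradiction_core (alg n (1 / 4)) e hP
  · -- unit links
    intro w g hg
    have hrep := hardM_eq e w τ g.1 g.2 one_pos
    have hu := hardV_isUnit e w τ g.1 g.2 one_pos
    have hs := h n hn1 _ _ _ hu hrep
    unfold Succ
    refine hs.trans (measure_mono ?_)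
    rintro ω ⟨k, z, hk, hret, hacc⟩
    refine ⟨k, z, hk.trans ?_, hret, hacc⟩
    have hcond1 := one_le_cond hn1 hu
    -- sizes
    set X : ℝ := X0 * K ^ 21 with hX
    have hKn : (1 : ℝ) ≤ K ^ 21 := one_le_pow₀ hK1r
    have hpX' : (p : ℝ) ≤ 200000000000000000000000 * K ^ 18 := by
      have : (p : ℝ) ≤ ((2 * (100000000000000000000000 * K ^ 18) : ℕ) : ℝ) := by
        exact_mod_cast hp2
      push_cast at this
      linarith
    have hpow1 : (K : ℝ) ^ 3 ≤ K ^ 21 := pow_le_pow_right₀ hK1r (by norm_num)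
    have hpow2 : (K : ℝ) ^ 18 ≤ K ^ 21 := pow_le_pow_right₀ hK1r (by norm_num)
    have hNr : (N : ℝ) = 1600 * K ^ 3 := by rw [hN]; push_cast; ring
    have hNX : (N : ℝ) ≤ X := by rw [hX, hNr, hX0]; linarith
    have hpX : (p : ℝ) ≤ X := by rw [hX, hX0]; linarith
    have hτX : τ ≤ X := by
      rw [hX, hX0, hτ]
      calc 100000 * (K : ℝ) ^ 3 * p ≤ 100000 * (K : ℝ) ^ 3 * (200000000000000000000000 * K ^ 18) :=
            mul_le_mul_of_nonneg_left hpX' (by positivity)
        _ = 20000000000000000000000000000 * K ^ 21 := by ring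
    have hN1 : (1 : ℝ) ≤ N := by
      rw [hNr]
      have : (1 : ℝ) ≤ K ^ 3 := one_le_pow₀ hK1r
      linarith
    have hτ0 : 0 ≤ τ := by rw [hτ]; positivity
    have hcond := cond_hardV_le e w hτ0 hN1 hNX hpX hτX hg
    have hnX : (n : ℝ) ≤ 2 * X := by
      have : (n : ℝ) = N + p := by simp [n]
      rw [this]; linarith
    have hn1r : (1 : ℝ) ≤ n := by exact_mod_cast hn1
    have hprod : (n : ℝ) * MatVec.cond (hardV e w τ g.1 g.2 1) ≤ 165888 * X0 ^ 22 * (2 * T : ℝ) ^ (21 * 22) := by
      calc (n : ℝ) * MatVec.cond (hardV e w τ g.1 g.2 1) ≤ (2 * X) * (82944 * X ^ 21) :=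
            mul_le_mul hnX hcond (by linarith) (by positivity)
        _ = 165888 * X0 ^ 22 * (K : ℝ) ^ (21 * 22) := by rw [hX]; ring
        _ = _ := by rw [hKr]
    have hge1 : 1 ≤ (n : ℝ) * MatVec.cond (hardV e w τ g.1 g.2 1) := by nlinarith
    exact hT _ (Real.log_nonneg hge1) (Real.log_le_log (by linarith) hprod)
  · -- weak links
    intro w g
    have hrep := hardM_eq e (ρ := 1 / 2) w τ g.1 g.2 (by norm_num)
    have hu := hardV_isUnit e (ρ := 1 / 2) w τ g.1 g.2 (by norm_num)
    have hs := h n hn1 _ _ _ hu hrep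
    exact ⟨_, hs⟩

end Pool.Agent.Helper97.LB
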